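import Pool.Agent.Lib.MP_776403_ag.SD.UK.Spec
import Pool.Agent.Lib.MP_776403_ag.SD.SpecL
import Pool.Agent.Lib.MP_776403_ag.SD.K.DefsS

/-!
# The Castelnuovo bound, part 2: counting, and the form for a homogeneous ideal

Statements with complete proofs in the docstrings.  `S_Xyz` is proved in `SD/UK/Xyz.lean` (theorem
`SD.UK.uXyz`), other statements are taken as hypotheses.
-/

set_option autoImplicit false

open MvPolynomial

noncomputable section

namespace Pool.Agent.Lib.MP_776403_ag.SD.UK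

/-! ## Counting -/

/-- (Bas) A basis adapted to a filtration.

PROOF.  For `j = 0, 1, …, J` choose finite `K`-independent sets `b_0 ⊆ b_1 ⊆ … ⊆ b_J`, `b_j ⊆ s j`, with
`span b_j = span (s j)` (`exists_linearIndependent_extension`, `b_(j-1) ⊆ s (j-1) ⊆ s j`).  `b_J` is a basis of `L`, so it
has `finrank K L` elements; `e` an enumeration of `b_J`, `jj i` the least `j` with `e_i ∈ b_j`.
`#{i | jj i ≤ j} = #b_j = finrank (span (s j))` for `j ≤ J`; for `j ≥ J` all `jj i ≤ J ≤ j`. -/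
def S_Bas : Prop :=
  ∀ (K L : Type) [Field K] [Field L] [Algebra K L], FiniteDimensional K L →
    ∀ (s : ℕ → Set L) (J : ℕ), Monotone s → Submodule.span K (s J) = ⊤ →
    ∃ (e : Fin (Module.finrank K L) → L) (jj : Fin (Module.finrank K L) → ℕ),
      LinearIndependent K e ∧ (∀ i, e i ∈ s (jj i)) ∧ (∀ i, jj i ≤ J) ∧
      ∀ j : ℕ, Module.finrank K (Submodule.span K (s j)) ≤
        (Finset.univ.filter fun i => jj i ≤ j).card

/-- (Mon) The monomials in `l` of degree `≤ d`: their number, and their independence over `K0`.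

PROOF.  (1) `Finsupp`/`Finset.antidiagonal` counting: the `α : Fin n →₀ ℕ` with `∑ α ≤ d` are `binom (n + d) n` many
(known: `MvPolynomial.restrictTotalDegree` has this dimension, see `SD.S_Rank` and its proof `L/Rank.lean`; or
`Sym` of `Option (Fin n)`: `Sym.card_sym_eq_choose`).
(2) `Sum.elim t l` is algebraically independent over `ℂ` (`S_Alg`), so `l` is over `Algebra.adjoin ℂ (range t)`
(`AlgebraicIndependent.sumElim_iff`, after exchanging the summands) and so over its field of fractions `K0`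
(clear denominators; `IntermediateField`/`IsFractionRing` lemmas).  A relation `∑ κ_α l^α = 0`, `κ ∈ K0`, is
trivial. -/
def S_Mon : Prop :=
  (∀ n d : ℕ, Nat.card {α : Fin n →₀ ℕ // α.degree ≤ d} = (n + d).choose n) ∧
  ∀ (n c m0 : ℕ) (L : Type) [Field L] [Algebra ℂ L] (G : Gen n c L), G.Ok m0 →
    AlgebraicIndependent G.K0 G.l

/-- (Low) LOWER BOUND.

PROOF.  For `i` and `α`, `|α| ≤ m - jj i`, the element `l^α e_i` lies in `V0 ^ m` (`l_i ∈ V0`:
`l_i = y_i + ∑ t_ij z_j`; `1 ∈ V0`; `V ^ k ⊆ V0 ^ k`).  They are `K0`-independent: `∑ κ_(i,α) l^α e_i = 0` gives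
`∑_α κ_(i,α) l^α = 0` for every `i` (this is in `K`, `e` is `K`-independent), so `κ = 0` (`S_Mon` (2)).  Number:
`∑_i binom (n + (m - jj i)) n` (`S_Mon` (1)), at most `finrank_(K0) (V0 ^ m) = finrank_ℂ (V ^ m)` (`S_Fk`). -/
def S_Low : Prop :=
  ∀ (n c m0 : ℕ) (L : Type) [Field L] [Algebra ℂ L] (G : Gen n c L), G.Ok m0 →
    ∀ (D : ℕ) (e : Fin D → L) (jj : Fin D → ℕ), LinearIndependent G.K e →
    (∀ i, e i ∈ G.V ^ (jj i)) → ∀ m : ℕ, (∀ i, jj i ≤ m) →
    ∑ i, (n + (m - jj i)).choose n ≤ Module.finrank ℂ (G.V ^ m : Submodule ℂ L)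

/-- (Up) UPPER BOUND.

PROOF.  `e_1, …, e_D` a basis of `L` over `K`, `g_s` a (finite) `ℂ`-basis of `V ^ m0`.  `g_s = ∑ κ_si e_i`,
`κ_si = ev (p_si) / ev q` with a common denominator `q ≠ 0`, `p_si, q ∈ P n c` (`IntermediateField.mem_adjoin_range_iff`).
`ev p` is a sum of monomials in `l` with coefficients in `ℂ[t] ⊆ K0`; let `δ` bound the degrees in `l`.  For
`m ≥ m0`: `V ^ m ⊆ V0 ^ m ≤ Y0 ^ (m - m0) * V0 ^ m0` (`S_Fin`, `S_Int`), so it is contained in the `K0`-span of the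
`l^α g_s`, `|α| ≤ m - m0`, and `ev q * V0 ^ m` in the `K0`-span of the `l^β e_i`, `|β| ≤ m - m0 + δ`: dimension
`≤ D binom (n + (m - m0 + δ)) n` (`S_Mon` (1)).  `finrank_ℂ (V ^ m) = finrank_(K0) (V0 ^ m)` (`S_Fk`), multiplication
by `ev q ≠ 0` is injective.  For `m < m0`: `V ^ m ≤ V ^ m0`.  So `δ` works for all `m` (after enlarging it by
`m0`). -/
def S_Up : Prop :=
  ∀ (n c m0 : ℕ) (L : Type) [Field L] [Algebra ℂ L] (G : Gen n c L), G.Ok m0 →
    ∃ δ : ℕ, ∀ m : ℕ, Module.finrank ℂ (G.V ^ m : Submodule ℂ L) ≤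
      Module.finrank G.K L * (n + (m + δ)).choose n

/-- (Nm) COMPARISON OF THE SECOND COEFFICIENTS.

PROOF.  `QP N c f q0` (`c ≤ N`): `ps f = q0 / (1 - X)^(ν+1)`, `ν = N - c`, so for `m ≥ deg q0`
`f m = ∑_i q_i binom (ν + m - i) ν` (`PowerSeries.mk_add_choose_mul_one_sub_pow_eq_one`), a polynomial in `m` with
leading term `q0(1) m^ν / ν!`.  (1) `binom (n + m - j) n ~ m^n / n!`: from `∑_(i < D') … ≤ f ≤ D' …`, `D' ≥ 1`: `n = ν`
and `D' = q0(1)`.  (2) `binom (ν + m - j) ν = m^ν / ν! + ((ν + 1) / 2 - j) m^(ν-1) / (ν-1)! + O(m^(ν-2))`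
(`ν ≥ 1`), e.g. by `Nat.choose` and products; or: `binom (ν + m) ν - binom (ν + m - j) ν =
∑_(i < j) binom (ν - 1 + m - i) (ν - 1) ~ j m^(ν-1) / (ν-1)!`.  So
`f m - ∑_i binom (ν + m - jj i) ν = (∑ jj i - q0'(1)) m^(ν-1) / (ν-1)! + o(m^(ν-1))` is `≥ 0`, and
`q0'(1) ≤ ∑ jj i` (`q0'(1) = ∑ i q_i`). -/
def S_Nm : Prop :=
  ∀ (N c n D D' δ : ℕ) (f : ℕ → ℕ) (q0 : Polynomial ℤ) (jj : Fin D' → ℕ), c + 1 ≤ N → 1 ≤ D' →
    QP N c f q0 → q0.eval 1 = (D : ℤ) → 1 ≤ D →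
    (∀ m : ℕ, (∀ i, jj i ≤ m) → ∑ i, (n + (m - jj i)).choose n ≤ f m) →
    (∀ m : ℕ, f m ≤ D' * (n + (m + δ)).choose n) →
    n = N - c ∧ D' = D ∧ (Polynomial.derivative q0).eval 1 ≤ ((∑ i, jj i : ℕ) : ℤ)

/-! ## From a homogeneous ideal to `Gen` -/

/-- (GA) Linear Noether normalization with a basis of the linear forms.

PROOF.  `S_Noe`: `r`, linear forms `w : Fin r → S`, independent modulo `I`, with homogeneous equations.
(a) `X_j ^ (m_j) ∈ (w) + I`: in the equation the `aeval w (p k)`, `p k` homogeneous of degree `m - k ≥ 1`, are in the ideal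
`(w)`.  So for `m0 = ∑ m_j + 1` every monomial of degree `m0` is in `(w) + I` (pigeonhole), hence every form `F` of
degree `m0` is `∑ w_i A_i + G`, `G ∈ I`; take homogeneous components of degree `m0` (of `A_i`: degree `m0 - 1`; of `G`:
in `I`).
(b) `r ≥ 1`: otherwise `X_0 ^ m0 ∈ I`, so `X_0 ∈ I` (prime), against the third hypothesis.  `r = n + 1`.
(c) The `w_i` are `ℂ`-linearly independent modulo `I` (`AlgebraicIndependent.linearIndependent`), so independent; extend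
by linear forms `u_j` (`j < c`) to a basis of `homogeneousSubmodule (Fin (N + 1)) ℂ 1`, which has dimension `N + 1`
(basis `X_j`); e.g. choose the `u_j` among the `X_j` (`exists_linearIndependent_extension`).
(d) Independence modulo `I` of `w`, `u`: a combination in `I` is a linear form in `I`, so `0`. -/
def S_GA : Prop :=
  ∀ (N : ℕ) (I : Ideal (Sx N)), I.IsPrime → IsHom I → (∀ F ∈ I, F.IsHomogeneous 1 → F = 0) →
    ∃ (n c m0 : ℕ) (w : Fin (n + 1) → Sx N) (u : Fin c → Sx N), n + c = N ∧ 1 ≤ m0 ∧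
      (∀ i, (w i).IsHomogeneous 1) ∧ (∀ j, (u j).IsHomogeneous 1) ∧
      (AlgebraicIndependent ℂ fun i => Ideal.Quotient.mk I (w i)) ∧
      LinearIndependent ℂ (fun o : Fin (n + 1) ⊕ Fin c => Ideal.Quotient.mk I (Sum.elim w u o)) ∧
      (∀ F : Sx N, F.IsHomogeneous 1 → F ∈ Submodule.span ℂ (Set.range (Sum.elim w u))) ∧
      ∀ F : Sx N, F.IsHomogeneous m0 → ∃ A : Fin (n + 1) → Sx N,
        (∀ i, (A i).IsHomogeneous (m0 - 1)) ∧ F - ∑ i, w i * A i ∈ I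

/-- (GB) Independence of the ratios.

PROOF.  In `F`: if `P(x_1 / x_0, …, x_n / x_0) = 0`, `P ≠ 0`, of total degree `d`: multiply by `x_0 ^ d`:
`P^h(x_0, …, x_n) = 0` for `P^h = ∑_α P_α X_0^(d - |α|) X^α ≠ 0` (different `α` give different monomials), against the
independence of `x`.  Or: `x_0, …, x_n` are algebraic over (contained in) `ℂ(x_0, x_i / x_0)`, inside the field
`E = IntermediateField.adjoin ℂ (range x)` of transcendence degree `≥ n + 1`:
`Algebra.IsAlgebraic.isTranscendenceBasis_of_le_trdeg_of_finite`. -/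
def S_GB : Prop :=
  ∀ (n : ℕ) (F : Type) [Field F] [Algebra ℂ F] (x : Fin (n + 1) → F), AlgebraicIndependent ℂ x →
    AlgebraicIndependent ℂ fun i : Fin n => x i.succ / x 0

/-- (G1) The field of degree `0` fractions of `S / I`, with coordinates.

PROOF.  `S_GA`: `w`, `u`.  `Q = FractionRing (S / I)`, `x_i`, `v_j ∈ Q` the classes of `w_i`, `u_j`; `x_0 ≠ 0`.
`y_i = x_(i+1) / x_0`, `z_j = v_j / x_0`; `F = IntermediateField.adjoin ℂ (range y ∪ range z) ≤ Q`, the `y_i`, `z_j` seen in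
`F` (all conditions can be checked in `Q`: the inclusion is an injective `ℂ`-algebra homomorphism;
`AlgebraicIndependent.of_map`-type lemmas, `Submodule.map_mul`, `Submodule.map_pow`; for `gen`:
`IntermediateField.adjoin_...` of the subtype, `IntermediateField.lift_adjoin`, `IntermediateField.lift_injective`).
`y` is algebraically independent: `S_GB`.  `1, y, z` independent: multiply by `x_0`.
`V = span (1, y, z) = x_0^(-1) R_1`, `R_m` the image of `gr I m` in `Q`; `R_m = R_1 ^ m` (forms of degree `m` are sums of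
products of `m` linear forms), so `V ^ m = x_0^(-m) R_m`, dimension `finrank (gr I m)` (`S / I → Q` is injective,
multiplication by `x_0^(-m)` too).  `R_m0 ≤ ∑ x_i R_(m0-1)` gives `V ^ m0 ≤ Y * V ^ (m0-1)`. -/
def S_G1 : Prop :=
  ∀ (N : ℕ) (I : Ideal (Sx N)), I.IsPrime → IsHom I → (∀ F ∈ I, F.IsHomogeneous 1 → F = 0) →
    ∃ (n c m0 : ℕ) (F : Type) (_ : Field F) (_ : Algebra ℂ F) (y : Fin n → F) (z : Fin c → F),
      n + c = N ∧ 1 ≤ m0 ∧ AlgebraicIndependent ℂ y ∧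
      LinearIndependent ℂ (Sum.elim (fun _ : Unit => (1 : F)) (Sum.elim y z)) ∧
      Submodule.span ℂ (insert 1 (Set.range y ∪ Set.range z)) ^ m0 ≤
        Submodule.span ℂ (insert 1 (Set.range y)) *
          Submodule.span ℂ (insert 1 (Set.range y ∪ Set.range z)) ^ (m0 - 1) ∧
      IntermediateField.adjoin ℂ (Set.range y ∪ Set.range z) = ⊤ ∧
      ∀ m : ℕ, Module.finrank ℂ
        (Submodule.span ℂ (insert 1 (Set.range y ∪ Set.range z)) ^ m : Submodule ℂ F) =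
          Module.finrank ℂ (gr I m)

/-- (G2) Adding the parameters.

PROOF.  `L = FractionRing (MvPolynomial (Fin n × Fin c) F)`, `t_p = X_p`, `y`, `z` mapped to `L` (the map `F → L` is an
injective homomorphism of `ℂ`-algebras): `indy`, `lin` (`AlgebraicIndependent.map'`, `LinearIndependent.map'`), `noe`
(`Submodule.map_mul`, `Submodule.map_pow`, `Submodule.map_span`), the dimensions; `indt`: `X` is algebraically
independent over `F`, so over `A` (which is contained in the image of `F`); `gen`: `F` and the `X_p` generate `L`. -/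
def S_G2 : Prop :=
  ∀ (n c m0 : ℕ) (F : Type) [Field F] [Algebra ℂ F] (y : Fin n → F) (z : Fin c → F),
    1 ≤ m0 → AlgebraicIndependent ℂ y →
    LinearIndependent ℂ (Sum.elim (fun _ : Unit => (1 : F)) (Sum.elim y z)) →
    Submodule.span ℂ (insert 1 (Set.range y ∪ Set.range z)) ^ m0 ≤
      Submodule.span ℂ (insert 1 (Set.range y)) *
        Submodule.span ℂ (insert 1 (Set.range y ∪ Set.range z)) ^ (m0 - 1) →
    IntermediateField.adjoin ℂ (Set.range y ∪ Set.range z) = ⊤ →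
    ∃ (L : Type) (_ : Field L) (_ : Algebra ℂ L) (G : Gen n c L), G.Ok m0 ∧
      ∀ m : ℕ, Module.finrank ℂ (G.V ^ m : Submodule ℂ L) = Module.finrank ℂ
        (Submodule.span ℂ (insert 1 (Set.range y ∪ Set.range z)) ^ m : Submodule ℂ F)

/-! ## The bound -/

/-- (Sum) PROOF.  `∑_i jj i = ∑_i ∑_(j < J) [j < jj i] = ∑_(j < J) #{i | j < jj i}` (`jj i ≤ J`), and
`#{i | j < jj i} = D - #{i | jj i ≤ j} ≤ D - min D (j c + 1) = D - 1 - c j` (truncated).  The terms with `j ≥ D` are `0`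
as `c ≥ 1`. -/
def S_Sum : Prop :=
  ∀ (D c J : ℕ) (jj : Fin D → ℕ), 1 ≤ c → (∀ i, jj i ≤ J) →
    (∀ j : ℕ, min D (j * c + 1) ≤ (Finset.univ.filter fun i => jj i ≤ j).card) →
    ∑ i, jj i ≤ ∑ j ∈ Finset.range D, (D - 1 - c * j)

/-- (Exh) PROOF.  (1) `span_K V = KV`: `V ∋ 1, z_j`, and `y_i = l_i - ∑ t_ij z_j ∈ KV` (`l_i, t_ij ∈ K`).
`Submodule.span_pow`: `span_K (V ^ j) = span_K (W ^ j) = (span_K W) ^ j = KV ^ j`.  (2) `1 ∈ V`: `V ^ i ≤ V ^ j` for
`i ≤ j`.  (3) `⋃ KV ^ j` is a `K`-subalgebra of `L` (directed union; contains `1`, `y`, `z`), a field as `L / K` is finite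
(`S_Alg`), and contains `t`; so it is `⊤` by `gen`.  `L` is finite-dimensional, so `KV ^ J = ⊤` for some `J` (a finite
basis lies in one `KV ^ J`). -/
def S_Exh : Prop :=
  ∀ (n c m0 : ℕ) (L : Type) [Field L] [Algebra ℂ L] (G : Gen n c L), G.Ok m0 →
    (∀ j : ℕ, Submodule.span G.K ((G.V ^ j : Submodule ℂ L) : Set L) = G.KV ^ j) ∧
    (Monotone fun j : ℕ => ((G.V ^ j : Submodule ℂ L) : Set L)) ∧ (1 : L) ∈ G.KV ∧
    ∃ J : ℕ, G.KV ^ J = ⊤

/-- (HG) THE HILBERT FUNCTION OF THE GENERIC FIBRE.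

PROOF.  `S_ND`: `finrank KV = c + 1`: `S_CP` with `S_PE` and `S_Alg` (`V = KV`, `1 ∈ KV` by `S_Exh`).  Or `KV = ⊤`: for
`j ≥ 1` `KV ^ j = ⊤` (`⊤ ≤ KV * KV ^ (j-1)` as `1 ∈ KV ^ (j-1)`); for `j = 0`: `min D 1 ≤ 1 = finrank (K 1)`. -/
def S_HG : Prop :=
  ∀ (n c m0 : ℕ) (L : Type) [Field L] [Algebra ℂ L] (G : Gen n c L), G.Ok m0 → ∀ j : ℕ,
    min (Module.finrank G.K L) (j * c + 1) ≤ Module.finrank G.K (G.KV ^ j : Submodule G.K L)

/-- (Cas) THE CASTELNUOVO BOUND.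

PROOF.  `S_G1` (`n + c' = N`), `S_G2`: `G`, `G.Ok m0`, `finrank (V ^ m) = finrank (gr I m)`.  `S_Alg`: `L / K` finite,
`D' = finrank K L ≥ 1`.  `S_Bas` with `s j = V ^ j`, `J` from `S_Exh`: `e`, `jj`.  `S_Low`, `S_Up` and `S_Nm` with
`f m = finrank (gr I m)`: `n = N - c`, so `c' = c`; `D' = D`; `q0'(1) ≤ ∑ jj i`.
`#{i | jj i ≤ j} ≥ finrank (span_K (V ^ j)) = finrank (KV ^ j) ≥ min D (j c + 1)` (`S_Exh`, `S_HG`).  `S_Sum`. -/
def S_Cas : Prop :=
  ∀ (N c D : ℕ) (I : Ideal (Sx N)) (q0 : Polynomial ℤ), 1 ≤ c → c + 1 ≤ N → 1 ≤ D → I.IsPrime →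
    IsHom I → (∀ F ∈ I, F.IsHomogeneous 1 → F = 0) →
    QP N c (fun k => Module.finrank ℂ (gr I k)) q0 → q0.eval 1 = (D : ℤ) →
    (Polynomial.derivative q0).eval 1 ≤ ((∑ j ∈ Finset.range D, (D - 1 - c * j) : ℕ) : ℤ)

/-- (Ns) The bound for `s = a - c`: `(s - 1) c + 2 ≤ D`.

PROOF.  Suppose `D ≤ (s - 1) c + 1`, `s ≥ 1`.  `D - 1 - c j ≤ c (s - 1 - j)`, so
`2 ∑_(j < D) (D - 1 - c j) = 2 ∑_(j < s) (D - 1 - c j)`; compare with `D s`: the sum over `j < s` of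
`2 (D - 1 - c j)_+`; let `D - 1 = c μ + ε`, `0 ≤ ε < c`, `μ ≤ s - 1`: the sum is
`2 ∑_(j ≤ μ) (c (μ - j) + ε) = (μ + 1) (c μ + 2 ε)`.  If `μ ≤ s - 2`: `(μ + 1) (c μ + 2 ε) < s (c μ + ε + 1)`:
`s ≥ μ + 2` and `(μ + 2) (c μ + ε + 1) - (μ + 1) (c μ + 2 ε) = (c μ + ε + 1) + (μ + 1) (1 - ε)
= c μ + ε + 1 + μ + 1 - ε μ - ε = μ (c + 1 - ε) + 2 > 0`.  If `μ = s - 1`: `D ≤ (s - 1) c + 1` gives `ε = 0`:
`s c (s - 1) < s ((s - 1) c + 1)`. -/
def S_Ns : Prop :=
  ∀ c s D : ℕ, 1 ≤ c → 1 ≤ D → D * s ≤ 2 * ∑ j ∈ Finset.range D, (D - 1 - c * j) →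
    1 ≤ s → (s - 1) * c + 2 ≤ D

end Pool.Agent.Lib.MP_776403_ag.SD.UK
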