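import Pool.Agent.Lib.MP_776403_ag.SD.UK.Spec2

/-!
# The lower bound for the Hilbert function

The elements `l^α e_i` with `|α| ≤ m - j_i` lie in `V0 ^ m` and are independent over `ℂ(t)`.
-/

set_option autoImplicit false

open MvPolynomial

noncomputable section

namespace Pool.Agent.Lib.MP_776403_ag.SD.UK

namespace LowAux

variable {n c : ℕ} {L : Type} [Field L] [Algebra ℂ L] (G : Gen n c L)

theorem one_mem : (1 : L) ∈ G.V0 :=
  Submodule.subset_span (Set.mem_insert _ _)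

theorem l_mem (i : Fin n) : G.l i ∈ G.V0 := by
  unfold Gen.l
  refine Submodule.add_mem _ ?_ (Submodule.sum_mem _ fun j _ => ?_)
  · exact Submodule.subset_span (Set.mem_insert_of_mem _ (Or.inl ⟨i, rfl⟩))
  · have ht : G.t (i, j) ∈ G.K0 := IntermediateField.subset_adjoin ℂ _ ⟨(i, j), rfl⟩
    have hz : G.z j ∈ G.V0 :=
      Submodule.subset_span (Set.mem_insert_of_mem _ (Or.inr ⟨j, rfl⟩))
    exact Submodule.smul_mem _ (⟨G.t (i, j), ht⟩ : G.K0) hz

theorem pow_mono {a b : ℕ} (h : a ≤ b) {x : L} (hx : x ∈ G.V0 ^ a) : x ∈ G.V0 ^ b := by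
  obtain ⟨k, rfl⟩ := Nat.exists_eq_add_of_le h
  have h1 : (1 : L) ^ k ∈ G.V0 ^ k := Submodule.pow_mem_pow _ (one_mem G) k
  have h2 := Submodule.mul_mem_mul hx h1
  rw [← pow_add] at h2
  simpa using h2

theorem lprod_mem (α : Fin n →₀ ℕ) :
    (∏ k, G.l k ^ α k) ∈ G.V0 ^ (∑ k, α k) := by
  have key : ∀ s : Finset (Fin n), (∏ k ∈ s, G.l k ^ α k) ∈ G.V0 ^ (∑ k ∈ s, α k) := by
    intro s
    induction s using Finset.induction_on with
    | empty => simp
    | insert a s ha ih =>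
      rw [Finset.prod_insert ha, Finset.sum_insert ha, pow_add]
      exact Submodule.mul_mem_mul (Submodule.pow_mem_pow _ (l_mem G a) _) ih
  exact key Finset.univ

theorem V_sub (k : ℕ) {x : L} (hx : x ∈ G.V ^ k) : x ∈ G.V0 ^ k := by
  unfold Gen.V at hx
  unfold Gen.V0
  rw [Submodule.span_pow] at hx ⊢
  exact Submodule.span_subset_span ℂ G.K0 _ hx

theorem v_mem (m : ℕ) (α : Fin n →₀ ℕ) (j : ℕ) (hj : j ≤ m) (hα : α.degree ≤ m - j) {x : L}
    (hx : x ∈ G.V ^ j) : (∏ k, G.l k ^ α k) * x ∈ G.V0 ^ m := by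
  have h1 := Submodule.mul_mem_mul (lprod_mem G α) (V_sub G j hx)
  rw [← pow_add] at h1
  refine pow_mono G ?_ h1
  have h2 : ∑ k, α k = α.degree := (Finsupp.degree_eq_sum α).symm
  omega

theorem mem_K (i : Fin n) : G.l i ∈ G.K :=
  IntermediateField.subset_adjoin ℂ _ ⟨Sum.inr i, rfl⟩

theorem K0_le : G.K0 ≤ G.K := by
  unfold Gen.K0 Gen.K
  refine IntermediateField.adjoin.mono ℂ _ _ ?_
  rintro _ ⟨p, rfl⟩
  exact ⟨Sum.inl p, rfl⟩

theorem indep {m : ℕ} (hl : AlgebraicIndependent G.K0 G.l) {D : ℕ} (e : Fin D → L)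
    (jj : Fin D → ℕ) (he : LinearIndependent G.K e)
    [∀ i, Fintype {α : Fin n →₀ ℕ // α.degree ≤ m - jj i}] :
    LinearIndependent G.K0
      (fun p : (Σ i : Fin D, {α : Fin n →₀ ℕ // α.degree ≤ m - jj i}) =>
        (∏ k, G.l k ^ p.2.1 k) * e p.1) := by
  rw [Fintype.linearIndependent_iff]
  intro g hg
  rw [Fintype.sum_sigma] at hg
  have h1 : ∀ i : Fin D, ∑ x : {α : Fin n →₀ ℕ // α.degree ≤ m - jj i},
      (g ⟨i, x⟩ : L) * (∏ k, G.l k ^ x.1 k) ∈ G.K := by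
    intro i
    refine sum_mem fun x _ => mul_mem (K0_le G (g ⟨i, x⟩).2) ?_
    exact _root_.prod_mem fun k _ => pow_mem (mem_K G k) _
  rw [Fintype.linearIndependent_iff] at he
  have h2 := he (fun i => ⟨_, h1 i⟩) (by
    rw [← hg]
    refine Finset.sum_congr rfl fun i _ => ?_
    rw [Algebra.smul_def]
    change (∑ x : {α : Fin n →₀ ℕ // α.degree ≤ m - jj i},
      (g ⟨i, x⟩ : L) * (∏ k, G.l k ^ x.1 k)) * e i = _
    rw [Finset.sum_mul]
    refine Finset.sum_congr rfl fun x _ => ?_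
    rw [Algebra.smul_def, mul_assoc]
    rfl)
  rintro ⟨i, x⟩
  have h3 : ∑ x : {α : Fin n →₀ ℕ // α.degree ≤ m - jj i},
      (g ⟨i, x⟩ : L) * (∏ k, G.l k ^ x.1 k) = 0 := congrArg Subtype.val (h2 i)
  have h4 : (∑ x : {α : Fin n →₀ ℕ // α.degree ≤ m - jj i},
      monomial x.1 (g ⟨i, x⟩) : MvPolynomial (Fin n) G.K0) = 0 := by
    apply hl
    rw [map_zero, map_sum, ← h3]
    refine Finset.sum_congr rfl fun y _ => ?_
    rw [aeval_monomial, Finsupp.prod_fintype _ _ (fun k => pow_zero _)]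
    rfl
  have h5 := congrArg (coeff x.1) h4
  rw [coeff_sum, coeff_zero] at h5
  rw [Finset.sum_eq_single x] at h5
  · simpa using h5
  · intro y _ hy
    rw [coeff_monomial, if_neg]
    exact fun h => hy (Subtype.ext h)
  · intro h
    exact absurd (Finset.mem_univ x) h

end LowAux

theorem uLow : S_Fk → S_Mon → S_Low := by
  intro hFk hMon n c m0 L _ _ G hG D e jj he hV m hm
  have hl : AlgebraicIndependent G.K0 G.l := hMon.2 n c m0 L G hG
  obtain ⟨h1, h2⟩ := hFk n c m0 L G hG m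
  rw [← h1]
  have hfin : ∀ i : Fin D, Finite {α : Fin n →₀ ℕ // α.degree ≤ m - jj i} := by
    intro i
    refine Nat.finite_of_card_ne_zero ?_
    rw [hMon.1 n (m - jj i)]
    exact (Nat.choose_pos (Nat.le_add_right _ _)).ne'
  have : ∀ i : Fin D, Fintype {α : Fin n →₀ ℕ // α.degree ≤ m - jj i} :=
    fun i => Fintype.ofFinite _
  have hI := LowAux.indep G (m := m) hl e jj he
  let v : (Σ i : Fin D, {α : Fin n →₀ ℕ // α.degree ≤ m - jj i}) → (G.V0 ^ m : Submodule G.K0 L) :=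
    fun p => ⟨(∏ k, G.l k ^ p.2.1 k) * e p.1,
      LowAux.v_mem G m p.2.1 (jj p.1) (hm p.1) p.2.2 (hV p.1)⟩
  have hv : LinearIndependent G.K0 v := by
    refine LinearIndependent.of_comp (G.V0 ^ m : Submodule G.K0 L).subtype ?_
    exact hI
  have hc := hv.fintype_card_le_finrank
  refine le_trans (le_of_eq ?_) hc
  rw [Fintype.card_sigma]
  refine Finset.sum_congr rfl fun i _ => ?_
  rw [← hMon.1 n (m - jj i), Nat.card_eq_fintype_card]

end Pool.Agent.Lib.MP_776403_ag.SD.UK
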