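import Pool.Agent.Lib.MP_776403_ag.SD.UK.Spec

/-!
# The Castelnuovo bound: finiteness over `K` and independence of `t`, `l` (S_Alg)
-/

set_option autoImplicit false

open MvPolynomial

noncomputable section

namespace Pool.Agent.Lib.MP_776403_ag.SD.UK

namespace AlgAux

variable {n c : ℕ} {L : Type} [Field L] [Algebra ℂ L]

omit [Algebra ℂ L] in
theorem W_finite (G : Gen n c L) : G.W.Finite := by
  unfold Gen.W
  exact ((Set.finite_range _).union (Set.finite_range _)).insert _

theorem V0_fg (G : Gen n c L) : G.V0.FG := Submodule.fg_span (W_finite G)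

theorem one_mem_V0 (G : Gen n c L) : (1 : L) ∈ G.V0 :=
  Submodule.subset_span (Set.mem_insert _ _)

theorem y_mem_V0 (G : Gen n c L) (i : Fin n) : G.y i ∈ G.V0 :=
  Submodule.subset_span (Set.mem_insert_of_mem _ (Or.inl ⟨i, rfl⟩))

theorem z_mem_V0 (G : Gen n c L) (j : Fin c) : G.z j ∈ G.V0 :=
  Submodule.subset_span (Set.mem_insert_of_mem _ (Or.inr ⟨j, rfl⟩))

theorem K0_le (G : Gen n c L) : G.K0 ≤ G.K := by
  apply IntermediateField.adjoin.mono
  rintro x ⟨p, rfl⟩
  exact ⟨Sum.inl p, rfl⟩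

theorem l_mem (G : Gen n c L) (i : Fin n) : G.l i ∈ G.K :=
  IntermediateField.subset_adjoin _ _ ⟨Sum.inr i, rfl⟩

theorem t_mem (G : Gen n c L) (p : Fin n × Fin c) : G.t p ∈ G.K :=
  IntermediateField.subset_adjoin _ _ ⟨Sum.inl p, rfl⟩

theorem adj_mem (G : Gen n c L) (x : L)
    (hx : x ∈ Algebra.adjoin G.K0 (Set.range G.l)) : x ∈ G.K := by
  induction hx using Algebra.adjoin_induction with
  | mem x hx =>
    obtain ⟨i, rfl⟩ := hx
    exact l_mem G i
  | algebraMap r => exact K0_le G r.2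
  | add x y _ _ hx hy => exact add_mem hx hy
  | mul x y _ _ hx hy => exact mul_mem hx hy

/-- The inclusion `K0[l] → K`. -/
def inc (G : Gen n c L) : Algebra.adjoin G.K0 (Set.range G.l) →+* G.K :=
  (algebraMap (Algebra.adjoin G.K0 (Set.range G.l)) L).codRestrict G.K
    (fun x => adj_mem G _ x.2)

theorem int_K (G : Gen n c L) (x : L)
    (hx : IsIntegral (Algebra.adjoin G.K0 (Set.range G.l)) x) : IsIntegral G.K x := by
  have h : ((algebraMap G.K L).comp (inc G)).IsIntegralElem x := hx
  exact h.of_comp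

theorem fin_K (h : S_Int) (hF : S_Fin) (m0 : ℕ) (G : Gen n c L) (hG : G.Ok m0) :
    FiniteDimensional G.K L := by
  have hint : ∀ x ∈ G.V0, IsIntegral G.K x := fun x hx =>
    int_K G x ((h G.K0 L n m0 G.l G.V0 (V0_fg G) (one_mem_V0 G) hG.pos
      (hF n c m0 L G hG)).1 x hx)
  have hfin : Finite (Set.range G.y ∪ Set.range G.z : Set L) :=
    ((Set.finite_range G.y).union (Set.finite_range G.z)).to_subtype
  have h1 : FiniteDimensional G.K
      (IntermediateField.adjoin G.K (Set.range G.y ∪ Set.range G.z)) := by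
    apply IntermediateField.finiteDimensional_adjoin
    rintro x (⟨i, rfl⟩ | ⟨j, rfl⟩)
    · exact hint _ (y_mem_V0 G i)
    · exact hint _ (z_mem_V0 G j)
  have h2 : IntermediateField.adjoin G.K (Set.range G.y ∪ Set.range G.z) = ⊤ := by
    rw [eq_top_iff]
    intro x _
    have ht : ∀ p, G.t p ∈ IntermediateField.adjoin G.K (Set.range G.y ∪ Set.range G.z) := by
      intro p
      have h4 := IntermediateField.algebraMap_mem
        (IntermediateField.adjoin G.K (Set.range G.y ∪ Set.range G.z)) ⟨G.t p, t_mem G p⟩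
      rwa [IntermediateField.algebraMap_apply] at h4
    have hs : ∀ w ∈ Set.range G.y ∪ Set.range G.z,
        w ∈ IntermediateField.adjoin G.K (Set.range G.y ∪ Set.range G.z) :=
      fun w hw => IntermediateField.subset_adjoin G.K (Set.range G.y ∪ Set.range G.z) hw
    have h3 : (⊤ : IntermediateField ℂ L) ≤
        (IntermediateField.adjoin G.K
          (Set.range G.y ∪ Set.range G.z)).restrictScalars ℂ := by
      rw [← hG.gen, IntermediateField.adjoin_le_iff]
      rintro w (hw | ⟨p, rfl⟩)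
      · exact hs w hw
      · exact ht p
    exact h3 (IntermediateField.mem_top (x := x))
  rw [h2] at h1
  exact LinearEquiv.finiteDimensional
    (IntermediateField.topEquiv (F := G.K) (E := L)).toLinearEquiv

theorem ind_ty (m0 : ℕ) (G : Gen n c L) (hG : G.Ok m0) :
    AlgebraicIndependent ℂ (Sum.elim G.t G.y) := by
  refine AlgebraicIndependent.sumElim_of_tower (S := G.A) hG.indy ?_ hG.indt
  rintro x ⟨i, rfl⟩
  exact ⟨⟨G.y i, Algebra.subset_adjoin (Or.inl ⟨i, rfl⟩)⟩, rfl⟩

open scoped IntermediateField.algebraAdjoinAdjoin in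
theorem ind_tl (m0 : ℕ) (G : Gen n c L) (hG : G.Ok m0) (hf : FiniteDimensional G.K L) :
    AlgebraicIndependent ℂ (Sum.elim G.t G.l) := by
  have h1 : Algebra.IsAlgebraic G.K L := inferInstance
  have h2 : Algebra.IsAlgebraic (Algebra.adjoin ℂ (Set.range (Sum.elim G.t G.l))) L :=
    (IntermediateField.isAlgebraic_adjoin_iff_top (F := ℂ) (E := L) (S := L)
      (s := Set.range (Sum.elim G.t G.l))).1 h1
  have h3 := (ind_ty m0 G hG).cardinalMk_le_trdeg
  exact (Algebra.IsAlgebraic.isTranscendenceBasis_of_le_trdeg_of_finite ℂ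
    (Sum.elim G.t G.l) h3).1

end AlgAux

theorem uAlg : S_Int → S_Fin → S_Alg := by
  intro h hF n c m0 L _ _ G hG
  have hf := AlgAux.fin_K h hF m0 G hG
  exact ⟨hf, AlgAux.ind_tl m0 G hG hf⟩

end Pool.Agent.Lib.MP_776403_ag.SD.UK
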