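import Pool.Agent.Lib.MP_776403_ag.SD.UK.Spec

set_option autoImplicit false

noncomputable section

namespace Pool.Agent.Lib.MP_776403_ag.SD.UK

theorem uCP : S_CD → S_CP := by
  intro hCD K L _ _ _ hfd hM V h1 j
  have hV : 1 ≤ Module.finrank K V := by
    have hne : V ≠ ⊥ := by
      intro h
      rw [h, Submodule.mem_bot] at h1
      exact one_ne_zero h1
    exact Nat.one_le_iff_ne_zero.mpr (fun h => hne (Submodule.finrank_eq_zero.mp h))
  induction j with
  | zero =>
    have h2 : Module.finrank K (V ^ 0 : Submodule K L) = 1 := by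
      rw [pow_zero, Submodule.one_eq_span, finrank_span_singleton one_ne_zero]
    rw [h2]
    omega
  | succ j ih =>
    have hne : V ^ j ≠ ⊥ := by
      intro h
      have h3 : (1 : L) ∈ V ^ j := by
        have := Submodule.pow_mem_pow V h1 j
        rwa [one_pow] at this
      rw [h, Submodule.mem_bot] at h3
      exact one_ne_zero h3
    have h4 := hCD K L hfd hM (V ^ j) V hne h1
    rw [pow_succ]
    obtain ⟨v, hv⟩ : ∃ v, Module.finrank K V = v + 1 := ⟨Module.finrank K V - 1, by omega⟩
    rw [hv] at h4 ih ⊢
    simp only [Nat.add_sub_cancel] at ih ⊢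
    have h5 : (j + 1) * v = j * v + v := by ring
    rw [h5]
    omega

end Pool.Agent.Lib.MP_776403_ag.SD.UK
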