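import Pool.Agent.Lib.MP_776403_ag.SD.UK.Spec

set_option autoImplicit false

open MvPolynomial

noncomputable section

namespace Pool.Agent.Lib.MP_776403_ag.SD.UK

namespace ChAux

variable {n c : ℕ} {L : Type} [Field L] [Algebra ℂ L] (G : Gen n c L)

/-- `y_i` as an element of `A`. -/
def yA (i : Fin n) : G.A := ⟨G.y i, Algebra.subset_adjoin (Or.inl ⟨i, rfl⟩)⟩

/-- `z_j` as an element of `A`. -/
def zA (j : Fin c) : G.A := ⟨G.z j, Algebra.subset_adjoin (Or.inr ⟨j, rfl⟩)⟩

/-- The substitution. -/
def phi : Gen.P n c →ₐ[ℂ] MvPolynomial (Fin n × Fin c) G.A :=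
  aeval (Sum.elim (fun p => X p) fun i => C (yA G i) + ∑ j, X (i, j) * C (zA G j))

theorem phi_inl (p : Fin n × Fin c) : phi G (X (Sum.inl p)) = X p := by
  simp [phi]

theorem phi_inr (i : Fin n) :
    phi G (X (Sum.inr i)) = C (yA G i) + ∑ j, X (i, j) * C (zA G j) := by
  simp [phi]

theorem comp (a : Gen.P n c) : aeval G.t (phi G a) = G.ev a := by
  induction a using MvPolynomial.induction_on with
  | C a =>
    have h1 : (C a : Gen.P n c) = algebraMap ℂ _ a := rfl
    rw [h1, AlgHom.commutes, AlgHom.commutes, IsScalarTower.algebraMap_apply ℂ G.A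
      (MvPolynomial (Fin n × Fin c) G.A), AlgHom.commutes, ← IsScalarTower.algebraMap_apply]
  | add p q hp hq => rw [map_add, map_add, map_add, hp, hq]
  | mul_X p s hp =>
    rw [map_mul, map_mul, map_mul, hp]
    congr 1
    rcases s with p | i
    · rw [phi_inl]
      simp [Gen.ev]
    · rw [phi_inr]
      simp only [map_add, map_sum, map_mul, aeval_X, aeval_C, Gen.ev, Sum.elim_inr, Gen.l]
      rfl

theorem der (i : Fin n) (k : Fin c) (a : Gen.P n c) :
    pderiv (i, k) (phi G a) = phi G (pderiv (Sum.inl (i, k)) a) +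
      C (zA G k) * phi G (pderiv (Sum.inr i) a) := by
  induction a using MvPolynomial.induction_on with
  | C a =>
    have h1 : (C a : Gen.P n c) = algebraMap ℂ _ a := rfl
    have h2 : phi G (C a) = C (algebraMap ℂ G.A a) := by
      rw [h1, AlgHom.commutes]
      rfl
    rw [h2, pderiv_C, pderiv_C, pderiv_C, map_zero, mul_zero, add_zero]
  | add p q hp hq =>
    simp only [map_add, hp, hq]
    ring
  | mul_X p s hp =>
    have hX : pderiv (i, k) (phi G (X s)) = phi G (pderiv (Sum.inl (i, k)) (X s)) +
        C (zA G k) * phi G (pderiv (Sum.inr i) (X s)) := by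
      rcases s with q | j
      · rw [phi_inl]
        by_cases hq : q = (i, k)
        · subst hq
          rw [pderiv_X_self, pderiv_X_self, pderiv_X_of_ne (by simp), map_one, map_zero, mul_zero,
            add_zero]
        · rw [pderiv_X_of_ne hq, pderiv_X_of_ne (by simpa using hq), pderiv_X_of_ne (by simp),
            map_zero, mul_zero, add_zero]
      · rw [phi_inr, map_add, pderiv_C, zero_add, map_sum]
        rw [pderiv_X_of_ne (i := Sum.inl (i, k)) (by simp), map_zero, zero_add]
        by_cases hj : j = i
        · subst hj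
          rw [pderiv_X_self, map_one, mul_one, Finset.sum_eq_single k]
          · simp [Derivation.leibniz]
          · intro l _ hl
            simp [Derivation.leibniz, hl]
          · intro h
            exact absurd (Finset.mem_univ k) h
        · rw [pderiv_X_of_ne (by simpa using hj), map_zero, mul_zero]
          refine Finset.sum_eq_zero fun l _ => ?_
          simp [Derivation.leibniz, hj]
    rw [map_mul, pderiv_mul, pderiv_mul, pderiv_mul, hp, hX]
    simp only [map_add, map_mul]
    ring

end ChAux

open ChAux in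
theorem uCh : S_Ch := by
  intro n c m0 L _ _ G hG r hr i k
  have hinj : Function.Injective (aeval G.t : MvPolynomial (Fin n × Fin c) G.A →ₐ[G.A] L) :=
    hG.indt
  let w : Option (Fin c) → G.A := fun o => o.elim 1 (zA G)
  have hw : ∀ o, ((w o : G.A) : L) = zz G o := by
    intro o
    cases o with
    | none => rfl
    | some j => rfl
  have h1 : ∑ o, phi G (r o) * C (w o) = 0 := by
    apply hinj
    rw [map_zero, map_sum, ← hr]
    refine Finset.sum_congr rfl fun o _ => ?_
    rw [map_mul, comp, aeval_C, ← hw o]
    rfl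
  have h2 := congrArg (pderiv (i, k)) h1
  rw [map_sum, map_zero] at h2
  have h3 : ∑ o, (phi G (pderiv (Sum.inl (i, k)) (r o)) +
      C (zA G k) * phi G (pderiv (Sum.inr i) (r o))) * C (w o) = 0 := by
    rw [← h2]
    refine Finset.sum_congr rfl fun o _ => ?_
    rw [pderiv_mul, pderiv_C, mul_zero, add_zero, der]
  have h4 := congrArg (aeval G.t) h3
  rw [map_zero, map_sum] at h4
  rw [← h4, Finset.mul_sum, ← Finset.sum_add_distrib]
  refine Finset.sum_congr rfl fun o _ => ?_
  simp only [map_mul, map_add, comp, aeval_C, ← hw o]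
  have h5 : (algebraMap G.A L) (w o) = (w o : L) := rfl
  have h6 : (algebraMap G.A L) (zA G k) = G.z k := rfl
  rw [h5, h6]
  ring

end Pool.Agent.Lib.MP_776403_ag.SD.UK
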