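import Pool.Agent.Lib.MP_776403_ag.SD.UK.Spec

/-! MP_776403_ag, package UK, module Ct: the contradiction. -/

set_option autoImplicit false

open MvPolynomial

noncomputable section

namespace Pool.Agent.Lib.MP_776403_ag.SD.UK

private lemma ct_split {ι X R : Type} [Fintype ι] [DecidableEq ι] [Zero X] [CommRing R]
    (J : Finset ι) (j1 : ι) (hj1 : j1 ∉ J) (A : X) (B : ι → X) (f : X → R) (hf : f 0 = 0)
    (z : ι → R) :
    ∑ j, f (if j = j1 then A else if j ∈ J then B j else 0) * z j =
      f A * z j1 + ∑ j ∈ J, f (B j) * z j := by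
  have h1 : ∑ j ∈ insert j1 J, f (if j = j1 then A else if j ∈ J then B j else 0) * z j =
      ∑ j, f (if j = j1 then A else if j ∈ J then B j else 0) * z j := by
    refine Finset.sum_subset (Finset.subset_univ _) ?_
    intro j _ hj
    rw [Finset.mem_insert, not_or] at hj
    rw [if_neg hj.1, if_neg hj.2, hf, zero_mul]
  rw [← h1, Finset.sum_insert hj1, if_pos rfl]
  congr 1
  refine Finset.sum_congr rfl fun j hj => ?_
  have : j ≠ j1 := fun h => hj1 (h ▸ hj)
  rw [if_neg this, if_pos hj]

private lemma ct_d0 {n c : ℕ} (i : Fin n) (f : MvPolynomial (Fin n × Fin c) ℂ) :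
    pderiv (Sum.inr i) (rename Sum.inl f : Gen.P n c) = 0 := by
  induction f using MvPolynomial.induction_on with
  | C a => simp
  | add p q hp hq => rw [map_add, map_add, hp, hq, add_zero]
  | mul_X p a h =>
    rw [map_mul, rename_X, pderiv_mul, h, pderiv_X_of_ne (by simp)]
    simp

private lemma ct_d1 {n c : ℕ} (x : Fin n × Fin c) (f : MvPolynomial (Fin n × Fin c) ℂ) :
    pderiv (Sum.inl x) (rename Sum.inl f : Gen.P n c) = rename Sum.inl (pderiv x f) :=
  pderiv_rename Sum.inl_injective x f

theorem uCt : S_Alg → S_Kz → S_Ch → S_Du → S_Mi → S_Ct := by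
  intro hAlg hKz hCh hDu hMi n c m0 L _ _ G ok hKV J j1 hj1 hJne hli hmem
  classical
  obtain ⟨b0, a0, hb0, hω⟩ := hMi n c m0 L G ok hKV J j1 hj1 hli hmem
  have hinj : Function.Injective G.ev := (hAlg n c m0 L G ok).2
  have hevr : ∀ f : MvPolynomial (Fin n × Fin c) ℂ, G.ev (rename Sum.inl f) = aeval G.t f := by
    intro f
    unfold Gen.ev
    rw [aeval_rename]
    rfl
  have hevK : ∀ f : Gen.P n c, G.ev f ∈ G.K := by
    intro f
    refine (IntermediateField.mem_adjoin_range_iff ℂ _ _).2 ⟨f, 1, ?_⟩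
    rw [map_one, div_one]
    rfl
  set ω : L := aeval G.t b0 * G.z j1 + ∑ j ∈ J, aeval G.t (a0 j) * G.z j with hωdef
  obtain ⟨p, q, hpq, hq⟩ : ∃ p q : Gen.P n c, ω * G.ev q = G.ev p ∧ G.ev q ≠ 0 := by
    obtain ⟨p, q, h⟩ := (IntermediateField.mem_adjoin_range_iff ℂ _ _).1 hω
    by_cases hq : aeval (Sum.elim G.t G.l) q = 0
    · refine ⟨0, 1, ?_, ?_⟩
      · rw [h, hq, div_zero, zero_mul, map_zero]
      · rw [map_one]
        exact one_ne_zero
    · refine ⟨p, q, ?_, hq⟩
      rw [h]
      exact div_mul_cancel₀ _ hq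
  have hq0 : q ≠ 0 := by
    rintro rfl
    exact hq (map_zero _)
  obtain ⟨k, hk⟩ := hJne
  set b : Gen.P n c := rename Sum.inl b0 with hbdef
  set a : Fin c → Gen.P n c := fun j => rename Sum.inl (a0 j) with hadef
  set α0 : Fin n → MvPolynomial (Fin n × Fin c) ℂ :=
    fun i => b0 * pderiv (i, k) (a0 k) - a0 k * pderiv (i, k) b0 with hα0
  have heb : G.ev b = aeval G.t b0 := hevr b0
  have hea : ∀ j, G.ev (a j) = aeval G.t (a0 j) := fun j => hevr (a0 j)
  have hdb : ∀ i, pderiv (Sum.inr i) b = 0 := fun i => ct_d0 i b0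
  have hda : ∀ i j, pderiv (Sum.inr i) (a j) = 0 := fun i j => ct_d0 i (a0 j)
  -- the key identity
  have key : ∀ i : Fin n, b * (q * pderiv (Sum.inr i) p - p * pderiv (Sum.inr i) q) =
      q ^ 2 * rename Sum.inl (α0 i) := by
    intro i
    set r : Option (Fin c) → Gen.P n c := fun o => o.elim (-p)
      (fun j => if j = j1 then q * b else if j ∈ J then q * a j else 0) with hr
    have gen : ∀ f : Gen.P n c → L, f 0 = 0 → ∑ o, f (r o) * zz G o =
        f (-p) + (f (q * b) * G.z j1 + ∑ j ∈ J, f (q * a j) * G.z j) := by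
      intro f hf
      rw [Fintype.sum_option]
      have e := ct_split J j1 hj1 (q * b) (fun j => q * a j) f hf G.z
      rw [← e]
      have e1 : zz G none = 1 := rfl
      rw [e1, mul_one]
      rfl
    have hr0 : ∑ o, G.ev (r o) * zz G o = 0 := by
      rw [gen G.ev (map_zero _)]
      have e1 : ∑ j ∈ J, G.ev (q * a j) * G.z j =
          G.ev q * ∑ j ∈ J, aeval G.t (a0 j) * G.z j := by
        rw [Finset.mul_sum]
        refine Finset.sum_congr rfl fun j _ => ?_
        rw [map_mul, hea]
        ring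
      rw [e1, map_neg, map_mul, heb]
      rw [hωdef] at hpq
      linear_combination hpq
    have h := hCh n c m0 L G ok r hr0 i k
    rw [gen (fun x => G.ev (pderiv (Sum.inl (i, k)) x)) (by simp),
      gen (fun x => G.ev (pderiv (Sum.inr i) x)) (by simp)] at h
    set w : L := -G.ev (pderiv (Sum.inr i) p) + G.ev (pderiv (Sum.inr i) q) * ω with hw
    have e2 : G.ev (pderiv (Sum.inr i) (-p)) + (G.ev (pderiv (Sum.inr i) (q * b)) * G.z j1 +
        ∑ j ∈ J, G.ev (pderiv (Sum.inr i) (q * a j)) * G.z j) = w := by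
      have e1 : ∑ j ∈ J, G.ev (pderiv (Sum.inr i) (q * a j)) * G.z j =
          G.ev (pderiv (Sum.inr i) q) * ∑ j ∈ J, aeval G.t (a0 j) * G.z j := by
        rw [Finset.mul_sum]
        refine Finset.sum_congr rfl fun j _ => ?_
        rw [pderiv_mul, hda, mul_zero, add_zero, map_mul, hea]
        ring
      rw [e1, pderiv_mul, hdb, mul_zero, add_zero, map_mul, heb, map_neg, map_neg, hw, hωdef]
      ring
    rw [e2] at h
    have hwK : w ∈ G.K := by
      rw [hw]
      exact add_mem (neg_mem (hevK _)) (mul_mem (hevK _) hω)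
    -- coefficients
    set D : Gen.P n c → L := fun x => G.ev (pderiv (Sum.inl (i, k)) x) with hD
    have hDK : ∀ x, D x ∈ G.K := fun x => hevK _
    have hli' := Fintype.linearIndependent_iff.1 hli
    set g : Option J → G.K := fun o => o.elim
      ⟨G.ev b * D (-p) + D (q * b) * ω,
        add_mem (mul_mem (hevK _) (hDK _)) (mul_mem (hDK _) hω)⟩
      (fun j => ⟨G.ev b * D (q * a j) - D (q * b) * G.ev (a j) +
        (if (j : Fin c) = k then G.ev b * w else 0), by
          refine add_mem (sub_mem (mul_mem (hevK _) (hDK _)) (mul_mem (hDK _) (hevK _))) ?_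
          split_ifs
          · exact mul_mem (hevK _) hwK
          · exact zero_mem _⟩) with hg
    have hsum : ∑ o, g o • zz G (Option.map Subtype.val o) = 0 := by
      rw [Fintype.sum_option]
      have e3 : ∀ (x : L) (hx : x ∈ G.K) (y : L), (⟨x, hx⟩ : G.K) • y = x * y :=
        fun x hx y => rfl
      have e4 : ∑ j : J, g (some j) • zz G (Option.map Subtype.val (some j)) =
          ∑ j ∈ J, (G.ev b * D (q * a j) - D (q * b) * G.ev (a j) +
            (if j = k then G.ev b * w else 0)) * G.z j := by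
        rw [← Finset.sum_coe_sort J]
        rfl
      have e5 : g none • zz G (Option.map Subtype.val (none : Option J)) =
          G.ev b * D (-p) + D (q * b) * ω := by
        have e6 : zz G (Option.map Subtype.val (none : Option J)) = 1 := rfl
        rw [e6]
        have e7 : g none • (1 : L) = (G.ev b * D (-p) + D (q * b) * ω) * 1 := rfl
        rw [e7, mul_one]
      rw [e4, e5]
      have e8 : ∑ j ∈ J, (G.ev b * D (q * a j) - D (q * b) * G.ev (a j) +
            (if j = k then G.ev b * w else 0)) * G.z j =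
          G.ev b * (∑ j ∈ J, D (q * a j) * G.z j) - D (q * b) * (∑ j ∈ J, G.ev (a j) * G.z j) +
            G.ev b * w * G.z k := by
        simp only [add_mul, sub_mul, Finset.sum_add_distrib, Finset.sum_sub_distrib,
          Finset.mul_sum, mul_assoc, ite_mul, zero_mul, Finset.sum_ite_eq', hk, if_true]
      have e9 : ∑ j ∈ J, G.ev (a j) * G.z j = ω - G.ev b * G.z j1 := by
        rw [hωdef, heb]
        simp only [hea]
        ring
      rw [e8, e9]
      linear_combination G.ev b * h
    have hgk := hli' g hsum (some ⟨k, hk⟩)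
    have hgk' : G.ev b * D (q * a k) - D (q * b) * G.ev (a k) + G.ev b * w = 0 := by
      have e3 := congrArg (Subtype.val) hgk
      have e4 : (g (some ⟨k, hk⟩)).val = G.ev b * D (q * a k) - D (q * b) * G.ev (a k) +
        (if k = k then G.ev b * w else 0) := rfl
      rw [e4, if_pos rfl] at e3
      exact e3
    apply hinj
    have e10 : rename Sum.inl (α0 i) = b * pderiv (Sum.inl (i, k)) (a k) -
        a k * pderiv (Sum.inl (i, k)) b := by
      rw [hα0, hbdef, hadef]
      simp only [map_sub, map_mul, ct_d1]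
    rw [e10]
    have e11 : G.ev (pderiv (Sum.inl (i, k)) (q * a k)) =
        G.ev (pderiv (Sum.inl (i, k)) q) * G.ev (a k) +
          G.ev q * G.ev (pderiv (Sum.inl (i, k)) (a k)) := by
      rw [pderiv_mul, map_add, map_mul, map_mul]
    have e12 : G.ev (pderiv (Sum.inl (i, k)) (q * b)) =
        G.ev (pderiv (Sum.inl (i, k)) q) * G.ev b +
          G.ev q * G.ev (pderiv (Sum.inl (i, k)) b) := by
      rw [pderiv_mul, map_add, map_mul, map_mul]
    simp only [hD] at hgk'
    rw [e11, e12, hw] at hgk'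
    simp only [map_mul, map_sub, map_pow]
    linear_combination (-G.ev q) * hgk' +
      (G.ev b * G.ev (pderiv (Sum.inr i) q)) * hpq
  -- conclusion
  set lam : Gen.P n c := ∑ i, rename Sum.inl (α0 i) * X (Sum.inr i) with hlam
  have hdlam : ∀ i, pderiv (Sum.inr i) lam = rename Sum.inl (α0 i) := by
    intro i
    rw [hlam, map_sum]
    rw [Finset.sum_eq_single i]
    · rw [pderiv_mul, ct_d0, pderiv_X_self]
      ring
    · intro j _ hj
      rw [pderiv_mul, ct_d0, pderiv_X_of_ne (fun h => hj (Sum.inr_injective h))]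
      ring
    · intro h
      exact absurd (Finset.mem_univ _) h
  set p' : Gen.P n c := b * p - q * lam with hp'
  have hfin : ∀ i : Fin n, q * pderiv (Sum.inr i) p' = p' * pderiv (Sum.inr i) q := by
    intro i
    rw [hp', map_sub, pderiv_mul, pderiv_mul, hdb, hdlam]
    linear_combination key i
  obtain ⟨β, γ, hγ, hβγ⟩ := (hDu n c).2.2 p' q hq0 hfin
  have h2 : aeval G.t γ * (aeval G.t b0 * ω - ∑ i, aeval G.t (α0 i) * G.l i) =
      aeval G.t β := by
    have h3 := congrArg G.ev hβγ
    rw [map_mul, map_mul, hevr, hevr, hp', map_sub, map_mul, map_mul, heb, ← hpq] at h3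
    have h4 : G.ev lam = ∑ i, aeval G.t (α0 i) * G.l i := by
      rw [hlam, map_sum]
      refine Finset.sum_congr rfl fun i _ => ?_
      rw [map_mul, hevr]
      congr 1
      unfold Gen.ev
      rw [aeval_X]
      rfl
    rw [h4] at h3
    apply mul_right_cancel₀ hq
    linear_combination h3
  have h5 := (hKz n c m0 L G ok (Unit ⊕ (Fin n ⊕ Fin c))
    (Sum.elim (fun _ => 1) (Sum.elim G.y G.z)) (by
      rintro (u | (i | j))
      · exact one_mem _
      · exact Algebra.subset_adjoin (Or.inl ⟨i, rfl⟩)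
      · exact Algebra.subset_adjoin (Or.inr ⟨j, rfl⟩)) ok.lin).1
  set f : Unit ⊕ (Fin n ⊕ Fin c) → MvPolynomial (Fin n × Fin c) ℂ :=
    Sum.elim (fun _ => -β) (Sum.elim (fun i => -(γ * α0 i))
      (fun j => γ * ((if j = j1 then b0 * b0 else if j ∈ J then b0 * a0 j else 0) -
        ∑ i, α0 i * X (i, j)))) with hf
  have h6 : ∑ o ∈ Finset.univ, aeval G.t (f o) *
      (Sum.elim (fun _ => (1 : L)) (Sum.elim G.y G.z)) o = 0 := by
    rw [Fintype.sum_sum_type, Fintype.sum_sum_type]
    simp only [hf, Sum.elim_inl, Sum.elim_inr, Finset.univ_unique, Finset.sum_singleton, mul_one,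
      map_neg, map_mul, map_sub, map_sum, aeval_X]
    have e1 : ∑ j, aeval G.t γ * (aeval G.t (if j = j1 then b0 * b0 else if j ∈ J then b0 * a0 j
        else 0) - ∑ i, aeval G.t (α0 i) * G.t (i, j)) * G.z j =
        aeval G.t γ * (aeval G.t b0 * ω - ∑ i, aeval G.t (α0 i) * ∑ j, G.t (i, j) * G.z j) := by
      have e2 := ct_split J j1 hj1 (b0 * b0) (fun j => b0 * a0 j) (aeval G.t) (map_zero _) G.z
      have e3 : ∑ j, (∑ i, aeval G.t (α0 i) * G.t (i, j)) * G.z j =
          ∑ i, aeval G.t (α0 i) * ∑ j, G.t (i, j) * G.z j := by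
        simp only [Finset.sum_mul, Finset.mul_sum]
        rw [Finset.sum_comm]
        simp only [mul_assoc]
      rw [← e3]
      have e4 : aeval G.t b0 * ω = ∑ j, aeval G.t (if j = j1 then b0 * b0 else if j ∈ J then
          b0 * a0 j else 0) * G.z j := by
        rw [e2, hωdef, mul_add, Finset.mul_sum]
        simp only [map_mul, mul_assoc]
      rw [e4, ← Finset.sum_sub_distrib, Finset.mul_sum]
      refine Finset.sum_congr rfl fun j _ => ?_
      ring
    rw [e1]
    have e5 : ∑ i, aeval G.t (α0 i) * G.l i =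
        ∑ i, aeval G.t (α0 i) * G.y i + ∑ i, aeval G.t (α0 i) * ∑ j, G.t (i, j) * G.z j := by
      rw [← Finset.sum_add_distrib]
      refine Finset.sum_congr rfl fun i _ => ?_
      have : G.l i = G.y i + ∑ j, G.t (i, j) * G.z j := rfl
      rw [this]
      ring
    have e6 : ∑ i, -(aeval G.t γ * aeval G.t (α0 i)) * G.y i =
        -(aeval G.t γ * ∑ i, aeval G.t (α0 i) * G.y i) := by
      rw [Finset.mul_sum, ← Finset.sum_neg_distrib]
      refine Finset.sum_congr rfl fun i _ => ?_
      ring
    rw [e6]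
    rw [e5] at h2
    linear_combination h2
  have h7 := h5 Finset.univ f h6
  have h8 : ∀ i, α0 i = 0 := by
    intro i
    have e1 := h7 (Sum.inr (Sum.inl i)) (Finset.mem_univ _)
    have e2 : f (Sum.inr (Sum.inl i)) = -(γ * α0 i) := rfl
    rw [e2, neg_eq_zero, mul_eq_zero] at e1
    exact e1.resolve_left hγ
  have e1 := h7 (Sum.inr (Sum.inr j1)) (Finset.mem_univ _)
  have e2 : f (Sum.inr (Sum.inr j1)) = γ * ((if j1 = j1 then b0 * b0 else
      if j1 ∈ J then b0 * a0 j1 else 0) - ∑ i, α0 i * X (i, j1)) := rfl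
  rw [e2, if_pos rfl] at e1
  simp only [h8, zero_mul, Finset.sum_const_zero, sub_zero] at e1
  rcases mul_eq_zero.1 e1 with h | h
  · exact hγ h
  · rcases mul_eq_zero.1 h with h | h <;> exact hb0 h

end Pool.Agent.Lib.MP_776403_ag.SD.UK
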