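import Pool.Agent.Lib.MP_776403_ag.SD.UK.Spec

/-!
# Package UK, module Dom: tensor products of domains over `ℂ` (helper92)
-/

set_option autoImplicit false

open MvPolynomial

noncomputable section

namespace Pool.Agent.Lib.MP_776403_ag.SD.UK

namespace DomAux

open TensorProduct

variable {A B : Type} [CommRing A] [Algebra ℂ A] [CommRing B] [Algebra ℂ B]

/-- `a ⊗ b ↦ φ(a) b`. -/
def Phi (φ : A →ₐ[ℂ] ℂ) : A ⊗[ℂ] B →ₐ[ℂ] B :=
  Algebra.TensorProduct.productMap ((Algebra.ofId ℂ B).comp φ) (AlgHom.id ℂ B)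

theorem Phi_tmul (φ : A →ₐ[ℂ] ℂ) (a : A) (b : B) : Phi (B := B) φ (a ⊗ₜ[ℂ] b) = φ a • b := by
  rw [Phi, Algebra.TensorProduct.productMap_apply_tmul, Algebra.smul_def]
  rfl

theorem coord {ι : Type*} (β : Module.Basis ι ℂ B) (φ : A →ₐ[ℂ] ℂ) (p : A ⊗[ℂ] B) (k : ι) :
    β.repr (Phi φ p) k = φ ((Algebra.TensorProduct.basis A β).repr p k) := by
  induction p using TensorProduct.induction_on with
  | zero => simp
  | tmul a b =>
    rw [Phi_tmul, Algebra.TensorProduct.basis_repr_tmul, map_smul, Finsupp.smul_apply,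
      Finsupp.smul_apply, Finsupp.mapRange_apply, smul_eq_mul, smul_eq_mul, map_mul]
    congr 1
    exact (φ.commutes _).symm
  | add p q hp hq =>
    rw [map_add, map_add, Finsupp.add_apply, hp, hq, map_add, Finsupp.add_apply, map_add]

end DomAux

open DomAux in
theorem uDom : S_Pt → S_Dom := by
  intro hPt A B _ _ _ _ _ _ _
  let β := Module.Free.chooseBasis ℂ B
  have hnt : Nontrivial (TensorProduct ℂ A B) := by
    obtain ⟨φ, -⟩ := hPt A 1 one_ne_zero
    exact (Phi (B := B) φ).toRingHom.domain_nontrivial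
  have hnz : NoZeroDivisors (TensorProduct ℂ A B) := by
    refine ⟨?_⟩
    intro p q hpq
    by_contra hcon
    push Not at hcon
    obtain ⟨hp, hq⟩ := hcon
    have key : ∀ r : TensorProduct ℂ A B, r ≠ 0 →
        ∃ k, (Algebra.TensorProduct.basis A β).repr r k ≠ 0 := by
      intro r hr
      by_contra h0
      push Not at h0
      exact hr ((Algebra.TensorProduct.basis A β).repr.map_eq_zero_iff.1 (Finsupp.ext h0))
    obtain ⟨k, hk⟩ := key p hp
    obtain ⟨l, hl⟩ := key q hq
    obtain ⟨φ, hφ⟩ := hPt A _ (mul_ne_zero hk hl)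
    rw [map_mul] at hφ
    have h1 : Phi (B := B) φ p ≠ 0 := by
      intro h0
      apply left_ne_zero_of_mul hφ
      rw [← coord β φ p k, h0, map_zero, Finsupp.zero_apply]
    have h2 : Phi (B := B) φ q ≠ 0 := by
      intro h0
      apply right_ne_zero_of_mul hφ
      rw [← coord β φ q l, h0, map_zero, Finsupp.zero_apply]
    apply mul_ne_zero h1 h2
    rw [← map_mul, hpq, map_zero]
  exact NoZeroDivisors.to_isDomain _

end Pool.Agent.Lib.MP_776403_ag.SD.UK
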