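import Pool.Agent.Lib.MP_776403_ag.SD.UK.Spec

/-!
# Polynomials without derivatives in `U`
-/

set_option autoImplicit false

open MvPolynomial

noncomputable section

namespace Pool.Agent.Lib.MP_776403_ag.SD.UK

namespace DuAux

variable {n c : ℕ}

lemma lt_deg (b : Gen.P n c) (i : Fin n) (h : pderiv (Sum.inr i) b ≠ 0) :
    weightedTotalDegree (uw n c) (pderiv (Sum.inr i) b) < weightedTotalDegree (uw n c) b := by
  classical
  have hne : (pderiv (Sum.inr i) b).support.Nonempty := by
    rw [Finset.nonempty_iff_ne_empty]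
    intro h0
    exact h (support_eq_empty.1 h0)
  obtain ⟨m, hm, he⟩ := Finset.exists_mem_eq_sup _ hne (fun s => Finsupp.weight (uw n c) s)
  have hm' : coeff m (pderiv (Sum.inr i) b) ≠ 0 := mem_support_iff.1 hm
  rw [coeff_pderiv] at hm'
  have hb : coeff (m + Finsupp.single (Sum.inr i) 1) b ≠ 0 := left_ne_zero_of_mul hm'
  have hle := le_weightedTotalDegree (uw n c) (mem_support_iff.2 hb)
  have h1 : weightedTotalDegree (uw n c) (pderiv (Sum.inr i) b) = Finsupp.weight (uw n c) m := he
  have h2 : Finsupp.weight (uw n c) (m + Finsupp.single (Sum.inr i) 1)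
      = Finsupp.weight (uw n c) m + 1 := by
    rw [map_add, Finsupp.weight_single]
    simp [uw]
  rw [h1]
  omega

lemma no_deriv (b : Gen.P n c) (h : ∀ i : Fin n, pderiv (Sum.inr i) b = 0) :
    ∃ b' : MvPolynomial (Fin n × Fin c) ℂ, b = rename Sum.inl b' := by
  classical
  have hv : (↑b.vars : Set ((Fin n × Fin c) ⊕ Fin n)) ⊆ Set.range Sum.inl := by
    intro x hx
    rcases x with x | i
    · exact ⟨x, rfl⟩
    · exfalso
      obtain ⟨d, hd, hi⟩ := mem_vars_iff_mem_support _ |>.1 (Finset.mem_coe.1 hx)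
      have hdi : 1 ≤ d (Sum.inr i) := Nat.one_le_iff_ne_zero.2 (Finsupp.mem_support_iff.1 hi)
      have hle : Finsupp.single (Sum.inr i) 1 ≤ d := by
        rw [Finsupp.single_le_iff]
        exact hdi
      have he : d - Finsupp.single (Sum.inr i) 1 + Finsupp.single (Sum.inr i) 1 = d :=
        tsub_add_cancel_of_le hle
      have h0 := congrArg (coeff (d - Finsupp.single (Sum.inr i) 1)) (h i)
      rw [coeff_pderiv, he, coeff_zero] at h0
      have hc : coeff d b ≠ 0 := mem_support_iff.1 hd
      exact (mul_ne_zero hc (Nat.cast_add_one_ne_zero _)) h0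
  obtain ⟨b', hb'⟩ := exists_rename_eq_of_vars_subset_range b Sum.inl Sum.inl_injective hv
  exact ⟨b', hb'.symm⟩

lemma ratio (d : ℕ) : ∀ p q : Gen.P n c, weightedTotalDegree (uw n c) q = d → q ≠ 0 →
    (∀ i : Fin n, q * pderiv (Sum.inr i) p = p * pderiv (Sum.inr i) q) →
      ∃ β γ : MvPolynomial (Fin n × Fin c) ℂ,
        γ ≠ 0 ∧ rename Sum.inl γ * p = rename Sum.inl β * q := by
  induction d using Nat.strong_induction_on with
  | _ d ih =>
    intro p q hd hq h
    by_cases hz : ∃ i : Fin n, pderiv (Sum.inr i) q ≠ 0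
    · obtain ⟨i, hi⟩ := hz
      have hlt := lt_deg q i hi
      rw [hd] at hlt
      have e1 : q * pderiv (Sum.inr i) p = p * pderiv (Sum.inr i) q := h i
      obtain ⟨β, γ, hγ, e⟩ := ih _ hlt (pderiv (Sum.inr i) p) (pderiv (Sum.inr i) q) rfl hi (by
        intro j
        have e2 := congrArg (pderiv (Sum.inr j)) e1
        rw [pderiv_mul, pderiv_mul] at e2
        have e3 := h j
        have e4 : q * pderiv (Sum.inr j) (pderiv (Sum.inr i) p)
            = p * pderiv (Sum.inr j) (pderiv (Sum.inr i) q) := by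
          apply mul_left_cancel₀ hq
          linear_combination q * e2 - pderiv (Sum.inr j) q * e1 + pderiv (Sum.inr i) q * e3
        apply mul_left_cancel₀ hq
        linear_combination pderiv (Sum.inr i) q * e4
          - pderiv (Sum.inr j) (pderiv (Sum.inr i) q) * e1)
      refine ⟨β, γ, hγ, ?_⟩
      apply mul_left_cancel₀ hi
      linear_combination q * e - rename Sum.inl γ * e1
    · have hz' : ∀ i : Fin n, pderiv (Sum.inr i) q = 0 := fun i => by
        by_contra h'
        exact hz ⟨i, h'⟩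
      have hp' : ∀ i : Fin n, pderiv (Sum.inr i) p = 0 := fun i => by
        have h' := h i
        rw [hz' i, mul_zero] at h'
        exact (mul_eq_zero.1 h').resolve_left hq
      obtain ⟨γ, hγ⟩ := no_deriv q hz'
      obtain ⟨β, hβ⟩ := no_deriv p hp'
      refine ⟨β, γ, ?_, ?_⟩
      · rintro rfl
        exact hq (by rw [hγ, map_zero])
      · rw [← hγ, ← hβ, mul_comm]

end DuAux

theorem uDu : S_Du := fun _ _ =>
  ⟨fun b i h => DuAux.lt_deg b i h, fun b h => DuAux.no_deriv b h,
    fun p q hq h => DuAux.ratio _ p q rfl hq h⟩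

end Pool.Agent.Lib.MP_776403_ag.SD.UK
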