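import Pool.Agent.Lib.MP_776403_ag.SD.UK.Spec

/-!
# The Castelnuovo bound: an embedding moves some coordinate (S_Emj)
-/

set_option autoImplicit false

open MvPolynomial

noncomputable section

namespace Pool.Agent.Lib.MP_776403_ag.SD.UK

namespace EmjAux

variable {n c : ℕ} {L : Type} [Field L] [Algebra ℂ L]

/-- The elements fixed by `ψ`. -/
def fixF (ψ : L →ₐ[ℂ] AlgebraicClosure L) : IntermediateField ℂ L :=
  (AlgHom.equalizer ψ (IsScalarTower.toAlgHom ℂ L (AlgebraicClosure L))).toIntermediateField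
    (by
      intro x hx
      have h1 : ψ x = algebraMap L (AlgebraicClosure L) x := by
        have := (AlgHom.mem_equalizer _ _ _).1 hx
        simpa using this
      rw [AlgHom.mem_equalizer]
      have : ψ x⁻¹ = algebraMap L (AlgebraicClosure L) x⁻¹ := by
        rw [map_inv₀, map_inv₀, h1]
      simpa using this)

theorem mem_fixF (ψ : L →ₐ[ℂ] AlgebraicClosure L) (x : L) :
    x ∈ fixF ψ ↔ ψ x = algebraMap L (AlgebraicClosure L) x := by
  change x ∈ AlgHom.equalizer ψ (IsScalarTower.toAlgHom ℂ L (AlgebraicClosure L)) ↔ _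
  rw [AlgHom.mem_equalizer]
  rfl

theorem t_mem (G : Gen n c L) (p : Fin n × Fin c) : G.t p ∈ G.K :=
  IntermediateField.subset_adjoin _ _ ⟨Sum.inl p, rfl⟩

theorem l_mem (G : Gen n c L) (i : Fin n) : G.l i ∈ G.K :=
  IntermediateField.subset_adjoin _ _ ⟨Sum.inr i, rfl⟩

end EmjAux

open EmjAux in
theorem uEmj : S_Emj := by
  intro n c m0 L _ _ G hG ψ hψ
  by_contra hcon
  push Not at hcon
  apply hψ.ne
  have ht : ∀ p, ψ (G.t p) = algebraMap L (AlgebraicClosure L) (G.t p) := fun p =>
    hψ.fix _ (t_mem G p)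
  have hy : ∀ i, ψ (G.y i) = algebraMap L (AlgebraicClosure L) (G.y i) := by
    intro i
    have h := hψ.fix _ (l_mem G i)
    unfold Gen.l at h
    rw [map_add, map_add, map_sum, map_sum] at h
    have h2 : ∑ j, ψ (G.t (i, j) * G.z j) =
        ∑ j, algebraMap L (AlgebraicClosure L) (G.t (i, j) * G.z j) := by
      apply Finset.sum_congr rfl
      intro j _
      rw [map_mul, map_mul, ht, hcon]
    rw [h2] at h
    exact add_right_cancel h
  have htop : (⊤ : IntermediateField ℂ L) ≤ fixF ψ := by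
    rw [← hG.gen, IntermediateField.adjoin_le_iff]
    rintro x ((⟨i, rfl⟩ | ⟨j, rfl⟩) | ⟨p, rfl⟩)
    · exact (mem_fixF ψ _).2 (hy i)
    · exact (mem_fixF ψ _).2 (hcon j)
    · exact (mem_fixF ψ _).2 (ht p)
  apply AlgHom.ext
  intro x
  exact (mem_fixF ψ x).1 (htop (IntermediateField.mem_top))

end Pool.Agent.Lib.MP_776403_ag.SD.UK
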