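import Pool.Agent.Lib.MP_776403_ag.SD.UK.Spec2

/-!
# The Castelnuovo bound: the powers of `KV`
-/

set_option autoImplicit false

open MvPolynomial

noncomputable section

namespace Pool.Agent.Lib.MP_776403_ag.SD.UK

namespace ExhAux

variable {n c : ℕ} {L : Type} [Field L] [Algebra ℂ L] (G : Gen n c L)

theorem l_mem (i : Fin n) : G.l i ∈ G.K :=
  IntermediateField.subset_adjoin _ _ ⟨Sum.inr i, rfl⟩

theorem t_mem (p : Fin n × Fin c) : G.t p ∈ G.K :=
  IntermediateField.subset_adjoin _ _ ⟨Sum.inl p, rfl⟩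

theorem one_mem' : (1 : L) ∈ G.KV := Submodule.subset_span (Or.inl rfl)

theorem z_mem (j : Fin c) : G.z j ∈ G.KV := Submodule.subset_span (Or.inr ⟨j, rfl⟩)

theorem y_mem (i : Fin n) : G.y i ∈ G.KV := by
  have h : G.y i = (⟨G.l i, l_mem G i⟩ : G.K) • (1 : L) -
      ∑ j, (⟨G.t (i, j), t_mem G (i, j)⟩ : G.K) • G.z j := by
    have h1 : (⟨G.l i, l_mem G i⟩ : G.K) • (1 : L) = G.l i := by
      rw [Algebra.smul_def, mul_one]; rfl
    have h2 : ∀ j, (⟨G.t (i, j), t_mem G (i, j)⟩ : G.K) • G.z j = G.t (i, j) * G.z j := by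
      intro j
      rw [Algebra.smul_def]; rfl
    rw [h1, Finset.sum_congr rfl (fun j _ => h2 j)]
    unfold Gen.l
    ring
  rw [h]
  exact Submodule.sub_mem _ (Submodule.smul_mem _ _ (one_mem' G))
    (Submodule.sum_mem _ fun j _ => Submodule.smul_mem _ _ (z_mem G j))

theorem span_W : Submodule.span G.K G.W = G.KV := by
  apply le_antisymm
  · refine Submodule.span_le.mpr ?_
    rintro _ (rfl | ⟨i, rfl⟩ | ⟨j, rfl⟩)
    · exact one_mem' G
    · exact y_mem G i
    · exact z_mem G j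
  · refine Submodule.span_le.mpr ?_
    rintro _ (rfl | ⟨j, rfl⟩)
    · exact Submodule.subset_span (Or.inl rfl)
    · exact Submodule.subset_span (Or.inr (Or.inr ⟨j, rfl⟩))

theorem span_pow (j : ℕ) :
    Submodule.span G.K ((G.V ^ j : Submodule ℂ L) : Set L) = G.KV ^ j := by
  unfold Gen.V
  rw [Submodule.span_pow, Submodule.span_span_of_tower, ← Submodule.span_pow, span_W]

theorem one_V : (1 : L) ∈ G.V := Submodule.subset_span (Or.inl rfl)

theorem mono_V : Monotone fun j : ℕ => ((G.V ^ j : Submodule ℂ L) : Set L) := by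
  refine monotone_nat_of_le_succ ?_
  intro j x hx
  have h := Submodule.mul_mem_mul (M := G.V ^ j) (N := G.V) (m := x) (n := 1) hx (one_V G)
  rw [mul_one, ← pow_succ] at h
  exact h

theorem mono_KV : Monotone fun j : ℕ => G.KV ^ j := by
  refine monotone_nat_of_le_succ ?_
  intro j x hx
  have h := Submodule.mul_mem_mul (M := G.KV ^ j) (N := G.KV) (m := x) (n := 1) hx (one_mem' G)
  rw [mul_one, ← pow_succ] at h
  exact h

theorem exh (hgen : IntermediateField.adjoin ℂ (Set.range G.y ∪ Set.range G.z ∪ Set.range G.t) = ⊤)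
    (hf : FiniteDimensional G.K L) : ∃ J : ℕ, G.KV ^ J = ⊤ := by
  obtain ⟨J, hJ⟩ := (monotone_stabilizes_iff_noetherian (R := G.K) (M := L)).mpr inferInstance
    ⟨fun j : ℕ => G.KV ^ j, mono_KV G⟩
  have hJ' : ∀ m, J ≤ m → G.KV ^ J = G.KV ^ m := hJ
  refine ⟨J + 1, ?_⟩
  have h1 : (1 : L) ∈ G.KV ^ (J + 1) := by
    have h := mono_KV G (Nat.zero_le (J + 1))
    exact h (by simp)
  have h2 : ∀ x y : L, x ∈ G.KV ^ (J + 1) → y ∈ G.KV ^ (J + 1) → x * y ∈ G.KV ^ (J + 1) := by
    intro x y hx hy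
    have h := Submodule.mul_mem_mul hx hy
    rw [← pow_add, ← hJ' _ (by omega), hJ' (J + 1) (by omega)] at h
    exact h
  have hK : G.KV ≤ G.KV ^ (J + 1) := by
    have h := mono_KV G (show 1 ≤ J + 1 by omega)
    simpa using h
  let B : Subalgebra G.K L := (G.KV ^ (J + 1)).toSubalgebra h1 h2
  have hB : ∀ x : L, x ∈ B ↔ x ∈ G.KV ^ (J + 1) := fun x => Iff.rfl
  have halg : Algebra.IsAlgebraic G.K L := inferInstance
  have hinv : ∀ x ∈ B, x⁻¹ ∈ B := by
    intro x hx
    by_cases h0 : x = 0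
    · rw [h0, inv_zero]; exact B.zero_mem
    · have hfld : IsField B := Subalgebra.isField_of_algebraic B
      obtain ⟨w, hw⟩ := hfld.mul_inv_cancel (a := ⟨x, hx⟩) (fun h => h0 (congrArg Subtype.val h))
      have hw' : x * (w : L) = 1 := congrArg Subtype.val hw
      have : x⁻¹ = (w : L) := inv_eq_of_mul_eq_one_right hw'
      rw [this]
      exact w.2
  let E : IntermediateField G.K L := { B with inv_mem' := hinv }
  have hE : ∀ x : L, x ∈ E ↔ x ∈ G.KV ^ (J + 1) := fun x => Iff.rfl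
  have h3 : IntermediateField.adjoin ℂ (Set.range G.y ∪ Set.range G.z ∪ Set.range G.t) ≤
      E.restrictScalars ℂ := by
    rw [IntermediateField.adjoin_le_iff]
    rintro _ ((⟨i, rfl⟩ | ⟨j, rfl⟩) | ⟨p, rfl⟩)
    · exact hK (y_mem G i)
    · exact hK (z_mem G j)
    · have h4 : algebraMap G.K L ⟨G.t p, t_mem G p⟩ ∈ E := E.algebraMap_mem _
      exact h4
  rw [hgen] at h3
  rw [eq_top_iff]
  intro x _
  exact (hE x).mp (h3 (IntermediateField.mem_top))

end ExhAux

open ExhAux in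
theorem uExh : S_Alg → S_Exh := by
  intro hA n c m0 L _ _ G hG
  exact ⟨span_pow G, mono_V G, one_mem' G, exh G hG.gen (hA n c m0 L G hG).1⟩

end Pool.Agent.Lib.MP_776403_ag.SD.UK
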