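import Pool.Agent.Lib.MP_776403_ag.SD.UK.Spec

/-!
# Noether normalization by the generic forms
-/

set_option autoImplicit false

open MvPolynomial
open scoped Pointwise

noncomputable section

namespace Pool.Agent.Lib.MP_776403_ag.SD.UK

namespace FinAux

/-- Cramer's rule for vectors with entries in an extension. -/
private theorem cramer {k L ι : Type} [Field k] [Field L] [Algebra k L] [Fintype ι] [DecidableEq ι]
    (N : Matrix ι ι k) (hN : N.det ≠ 0) (b b' : ι → L) (hb : ∀ s, b' s = ∑ u, N s u • b u)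
    (S : Submodule k L) (hS : ∀ s, b' s ∈ S) (s : ι) : b s ∈ S := by
  have h1 : ∑ u, N.adjugate s u • b' u = N.det • b s := by
    have h2 : ∑ u, N.adjugate s u • b' u = ∑ v, (N.adjugate * N) s v • b v := by
      simp only [hb, Finset.smul_sum, smul_smul, Matrix.mul_apply, Finset.sum_smul]
      exact Finset.sum_comm
    rw [h2, Matrix.adjugate_mul]
    rw [Finset.sum_eq_single s]
    · simp [Matrix.smul_apply]
    · intro v _ hv
      rw [Matrix.smul_apply, Matrix.one_apply_ne (Ne.symm hv), smul_zero, zero_smul]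
    · intro h
      exact absurd (Finset.mem_univ s) h
  have h3 : N.det • b s ∈ S := by
    rw [← h1]
    exact S.sum_mem fun u _ => S.smul_mem _ (hS u)
  exact (S.smul_mem_iff hN).1 h3

/-- The determinant of `1 + ∑ t_p C_p` is not zero. -/
private theorem det_ne {σ ι k : Type} [Fintype σ] [Fintype ι] [DecidableEq ι] [Field k] [Algebra ℂ k]
    (t : σ → k) (ht : AlgebraicIndependent ℂ t) (C : σ → ι → ι → ℂ) :
    (Matrix.of fun s u : ι => (if s = u then (1 : k) else 0) +
      ∑ p, t p * algebraMap ℂ k (C p s u)).det ≠ 0 := by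
  set P : Matrix ι ι (MvPolynomial σ ℂ) := Matrix.of fun s u : ι =>
    (if s = u then (1 : MvPolynomial σ ℂ) else 0) + ∑ p, X p * MvPolynomial.C (C p s u) with hP
  have h1 : (Matrix.of fun s u : ι => (if s = u then (1 : k) else 0) +
      ∑ p, t p * algebraMap ℂ k (C p s u)) = (aeval t : MvPolynomial σ ℂ →ₐ[ℂ] k).mapMatrix P := by
    ext s u
    by_cases h : s = u
    · simp [hP, h]
    · simp [hP, h]
  intro h0
  rw [h1, ← AlgHom.map_det] at h0
  have h2 : P.det = 0 := (algebraicIndependent_iff.1 ht) _ h0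
  have h3 : (constantCoeff : MvPolynomial σ ℂ →+* ℂ).mapMatrix P = 1 := by
    ext s u
    by_cases h : s = u
    · subst h; simp [hP]
    · simp [hP, h, Matrix.one_apply_ne h]
  have h4 : (constantCoeff : MvPolynomial σ ℂ →+* ℂ) P.det = 1 := by
    rw [RingHom.map_det, h3, Matrix.det_one]
  rw [h2, map_zero] at h4
  exact zero_ne_one h4

/-- Elements of `Y * V'`. -/
private theorem decomp {L : Type} [Field L] [Algebra ℂ L] {n : ℕ} (y : Fin n → L)
    (V' : Submodule ℂ L) (x : L)
    (hx : x ∈ Submodule.span ℂ (insert 1 (Set.range y)) * V') :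
    ∃ (w0 : L) (w : Fin n → L), w0 ∈ V' ∧ (∀ i, w i ∈ V') ∧ x = w0 + ∑ i, y i * w i := by
  classical
  refine Submodule.mul_induction_on hx ?_ ?_
  · intro m hm v hv
    refine Submodule.span_induction
      (p := fun a _ => ∃ (w0 : L) (w : Fin n → L), w0 ∈ V' ∧ (∀ i, w i ∈ V') ∧
        a * v = w0 + ∑ i, y i * w i) ?_ ?_ ?_ ?_ hm
    · intro a ha
      rcases ha with rfl | ⟨i, rfl⟩
      · exact ⟨v, 0, hv, fun _ => V'.zero_mem, by simp⟩
      · refine ⟨0, Pi.single i v, V'.zero_mem, ?_, ?_⟩
        · intro j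
          by_cases h : j = i
          · subst h; rw [Pi.single_eq_same]; exact hv
          · rw [Pi.single_eq_of_ne h]; exact V'.zero_mem
        · rw [zero_add, Finset.sum_eq_single i]
          · rw [Pi.single_eq_same]
          · intro j _ hj
            rw [Pi.single_eq_of_ne hj, mul_zero]
          · intro h
            exact absurd (Finset.mem_univ i) h
    · exact ⟨0, 0, V'.zero_mem, fun _ => V'.zero_mem, by simp⟩
    · rintro a b _ _ ⟨w0, w, h0, h1, h2⟩ ⟨w0', w', h0', h1', h2'⟩
      refine ⟨w0 + w0', w + w', V'.add_mem h0 h0', fun i => V'.add_mem (h1 i) (h1' i), ?_⟩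
      rw [add_mul, h2, h2']
      simp only [Pi.add_apply, mul_add, Finset.sum_add_distrib]
      ring
    · rintro r a _ ⟨w0, w, h0, h1, h2⟩
      refine ⟨r • w0, r • w, V'.smul_mem _ h0, fun i => V'.smul_mem _ (h1 i), ?_⟩
      rw [smul_mul_assoc, h2, smul_add, Finset.smul_sum]
      simp only [Pi.smul_apply, mul_smul_comm]
  · rintro a b ⟨w0, w, h0, h1, h2⟩ ⟨w0', w', h0', h1', h2'⟩
    refine ⟨w0 + w0', w + w', V'.add_mem h0 h0', fun i => V'.add_mem (h1 i) (h1' i), ?_⟩
    rw [h2, h2']
    simp only [Pi.add_apply, mul_add, Finset.sum_add_distrib]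
    ring

variable {n c : ℕ} {L : Type} [Field L] [Algebra ℂ L] (G : Gen n c L)

private theorem finPow {M : Type} [Monoid M] {s : Set M} (hs : s.Finite) (m : ℕ) :
    (s ^ m).Finite := by
  induction m with
  | zero => rw [pow_zero]; exact Set.finite_one
  | succ m ih => rw [pow_succ]; exact ih.mul hs

omit [Algebra ℂ L] in
private theorem finW : G.W.Finite := by
  unfold Gen.W
  exact ((Set.finite_range _).union (Set.finite_range _)).insert _

private theorem powV (m : ℕ) : G.V ^ m = Submodule.span ℂ (G.W ^ m) := by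
  unfold Gen.V
  exact Submodule.span_pow _ _

private theorem powV0 (m : ℕ) : G.V0 ^ m = Submodule.span G.K0 (G.W ^ m) := by
  unfold Gen.V0
  exact Submodule.span_pow _ _

private theorem sub (m : ℕ) {x : L} (hx : x ∈ G.V ^ m) : x ∈ G.V0 ^ m := by
  rw [powV] at hx
  rw [powV0]
  exact Submodule.span_subset_span ℂ G.K0 (G.W ^ m) hx

/-- `t` with values in `K0`. -/
private def t' (p : Fin n × Fin c) : G.K0 :=
  ⟨G.t p, IntermediateField.subset_adjoin ℂ _ ⟨p, rfl⟩⟩

private theorem indt' {m0 : ℕ} (h : G.Ok m0) : AlgebraicIndependent ℂ (t' G) := by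
  have h1 : AlgebraicIndependent ℂ G.t :=
    AlgebraicIndependent.restrictScalars (K := G.A) (algebraMap ℂ G.A).injective h.indt
  refine AlgebraicIndependent.of_comp (G.K0.val) ?_
  exact h1

end FinAux

open FinAux in
/-- Noether normalization by the generic forms. -/
theorem uFin : S_Kz → S_Fin := by
  intro _ n c m0 L _ _ G hG
  classical
  obtain ⟨m, rfl⟩ : ∃ m, m0 = m + 1 := ⟨m0 - 1, by have := hG.pos; omega⟩
  have hnoe := hG.noe
  rw [Nat.add_sub_cancel] at hnoe ⊢
  have hfin : (G.W ^ (m + 1)).Finite := finPow (finW G) (m + 1)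
  let _ : Fintype ↥(G.W ^ (m + 1)) := hfin.fintype
  have hbV : ∀ s : ↥(G.W ^ (m + 1)), (s : L) ∈ G.V ^ (m + 1) := by
    intro s
    rw [powV]
    exact Submodule.subset_span s.2
  have hdec : ∀ s : ↥(G.W ^ (m + 1)), ∃ (w0 : L) (w : Fin n → L), w0 ∈ G.V ^ m ∧
      (∀ i, w i ∈ G.V ^ m) ∧ (s : L) = w0 + ∑ i, G.y i * w i := by
    intro s
    exact decomp G.y (G.V ^ m) s (hnoe (hbV s))
  choose w0 w hw0 hw hsum using hdec
  have hz : ∀ (s : ↥(G.W ^ (m + 1))) (p : Fin n × Fin c), ∃ C : ↥(G.W ^ (m + 1)) → ℂ,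
      ∑ u, C u • (u : L) = G.z p.2 * w s p.1 := by
    intro s p
    have h1 : G.z p.2 * w s p.1 ∈ G.V ^ (m + 1) := by
      rw [pow_succ']
      refine Submodule.mul_mem_mul ?_ (hw s p.1)
      exact Submodule.subset_span (Set.mem_insert_of_mem _ (Or.inr ⟨p.2, rfl⟩))
    rw [powV] at h1
    have h2 : G.W ^ (m + 1) = Set.range (fun u : ↥(G.W ^ (m + 1)) => (u : L)) := by
      rw [Subtype.range_coe]
    rw [h2] at h1
    exact (Submodule.mem_span_range_iff_exists_fun ℂ).1 h1
  choose C hC using hz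
  have hdet := det_ne (t' G) (indt' G hG) (fun p s u => C s p u)
  have hV0 : ∀ s : ↥(G.W ^ (m + 1)), (s : L) ∈ G.Y0 * G.V0 ^ m := by
    refine cramer _ hdet (fun u => (u : L)) (fun s => w0 s + ∑ i, G.l i * w s i) ?_
      (G.Y0 * G.V0 ^ m) ?_
    · intro s
      have h1 : ∀ i, G.l i * w s i = G.y i * w s i + ∑ j, G.t (i, j) * (G.z j * w s i) := by
        intro i
        rw [Gen.l, add_mul, Finset.sum_mul]
        congr 1
        refine Finset.sum_congr rfl fun j _ => ?_
        ring
      have h2 : w0 s + ∑ i, G.l i * w s i =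
          (s : L) + ∑ p : Fin n × Fin c, G.t p * (G.z p.2 * w s p.1) := by
        simp only [h1]
        rw [Finset.sum_add_distrib, ← add_assoc, ← hsum s, Fintype.sum_prod_type]
      have h3 : ∀ u : ↥(G.W ^ (m + 1)),
          ((Matrix.of fun s u : ↥(G.W ^ (m + 1)) => (if s = u then (1 : G.K0) else 0) +
            ∑ p, t' G p * algebraMap ℂ G.K0 (C s p u)) s u) • (u : L) =
          (if s = u then (u : L) else 0) + ∑ p, G.t p * (C s p u • (u : L)) := by
        intro u
        rw [Matrix.of_apply, add_smul, Finset.sum_smul]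
        congr 1
        · by_cases h : s = u
          · rw [if_pos h, if_pos h, one_smul]
          · rw [if_neg h, if_neg h, zero_smul]
        · refine Finset.sum_congr rfl fun p _ => ?_
          rw [mul_smul, algebraMap_smul]
          rfl
      rw [h2]
      simp only [h3]
      rw [Finset.sum_add_distrib, Finset.sum_ite_eq Finset.univ s (fun u => (u : L)),
        if_pos (Finset.mem_univ s), Finset.sum_comm]
      congr 1
      refine Finset.sum_congr rfl fun p _ => ?_
      rw [← Finset.mul_sum, hC s p]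
    · intro s
      have h1Y : (1 : L) ∈ G.Y0 := Submodule.subset_span (Set.mem_insert _ _)
      have hlY : ∀ i, G.l i ∈ G.Y0 := fun i =>
        Submodule.subset_span (Set.mem_insert_of_mem _ ⟨i, rfl⟩)
      refine Submodule.add_mem _ ?_ (Submodule.sum_mem _ fun i _ => ?_)
      · have := Submodule.mul_mem_mul h1Y (sub G m (hw0 s))
        rwa [one_mul] at this
      · exact Submodule.mul_mem_mul (hlY i) (sub G m (hw s i))
  rw [powV0]
  exact Submodule.span_le.2 fun x hx => hV0 ⟨x, hx⟩

end Pool.Agent.Lib.MP_776403_ag.SD.UK
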