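import Pool.Agent.Lib.MP_776403_ag.SD.UK.Spec

/-!
# Dimension over the field of parameters

`S_Fk`: the powers of the span of the coordinates have the same dimension over the field generated by the
parameters as over the complex numbers.
-/

set_option autoImplicit false

open MvPolynomial
open scoped Pointwise

noncomputable section

namespace Pool.Agent.Lib.MP_776403_ag.SD.UK

namespace FkAux

variable {n c : ℕ} {L : Type} [Field L] [Algebra ℂ L] (G : Gen n c L)

omit [Algebra ℂ L] in
lemma W_finite : G.W.Finite :=
  ((Set.finite_range G.y).union (Set.finite_range G.z)).insert 1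

lemma V_le : G.V ≤ Subalgebra.toSubmodule G.A := by
  refine Submodule.span_le.2 ?_
  intro w hw
  rcases hw with hw | hw
  · rw [hw]; exact G.A.one_mem
  · exact Algebra.subset_adjoin hw

lemma Vpow_le (m : ℕ) : G.V ^ m ≤ Subalgebra.toSubmodule G.A := by
  induction m with
  | zero =>
    rw [pow_zero]
    exact Submodule.one_le.2 G.A.one_mem
  | succ k ih =>
    rw [pow_succ]
    exact Submodule.mul_le.2 fun a ha b hb => G.A.mul_mem (ih ha) (V_le G hb)

lemma V_fg : G.V.FG := Submodule.fg_span (W_finite G)

end FkAux

open FkAux in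
theorem uFk : S_Kz → S_Fk := by
  intro hKz n c m0 L _ _ G hG m
  have hfg : (G.V ^ m).FG := (V_fg G).pow m
  have : Module.Finite ℂ (G.V ^ m : Submodule ℂ L) := Module.Finite.iff_fg.2 hfg
  let b := Module.finBasis ℂ (G.V ^ m : Submodule ℂ L)
  let x : Fin (Module.finrank ℂ (G.V ^ m : Submodule ℂ L)) → L := fun i => (b i : L)
  have hxA : ∀ i, x i ∈ G.A := fun i => Vpow_le G m (b i).2
  have hxli : LinearIndependent ℂ x :=
    b.linearIndependent.map' (Submodule.subtype _) (Submodule.ker_subtype _)
  have hK := (hKz n c m0 L G hG _ x hxA hxli).2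
  have hsp : Submodule.span ℂ (Set.range x) = G.V ^ m := by
    have h1 : Set.range x = (Submodule.subtype (G.V ^ m)) '' (Set.range b) := by
      rw [← Set.range_comp]; rfl
    rw [h1, ← Submodule.map_span, b.span_eq, Submodule.map_top, Submodule.range_subtype]
  have hVm : G.V ^ m = Submodule.span ℂ (G.W ^ m) := by
    unfold Gen.V; rw [Submodule.span_pow]
  have hV0m : G.V0 ^ m = Submodule.span G.K0 (G.W ^ m) := by
    unfold Gen.V0; rw [Submodule.span_pow]
  have hspK : G.V0 ^ m = Submodule.span G.K0 (Set.range x) := by
    rw [hV0m]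
    apply le_antisymm
    · refine Submodule.span_le.2 ?_
      intro w hw
      have h1 : w ∈ Submodule.span ℂ (Set.range x) := by
        rw [hsp, hVm]; exact Submodule.subset_span hw
      exact Submodule.span_subset_span ℂ G.K0 _ h1
    · refine Submodule.span_le.2 ?_
      rintro w ⟨i, rfl⟩
      have h1 : x i ∈ Submodule.span ℂ (G.W ^ m) := by
        rw [← hVm]; exact (b i).2
      exact Submodule.span_subset_span ℂ G.K0 _ h1
  refine ⟨?_, ?_⟩
  · rw [hspK, finrank_span_eq_card hK, Fintype.card_fin]
  · rw [hspK]
    exact FiniteDimensional.span_of_finite G.K0 (Set.finite_range x)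

end Pool.Agent.Lib.MP_776403_ag.SD.UK
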