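import Pool.Agent.Lib.MP_776403_ag.SD.UK.Spec2

/-!
# The Castelnuovo bound: the field of degree `0` fractions (`S_G1`)
-/

set_option autoImplicit false

open MvPolynomial

noncomputable section

namespace Pool.Agent.Lib.MP_776403_ag.SD.UK

namespace G1Aux

variable {N : ℕ} (I : Ideal (Sx N))

/-- The fraction field of `S / I`. -/
abbrev Q : Type := FractionRing (Sx N ⧸ I)

/-- The map `S / I → Q`. -/
def psi : (Sx N ⧸ I) →ₐ[ℂ] Q I := IsScalarTower.toAlgHom ℂ (Sx N ⧸ I) (Q I)

/-- The map `S → Q`. -/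
def phi : Sx N →ₐ[ℂ] Q I := (psi I).comp (Ideal.Quotient.mkₐ ℂ I)

/-- The image of the forms of degree `m`. -/
def Rm (m : ℕ) : Submodule ℂ (Q I) :=
  (homogeneousSubmodule (Fin (N + 1)) ℂ m).map (phi I).toLinearMap

theorem psi_inj [I.IsPrime] : Function.Injective (psi I) :=
  IsFractionRing.injective (Sx N ⧸ I) (Q I)

theorem phi_apply (F : Sx N) : phi I F = psi I (Ideal.Quotient.mk I F) := rfl

theorem phi_eq_zero {F : Sx N} (h : F ∈ I) : phi I F = 0 := by
  rw [phi_apply, Ideal.Quotient.eq_zero_iff_mem.2 h, map_zero]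

theorem Rm_pow (m : ℕ) : Rm I 1 ^ m = Rm I m := by
  unfold Rm
  rw [← Submodule.map_pow, homogeneousSubmodule_one_pow]

theorem finrank_Rm [I.IsPrime] (m : ℕ) :
    Module.finrank ℂ (Rm I m) = Module.finrank ℂ (gr I m) := by
  have h : Rm I m = (gr I m).map (psi I).toLinearMap := by
    unfold Rm gr phi
    rw [← Submodule.map_comp]
    rfl
  rw [h]
  exact (LinearEquiv.finrank_eq (Submodule.equivMapOfInjective (psi I).toLinearMap
    (psi_inj I) (gr I m))).symm

theorem finrank_mul {K : Type} [Field K] [Algebra ℂ K] (a : K) (ha : a ≠ 0) (M : Submodule ℂ K) :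
    Module.finrank ℂ (Submodule.span ℂ {a} * M : Submodule ℂ K) = Module.finrank ℂ M := by
  have h : (Submodule.span ℂ {a} * M : Submodule ℂ K) = M.map (LinearMap.mulLeft ℂ a) := by
    ext z
    rw [Submodule.mem_span_singleton_mul, Submodule.mem_map]
    rfl
  rw [h]
  exact (LinearEquiv.finrank_eq (Submodule.equivMapOfInjective (LinearMap.mulLeft ℂ a)
    (mul_right_injective₀ ha) M)).symm

theorem span_single_pow {K : Type} [Field K] [Algebra ℂ K] (a : K) (m : ℕ) :
    (Submodule.span ℂ {a} : Submodule ℂ K) ^ m = Submodule.span ℂ {a ^ m} := by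
  rw [Submodule.span_pow, Set.singleton_pow]

end G1Aux

open G1Aux

theorem uG1 : S_GA → S_GB → S_G1 := by
  intro hGA hGB N I hp hI hl
  obtain ⟨n, c, m0, w, u, hnc, hm0, hw, hu, hwi, hlin, hspan, hnoe⟩ := hGA N I hp hI hl
  have hinj := psi_inj I
  set x : Fin (n + 1) → Q I := fun i => phi I (w i) with hx
  set v : Fin c → Q I := fun j => phi I (u j) with hv
  have hxi : AlgebraicIndependent ℂ x := hwi.map' (f := psi I) hinj
  have hx0 : x 0 ≠ 0 := hxi.ne_zero 0
  set a : Q I := (x 0)⁻¹ with ha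
  have ha0 : a ≠ 0 := inv_ne_zero hx0
  set y : Fin n → Q I := fun i => x i.succ / x 0 with hy
  set z : Fin c → Q I := fun j => v j / x 0 with hz
  have hya : ∀ i, y i = a * x i.succ := fun i => by
    simp only [hy, ha]; rw [div_eq_inv_mul]
  have hza : ∀ j, z j = a * v j := fun j => by
    simp only [hz, ha]; rw [div_eq_inv_mul]
  have h1a : (1 : Q I) = a * x 0 := (inv_mul_cancel₀ hx0).symm
  have hyi : AlgebraicIndependent ℂ y := hGB n (Q I) x hxi
  -- the linear spaces in `Q`
  set V : Submodule ℂ (Q I) := Submodule.span ℂ (insert 1 (Set.range y ∪ Set.range z)) with hV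
  set Y : Submodule ℂ (Q I) := Submodule.span ℂ (insert 1 (Set.range y)) with hY
  set X : Submodule ℂ (Q I) := Submodule.span ℂ (Set.range x) with hX
  have hYX : Y = Submodule.span ℂ {a} * X := by
    rw [hY, hX, Submodule.span_mul_span]
    congr 1
    rw [Set.singleton_mul]
    ext q
    simp only [Set.mem_insert_iff, Set.mem_range, Set.mem_image, exists_exists_eq_and]
    constructor
    · rintro (rfl | ⟨i, rfl⟩)
      · exact ⟨0, h1a.symm⟩
      · exact ⟨i.succ, (hya i).symm⟩
    · rintro ⟨i, rfl⟩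
      rcases Fin.eq_zero_or_eq_succ i with rfl | ⟨i, rfl⟩
      · exact Or.inl h1a.symm
      · exact Or.inr ⟨i, hya i⟩
  have hR1 : Rm I 1 = Submodule.span ℂ (Set.range x ∪ Set.range v) := by
    apply le_antisymm
    · rintro q ⟨F, hF, rfl⟩
      have h1 := hspan F ((mem_homogeneousSubmodule 1 F).1 hF)
      have h2 := Submodule.mem_map_of_mem (f := (phi I).toLinearMap) h1
      rw [Submodule.map_span] at h2
      refine Submodule.span_mono ?_ h2
      rintro _ ⟨_, ⟨o, rfl⟩, rfl⟩
      rcases o with i | j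
      · exact Or.inl ⟨i, rfl⟩
      · exact Or.inr ⟨j, rfl⟩
    · rw [Submodule.span_le]
      rintro _ (⟨i, rfl⟩ | ⟨j, rfl⟩)
      · exact ⟨w i, (mem_homogeneousSubmodule 1 _).2 (hw i), rfl⟩
      · exact ⟨u j, (mem_homogeneousSubmodule 1 _).2 (hu j), rfl⟩
  have hVR : V = Submodule.span ℂ {a} * Rm I 1 := by
    rw [hV, hR1, Submodule.span_mul_span]
    congr 1
    rw [Set.singleton_mul, Set.image_union]
    ext q
    simp only [Set.mem_insert_iff, Set.mem_range, Set.mem_image, exists_exists_eq_and,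
      Set.mem_union]
    constructor
    · rintro (rfl | ⟨i, rfl⟩ | ⟨j, rfl⟩)
      · exact Or.inl ⟨0, h1a.symm⟩
      · exact Or.inl ⟨i.succ, (hya i).symm⟩
      · exact Or.inr ⟨j, (hza j).symm⟩
    · rintro (⟨i, rfl⟩ | ⟨j, rfl⟩)
      · rcases Fin.eq_zero_or_eq_succ i with rfl | ⟨i, rfl⟩
        · exact Or.inl h1a.symm
        · exact Or.inr (Or.inl ⟨i, hya i⟩)
      · exact Or.inr (Or.inr ⟨j, hza j⟩)
  have hVm : ∀ m : ℕ, V ^ m = Submodule.span ℂ {a ^ m} * Rm I m := fun m => by
    rw [hVR, mul_pow, span_single_pow, Rm_pow]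
  have hRX : Rm I m0 ≤ X * Rm I (m0 - 1) := by
    rintro q ⟨F, hF, rfl⟩
    obtain ⟨A, hA, hFA⟩ := hnoe F ((mem_homogeneousSubmodule m0 F).1 hF)
    have h1 : phi I F = ∑ i, x i * phi I (A i) := by
      have h2 := phi_eq_zero I hFA
      rw [map_sub, map_sum, sub_eq_zero] at h2
      rw [h2]
      exact Finset.sum_congr rfl fun i _ => map_mul _ _ _
    have h3 : (phi I).toLinearMap F = ∑ i, x i * phi I (A i) := h1
    rw [h3]
    exact Submodule.sum_mem _ fun i _ => Submodule.mul_mem_mul
      (Submodule.subset_span ⟨i, rfl⟩) ⟨A i, (mem_homogeneousSubmodule _ _).2 (hA i), rfl⟩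
  have hnoeQ : V ^ m0 ≤ Y * V ^ (m0 - 1) := by
    obtain ⟨k, rfl⟩ : ∃ k, m0 = k + 1 := ⟨m0 - 1, by omega⟩
    rw [Nat.add_sub_cancel] at hRX ⊢
    rw [hVm, hVm, hYX]
    have e : (Submodule.span ℂ {a} * X) * (Submodule.span ℂ {a ^ k} * Rm I k) =
        Submodule.span ℂ {a ^ (k + 1)} * (X * Rm I k) := by
      rw [← span_single_pow, ← span_single_pow]
      ring
    rw [e]
    exact mul_le_mul_right hRX _
  -- linear independence
  have hlinQ : LinearIndependent ℂ (Sum.elim (fun _ : Unit => (1 : Q I)) (Sum.elim y z)) := by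
    have h1 : LinearIndependent ℂ (fun o : Fin (n + 1) ⊕ Fin c =>
        a * psi I (Ideal.Quotient.mk I (Sum.elim w u o))) := by
      have h2 := hlin.map' ((LinearMap.mulLeft ℂ a).comp (psi I).toLinearMap)
        (LinearMap.ker_eq_bot.2 ((mul_right_injective₀ ha0).comp hinj))
      exact h2
    have h3 := h1.comp (Sum.elim (fun _ : Unit => Sum.inl 0)
      (Sum.elim (fun i : Fin n => Sum.inl i.succ) fun j : Fin c => Sum.inr j)) (by
        rintro (_ | i | j) (_ | i' | j') h <;>
          simp_all [Fin.ext_iff])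
    have h4 : (Sum.elim (fun _ : Unit => (1 : Q I)) (Sum.elim y z)) =
        (fun o : Fin (n + 1) ⊕ Fin c => a * psi I (Ideal.Quotient.mk I (Sum.elim w u o))) ∘
          (Sum.elim (fun _ : Unit => Sum.inl 0)
            (Sum.elim (fun i : Fin n => Sum.inl i.succ) fun j : Fin c => Sum.inr j)) := by
      funext o
      rcases o with _ | i | j
      · exact h1a
      · exact hya i
      · exact hza j
    rw [h4]
    exact h3
  -- the field `F`
  set E : IntermediateField ℂ (Q I) :=
    IntermediateField.adjoin ℂ (Set.range y ∪ Set.range z) with hE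
  have hyE : ∀ i, y i ∈ E := fun i =>
    IntermediateField.subset_adjoin ℂ _ (Or.inl ⟨i, rfl⟩)
  have hzE : ∀ j, z j ∈ E := fun j =>
    IntermediateField.subset_adjoin ℂ _ (Or.inr ⟨j, rfl⟩)
  set y' : Fin n → E := fun i => ⟨y i, hyE i⟩ with hy'
  set z' : Fin c → E := fun j => ⟨z j, hzE j⟩ with hz'
  have hEi : Function.Injective E.val := E.val.injective
  have him1 : E.val '' (Set.range y' ∪ Set.range z') = Set.range y ∪ Set.range z := by
    rw [Set.image_union, ← Set.range_comp, ← Set.range_comp]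
    rfl
  have himV : (Submodule.span ℂ (insert 1 (Set.range y' ∪ Set.range z'))).map
      E.val.toLinearMap = V := by
    rw [Submodule.map_span, hV]
    congr 1
    have : (E.val.toLinearMap : E → Q I) = E.val := rfl
    rw [this, Set.image_insert_eq, him1, map_one]
  have himY : (Submodule.span ℂ (insert 1 (Set.range y'))).map E.val.toLinearMap = Y := by
    rw [Submodule.map_span, hY]
    congr 1
    have : (E.val.toLinearMap : E → Q I) = E.val := rfl
    rw [this, Set.image_insert_eq, ← Set.range_comp, map_one]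
    rfl
  refine ⟨n, c, m0, E, inferInstance, inferInstance, y', z', hnc, hm0, ?_, ?_, ?_, ?_, ?_⟩
  · exact AlgebraicIndependent.of_comp E.val hyi
  · refine LinearIndependent.of_comp E.val.toLinearMap ?_
    have : (E.val.toLinearMap ∘ (Sum.elim (fun _ : Unit => (1 : E)) (Sum.elim y' z'))) =
        (Sum.elim (fun _ : Unit => (1 : Q I)) (Sum.elim y z)) := by
      funext o
      rcases o with _ | i | j <;> rfl
    rw [this]
    exact hlinQ
  · rw [← Submodule.map_le_map_iff_of_injective (f := E.val.toLinearMap) hEi,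
      Submodule.map_mul, Submodule.map_pow, Submodule.map_pow, himV, himY]
    exact hnoeQ
  · apply IntermediateField.map_injective E.val
    rw [IntermediateField.adjoin_map, him1, ← AlgHom.fieldRange_eq_map,
      IntermediateField.fieldRange_val]
  · intro m
    rw [← finrank_Rm I m, ← finrank_mul (a ^ m) (pow_ne_zero m ha0) (Rm I m), ← hVm m, ← himV,
      ← Submodule.map_pow]
    exact LinearEquiv.finrank_eq (Submodule.equivMapOfInjective E.val.toLinearMap hEi _)

end Pool.Agent.Lib.MP_776403_ag.SD.UK
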