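import Pool.Agent.Lib.MP_776403_ag.SD.UK.Spec2

/-!
# The Castelnuovo bound: adding the parameters
-/

set_option autoImplicit false

open MvPolynomial

noncomputable section

namespace Pool.Agent.Lib.MP_776403_ag.SD.UK

namespace G2Aux

/-- The field `F(T)`. -/
abbrev LL (n c : ℕ) (F : Type) [Field F] : Type := FractionRing (MvPolynomial (Fin n × Fin c) F)

variable (n c : ℕ) (F : Type) [Field F] [Algebra ℂ F]

/-- The inclusion. -/
def io : F →ₐ[ℂ] LL n c F := IsScalarTower.toAlgHom ℂ F (LL n c F)

theorem io_inj : Function.Injective (io n c F) := (io n c F).toRingHom.injective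

variable {n c F}

/-- The data. -/
def GG (y : Fin n → F) (z : Fin c → F) : Gen n c (LL n c F) where
  y := fun i => io n c F (y i)
  z := fun j => io n c F (z j)
  t := fun p => algebraMap (MvPolynomial (Fin n × Fin c) F) (LL n c F) (X p)

theorem im_W (y : Fin n → F) (z : Fin c → F) :
    (io n c F) '' (Set.range y ∪ Set.range z) =
      Set.range (GG y z).y ∪ Set.range (GG y z).z := by
  rw [Set.image_union, ← Set.range_comp, ← Set.range_comp]
  rfl

theorem V_eq (y : Fin n → F) (z : Fin c → F) :
    (GG y z).V = (Submodule.span ℂ (insert 1 (Set.range y ∪ Set.range z))).map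
      (io n c F).toLinearMap := by
  rw [Submodule.map_span]
  unfold Gen.V Gen.W
  congr 1
  rw [Set.image_insert_eq]
  change _ = insert ((io n c F) 1) ((io n c F) '' (Set.range y ∪ Set.range z))
  rw [map_one, im_W]

theorem Y_eq (y : Fin n → F) (z : Fin c → F) :
    (GG y z).Y = (Submodule.span ℂ (insert 1 (Set.range y))).map
      (io n c F).toLinearMap := by
  rw [Submodule.map_span]
  unfold Gen.Y
  congr 1
  rw [Set.image_insert_eq]
  change _ = insert ((io n c F) 1) ((io n c F) '' (Set.range y))
  rw [map_one, ← Set.range_comp]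
  rfl

theorem Vpow_eq (y : Fin n → F) (z : Fin c → F) (m : ℕ) :
    (GG y z).V ^ m = ((Submodule.span ℂ (insert 1 (Set.range y ∪ Set.range z))) ^ m).map
      (io n c F).toLinearMap := by
  rw [V_eq, Submodule.map_pow]

theorem fin_eq (y : Fin n → F) (z : Fin c → F) (m : ℕ) :
    Module.finrank ℂ ((GG y z).V ^ m : Submodule ℂ (LL n c F)) = Module.finrank ℂ
      (Submodule.span ℂ (insert 1 (Set.range y ∪ Set.range z)) ^ m : Submodule ℂ F) := by
  rw [Vpow_eq]
  exact (LinearEquiv.finrank_eq (Submodule.equivMapOfInjective (io n c F).toLinearMap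
    (io_inj n c F) _)).symm

theorem noe (y : Fin n → F) (z : Fin c → F) (m0 : ℕ)
    (h : Submodule.span ℂ (insert 1 (Set.range y ∪ Set.range z)) ^ m0 ≤
      Submodule.span ℂ (insert 1 (Set.range y)) *
        Submodule.span ℂ (insert 1 (Set.range y ∪ Set.range z)) ^ (m0 - 1)) :
    (GG y z).V ^ m0 ≤ (GG y z).Y * (GG y z).V ^ (m0 - 1) := by
  rw [Vpow_eq, Vpow_eq, Y_eq, ← Submodule.map_mul]
  exact Submodule.map_mono h

theorem A_le (y : Fin n → F) (z : Fin c → F) : (GG y z).A ≤ (io n c F).range := by
  unfold Gen.A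
  rw [← im_W]
  refine Algebra.adjoin_le ?_
  rintro _ ⟨a, -, rfl⟩
  exact ⟨a, rfl⟩

theorem indt (y : Fin n → F) (z : Fin c → F) :
    AlgebraicIndependent (GG y z).A (GG y z).t := by
  have h1 : AlgebraicIndependent F (GG y z).t := by
    have h2 : AlgebraicIndependent F (X : (Fin n × Fin c) → MvPolynomial (Fin n × Fin c) F) :=
      MvPolynomial.algebraicIndependent_X _ _
    exact h2.map' (f := IsScalarTower.toAlgHom F (MvPolynomial (Fin n × Fin c) F) (LL n c F))
      (IsFractionRing.injective (MvPolynomial (Fin n × Fin c) F) (LL n c F))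
  let e : F ≃ₐ[ℂ] (io n c F).range := AlgEquiv.ofInjective (io n c F) (io_inj n c F)
  let j : (GG y z).A →ₐ[ℂ] F := (e.symm : (io n c F).range →ₐ[ℂ] F).comp
    (Subalgebra.inclusion (A_le y z))
  have hj : ∀ a : (GG y z).A, io n c F (j a) = (a : LL n c F) := by
    intro a
    have h3 : e (e.symm (Subalgebra.inclusion (A_le y z) a)) =
      Subalgebra.inclusion (A_le y z) a := e.apply_symm_apply _
    have h4 := congrArg (fun w : (io n c F).range => (w : LL n c F)) h3
    exact h4
  letI : Algebra (GG y z).A F := j.toRingHom.toAlgebra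
  haveI : IsScalarTower (GG y z).A F (LL n c F) := by
    refine IsScalarTower.of_algebraMap_eq ?_
    intro a
    exact (hj a).symm
  refine h1.restrictScalars ?_
  intro a b hab
  apply Subtype.ext
  rw [← hj a, ← hj b]
  exact congrArg _ hab

theorem gen (y : Fin n → F) (z : Fin c → F)
    (h : IntermediateField.adjoin ℂ (Set.range y ∪ Set.range z) = ⊤) :
    IntermediateField.adjoin ℂ
      (Set.range (GG y z).y ∪ Set.range (GG y z).z ∪ Set.range (GG y z).t) = ⊤ := by
  rw [eq_top_iff]
  set E := IntermediateField.adjoin ℂ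
      (Set.range (GG y z).y ∪ Set.range (GG y z).z ∪ Set.range (GG y z).t) with hE
  have h1 : ∀ f : F, io n c F f ∈ E := by
    intro f
    have h2 : f ∈ IntermediateField.adjoin ℂ (Set.range y ∪ Set.range z) := by
      rw [h]; exact IntermediateField.mem_top
    have h3 : io n c F f ∈ (IntermediateField.adjoin ℂ (Set.range y ∪ Set.range z)).map
        (io n c F) := ⟨f, h2, rfl⟩
    rw [IntermediateField.adjoin_map, im_W] at h3
    exact IntermediateField.adjoin.mono _ _ _ Set.subset_union_left h3
  have h2 : ∀ p : MvPolynomial (Fin n × Fin c) F,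
      algebraMap (MvPolynomial (Fin n × Fin c) F) (LL n c F) p ∈ E := by
    intro p
    induction p using MvPolynomial.induction_on with
    | C a => exact h1 a
    | add p q hp hq => rw [map_add]; exact E.add_mem hp hq
    | mul_X p i hp =>
      rw [map_mul]
      refine E.mul_mem hp ?_
      exact IntermediateField.subset_adjoin _ _ (Or.inr ⟨i, rfl⟩)
  intro x _
  obtain ⟨a, b, -, rfl⟩ := IsFractionRing.div_surjective (A := MvPolynomial (Fin n × Fin c) F) x
  exact E.div_mem (h2 a) (h2 b)

end G2Aux

open G2Aux in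
theorem uG2 : S_G2 := by
  intro n c m0 F _ _ y z hm hy hlin hnoe hgen
  refine ⟨LL n c F, inferInstance, inferInstance, GG y z, ⟨?_, indt y z, ?_, hm,
    noe y z m0 hnoe, gen y z hgen⟩, fin_eq y z⟩
  · exact hy.map' (f := io n c F) (io_inj n c F)
  · have h1 := hlin.map' (io n c F).toLinearMap (LinearMap.ker_eq_bot.mpr (io_inj n c F))
    have h2 : (Sum.elim (fun _ : Unit => (1 : LL n c F)) (Sum.elim (GG y z).y (GG y z).z)) =
        (io n c F).toLinearMap ∘ (Sum.elim (fun _ : Unit => (1 : F)) (Sum.elim y z)) := by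
      funext o
      rcases o with o | o | o
      · exact (map_one (io n c F)).symm
      · rfl
      · rfl
    rw [h2]
    exact h1

end Pool.Agent.Lib.MP_776403_ag.SD.UK
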