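import Pool.Agent.Lib.MP_776403_ag.SD.UK.Spec2

/-!
# `S_GA`: linear Noether normalization with a basis of the linear forms
-/

set_option autoImplicit false

open MvPolynomial

noncomputable section

namespace Pool.Agent.Lib.MP_776403_ag.SD.UK

namespace GAAux

/-- Homogeneous components of a multiple of a form. -/
theorem hc_mul {σ : Type} {H : MvPolynomial σ ℂ} {d : ℕ} (hH : H.IsHomogeneous d)
    (c : MvPolynomial σ ℂ) (m : ℕ) :
    homogeneousComponent (d + m) (H * c) = H * homogeneousComponent m c := by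
  have h1 : ∀ i, homogeneousComponent (d + m) (H * homogeneousComponent i c) =
      if d + m = d + i then H * homogeneousComponent i c else 0 := by
    intro i
    exact homogeneousComponent_of_mem (hH.mul (homogeneousComponent_isHomogeneous i c))
  have h2 : homogeneousComponent (d + m) (H * c) =
      ∑ i ∈ Finset.range (c.totalDegree + 1),
        if d + m = d + i then H * homogeneousComponent i c else 0 := by
    conv_lhs => rw [← sum_homogeneousComponent c]
    rw [Finset.mul_sum, map_sum]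
    exact Finset.sum_congr rfl fun i _ => h1 i
  rw [h2]
  by_cases hr : m ∈ Finset.range (c.totalDegree + 1)
  · rw [Finset.sum_eq_single_of_mem m hr]
    · rw [if_pos rfl]
    · intro i _ hi
      rw [if_neg (by omega)]
  · rw [Finset.sum_eq_zero]
    · rw [homogeneousComponent_eq_zero, mul_zero]
      rw [Finset.mem_range] at hr
      omega
    · intro i hi
      rw [if_neg]
      intro h
      apply hr
      have : m = i := by omega
      rw [this]
      exact hi

/-- The degrees of the monomials of a form. -/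
theorem deg {s k : ℕ} {p : MvPolynomial (Fin s) ℂ} (hp : p.IsHomogeneous k) {d : Fin s →₀ ℕ}
    (hd : d ∈ p.support) : ∑ i, d i = k := by
  have h := hp (mem_support_iff.1 hd)
  rw [← Finsupp.degree_eq_sum, ← h, Finsupp.degree_eq_weight_one]
  rfl

variable {N : ℕ}

/-- Values of forms of positive degree. -/
theorem aeval_mem {r k : ℕ} (w : Fin r → Sx N) (p : MvPolynomial (Fin r) ℂ)
    (hp : p.IsHomogeneous k) (hk : 1 ≤ k) : aeval w p ∈ Ideal.span (Set.range w) := by
  rw [aeval_def, eval₂_eq']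
  refine Ideal.sum_mem _ fun d hd => ?_
  have h1 : ∑ i, d i = k := deg hp hd
  obtain ⟨i, hi⟩ : ∃ i, d i ≠ 0 := by
    by_contra h
    push Not at h
    rw [Finset.sum_eq_zero fun i _ => h i] at h1
    omega
  refine Ideal.mul_mem_left _ _ ?_
  have h2 : w i ^ d i ∈ Ideal.span (Set.range w) :=
    Ideal.pow_mem_of_mem _ (Ideal.subset_span (Set.mem_range_self i)) _ (Nat.pos_of_ne_zero hi)
  exact Ideal.mem_of_dvd _ (Finset.dvd_prod_of_mem (fun i => w i ^ d i) (Finset.mem_univ i)) h2

/-- Powers of the variables. -/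
theorem X_pow_mem {I : Ideal (Sx N)} {r : ℕ} (w : Fin r → Sx N) (j : Fin (N + 1)) (m : ℕ)
    (p : ℕ → MvPolynomial (Fin r) ℂ) (hp : ∀ k < m, (p k).IsHomogeneous (m - k))
    (h : X j ^ m + ∑ k ∈ Finset.range m, aeval w (p k) * X j ^ k ∈ I) :
    (X j ^ m : Sx N) ∈ Ideal.span (Set.range w) ⊔ I := by
  have h1 : ∑ k ∈ Finset.range m, aeval w (p k) * X j ^ k ∈ Ideal.span (Set.range w) ⊔ I := by
    refine Ideal.mem_sup_left (Ideal.sum_mem _ fun k hk => ?_)
    have hk' := Finset.mem_range.1 hk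
    exact Ideal.mul_mem_right _ _ (aeval_mem w (p k) (hp k hk') (by omega))
  have h3 : X j ^ m + ∑ k ∈ Finset.range m, aeval w (p k) * X j ^ k ∈
      Ideal.span (Set.range w) ⊔ I := Ideal.mem_sup_right h
  have h2 := Ideal.sub_mem _ h3 h1
  rwa [add_sub_cancel_right] at h2

/-- Forms of large degree. -/
theorem form_mem {J : Ideal (Sx N)} (m : Fin (N + 1) → ℕ) (hm : ∀ j, (X j ^ m j : Sx N) ∈ J)
    (F : Sx N) (hF : F.IsHomogeneous (∑ j, m j + 1)) : F ∈ J := by
  rw [F.as_sum]
  refine Ideal.sum_mem _ fun d hd => ?_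
  have h1 : ∑ j, d j = ∑ j, m j + 1 := deg hF hd
  obtain ⟨j, hj⟩ : ∃ j, m j ≤ d j := by
    by_contra h
    push Not at h
    have := Finset.sum_le_sum (fun j (_ : j ∈ (Finset.univ : Finset (Fin (N + 1)))) => (h j).le)
    omega
  rw [monomial_eq]
  refine Ideal.mul_mem_left _ _ ?_
  rw [Finsupp.prod_fintype _ _ (fun _ => pow_zero _)]
  refine Ideal.mem_of_dvd _ (Finset.dvd_prod_of_mem (fun j => (X j : Sx N) ^ d j)
    (Finset.mem_univ j)) ?_
  exact Ideal.mem_of_dvd _ (pow_dvd_pow _ hj) (hm j)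

/-- Forms in `(w) + I`. -/
theorem split {I : Ideal (Sx N)} (hI : IsHom I) {r : ℕ} (w : Fin r → Sx N)
    (hw : ∀ i, (w i).IsHomogeneous 1) (m0 : ℕ) (hm : 1 ≤ m0) (F : Sx N)
    (hF : F.IsHomogeneous m0) (h : F ∈ Ideal.span (Set.range w) ⊔ I) :
    ∃ A : Fin r → Sx N, (∀ i, (A i).IsHomogeneous (m0 - 1)) ∧ F - ∑ i, w i * A i ∈ I := by
  obtain ⟨s, hs, G, hG, hsG⟩ := Submodule.mem_sup.1 h
  obtain ⟨c, hc⟩ := Ideal.mem_span_range_iff_exists_fun.1 hs
  refine ⟨fun i => homogeneousComponent (m0 - 1) (c i),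
    fun i => homogeneousComponent_isHomogeneous _ _, ?_⟩
  have h2 : homogeneousComponent m0 F = F := by
    rw [homogeneousComponent_of_mem hF, if_pos rfl]
  have h3 : ∀ i, homogeneousComponent m0 (c i * w i) =
      w i * homogeneousComponent (m0 - 1) (c i) := by
    intro i
    have h4 := hc_mul (hw i) (c i) (m0 - 1)
    rw [show 1 + (m0 - 1) = m0 by omega] at h4
    rw [mul_comm, h4]
  have h5 : F = ∑ i, w i * homogeneousComponent (m0 - 1) (c i) + homogeneousComponent m0 G := by
    conv_lhs => rw [← h2, ← hsG, ← hc, map_add, map_sum]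
    rw [Finset.sum_congr rfl fun i _ => h3 i]
  have h6 : F - ∑ i, w i * homogeneousComponent (m0 - 1) (c i) = homogeneousComponent m0 G :=
    sub_eq_of_eq_add' h5
  rw [h6]
  exact hI G hG m0

/-- Linear forms are combinations of the variables. -/
theorem lin_span (F : Sx N) (hF : F.IsHomogeneous 1) :
    F ∈ Submodule.span ℂ (Set.range (X : Fin (N + 1) → Sx N)) := by
  classical
  rw [F.as_sum]
  refine Submodule.sum_mem _ fun d hd => ?_
  have h1 : ∑ j, d j = 1 := deg hF hd
  obtain ⟨j, hj⟩ : ∃ j, d j ≠ 0 := by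
    by_contra h
    push Not at h
    rw [Finset.sum_eq_zero fun i _ => h i] at h1
    omega
  have h2 : ∑ i, d i = d j + ∑ i ∈ Finset.univ.erase j, d i :=
    (Finset.add_sum_erase Finset.univ (fun i => d i) (Finset.mem_univ j)).symm
  have h3 : ∑ i ∈ Finset.univ.erase j, d i = 0 := by omega
  have h4 : d = Finsupp.single j 1 := by
    ext i
    by_cases hij : i = j
    · rw [hij, Finsupp.single_eq_same]
      omega
    · rw [Finsupp.single_eq_of_ne hij]
      exact Finset.sum_eq_zero_iff.1 h3 i (Finset.mem_erase.2 ⟨hij, Finset.mem_univ _⟩)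
  have h5 : monomial d (coeff d F) = (coeff d F) • (X j : Sx N) := by
    rw [h4, X, smul_monomial, smul_eq_mul, mul_one]
  rw [h5]
  exact Submodule.smul_mem _ _ (Submodule.subset_span ⟨j, rfl⟩)

/-- Exchange. -/
theorem extend {V : Type} [AddCommGroup V] [Module ℂ V] {r M : ℕ} (w : Fin r → V) (x : Fin M → V)
    (hw : LinearIndependent ℂ w) (hx : LinearIndependent ℂ x)
    (hwx : ∀ i, w i ∈ Submodule.span ℂ (Set.range x)) :
    ∃ (c : ℕ) (u : Fin c → V), r + c = M ∧ (∀ j, u j ∈ Set.range x) ∧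
      LinearIndependent ℂ (Sum.elim w u) ∧
      ∀ j, x j ∈ Submodule.span ℂ (Set.range (Sum.elim w u)) := by
  classical
  have h0 : LinearIndepOn ℂ (Sum.elim w x) (Set.range (Sum.inl : Fin r → Fin r ⊕ Fin M)) := by
    rw [linearIndepOn_range_iff Sum.inl_injective]
    exact hw
  obtain ⟨b, -, hb1, hb2, hb3⟩ := exists_linearIndepOn_extension h0 (Set.subset_univ _)
  set J : Finset (Fin M) := Finset.univ.filter fun j => (Sum.inr j : Fin r ⊕ Fin M) ∈ b with hJ
  have hmJ : ∀ j, j ∈ J ↔ (Sum.inr j : Fin r ⊕ Fin M) ∈ b := fun j => by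
    rw [hJ, Finset.mem_filter]
    simp
  let e := J.equivFin
  let u : Fin J.card → V := fun k => x (e.symm k).1
  let f : Fin r ⊕ Fin J.card → b := fun o => ⟨Sum.elim (fun i => Sum.inl i)
    (fun k => Sum.inr (e.symm k).1) o, by
      rcases o with i | k
      · exact hb1 ⟨i, rfl⟩
      · exact (hmJ _).1 (e.symm k).2⟩
  have hf : Function.Injective f := by
    rintro (i | k) (i' | k') h
    · have h1 : (Sum.inl i : Fin r ⊕ Fin M) = Sum.inl i' := congrArg Subtype.val h
      rw [Sum.inl.inj h1]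
    · have h1 : (Sum.inl i : Fin r ⊕ Fin M) = Sum.inr (e.symm k').1 := congrArg Subtype.val h
      exact absurd h1 Sum.inl_ne_inr
    · have h1 : (Sum.inr (e.symm k).1 : Fin r ⊕ Fin M) = Sum.inl i' := congrArg Subtype.val h
      exact absurd h1 Sum.inr_ne_inl
    · have h1 : (Sum.inr (e.symm k).1 : Fin r ⊕ Fin M) = Sum.inr (e.symm k').1 :=
        congrArg Subtype.val h
      have h2 := Subtype.ext (Sum.inr.inj h1)
      rw [e.symm.injective h2]
  have hfe : (fun o : b => Sum.elim w x o.1) ∘ f = Sum.elim w u := by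
    funext o
    rcases o with i | k <;> rfl
  have hli : LinearIndependent ℂ (Sum.elim w u) := by
    rw [← hfe]
    exact LinearIndependent.comp hb3 f hf
  have hsub : (Sum.elim w x) '' b ⊆ Set.range (Sum.elim w u) := by
    rintro v ⟨o, hob, rfl⟩
    rcases o with i | j
    · exact ⟨Sum.inl i, rfl⟩
    · refine ⟨Sum.inr (e ⟨j, (hmJ j).2 hob⟩), ?_⟩
      show x (e.symm (e ⟨j, (hmJ j).2 hob⟩)).1 = x j
      rw [Equiv.symm_apply_apply]
  have hxs : ∀ j, x j ∈ Submodule.span ℂ (Set.range (Sum.elim w u)) := by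
    intro j
    have h1 : Sum.elim w x (Sum.inr j) ∈ Submodule.span ℂ ((Sum.elim w x) '' b) :=
      hb2 ⟨Sum.inr j, trivial, rfl⟩
    exact Submodule.span_mono hsub h1
  have hspan : Submodule.span ℂ (Set.range (Sum.elim w u)) = Submodule.span ℂ (Set.range x) := by
    apply le_antisymm
    · rw [Submodule.span_le]
      rintro v ⟨o, rfl⟩
      rcases o with i | k
      · exact hwx i
      · exact Submodule.subset_span ⟨_, rfl⟩
    · rw [Submodule.span_le]
      rintro v ⟨j, rfl⟩
      exact hxs j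
  refine ⟨J.card, u, ?_, fun j => ⟨_, rfl⟩, hli, hxs⟩
  have h1 := finrank_span_eq_card hli
  have h2 := finrank_span_eq_card hx
  rw [hspan, h2, Fintype.card_sum, Fintype.card_fin, Fintype.card_fin, Fintype.card_fin] at h1
  omega

end GAAux

open GAAux in
theorem uGA : S_Noe → S_GA := by
  intro hNoe N I hI hH hI1
  obtain ⟨r, w, hw, hwI, hX⟩ := hNoe N I hI hH
  choose m p hp hmp using hX
  have hXm : ∀ j, (X j ^ m j : Sx N) ∈ Ideal.span (Set.range w) ⊔ I := fun j =>
    X_pow_mem w j (m j) (p j) (hp j) (hmp j)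
  -- `r ≥ 1`
  have hr : r ≠ 0 := by
    rintro rfl
    have h1 := hXm 0
    have h2 : Set.range w = ∅ := Set.range_eq_empty w
    rw [h2, Ideal.span_empty, bot_sup_eq] at h1
    have h3 := hI.mem_of_pow_mem _ h1
    exact X_ne_zero (R := ℂ) (0 : Fin (N + 1)) (hI1 _ h3 (isHomogeneous_X ℂ 0))
  obtain ⟨n, rfl⟩ : ∃ n, r = n + 1 := ⟨r - 1, by omega⟩
  -- a basis of the linear forms
  have hwl : LinearIndependent ℂ w := by
    have h1 : LinearIndependent ℂ fun i => Ideal.Quotient.mk I (w i) := hwI.linearIndependent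
    exact LinearIndependent.of_comp (Ideal.Quotient.mkₐ ℂ I).toLinearMap h1
  obtain ⟨c, u, hc, hu, hwu, hXs⟩ := extend w (X : Fin (N + 1) → Sx N) hwl
    (linearIndependent_X _ _) (fun i => lin_span _ (hw i))
  have hu1 : ∀ j, (u j).IsHomogeneous 1 := by
    intro j
    obtain ⟨k, hk⟩ := hu j
    rw [← hk]
    exact isHomogeneous_X ℂ k
  have hhom : ∀ G ∈ Submodule.span ℂ (Set.range (Sum.elim w u)), G.IsHomogeneous 1 := by
    have h1 : Submodule.span ℂ (Set.range (Sum.elim w u)) ≤
        homogeneousSubmodule (Fin (N + 1)) ℂ 1 := by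
      rw [Submodule.span_le]
      rintro v ⟨o, rfl⟩
      rcases o with i | j
      · exact hw i
      · exact hu1 j
    intro G hG
    exact h1 hG
  refine ⟨n, c, ∑ j, m j + 1, w, u, by omega, by omega, hw, hu1, hwI, ?_, ?_, ?_⟩
  · have h1 : Disjoint (Submodule.span ℂ (Set.range (Sum.elim w u)))
        (LinearMap.ker (Ideal.Quotient.mkₐ ℂ I).toLinearMap) := by
      rw [Submodule.disjoint_def]
      intro G hG hG0
      have h2 : Ideal.Quotient.mk I G = 0 := hG0
      exact hI1 G (Ideal.Quotient.eq_zero_iff_mem.1 h2) (hhom G hG)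
    exact hwu.map h1
  · intro F hF
    have h1 : Submodule.span ℂ (Set.range (X : Fin (N + 1) → Sx N)) ≤
        Submodule.span ℂ (Set.range (Sum.elim w u)) := by
      rw [Submodule.span_le]
      rintro v ⟨j, rfl⟩
      exact hXs j
    exact h1 (lin_span F hF)
  · intro F hF
    exact split hH w hw _ (by omega) F hF (form_mem m hXm F hF)

end Pool.Agent.Lib.MP_776403_ag.SD.UK
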