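import Pool.Agent.Lib.MP_776403_ag.SD.UK.Spec2

/-!
# Independence of the ratios (`S_GB`)
-/

set_option autoImplicit false

open MvPolynomial

noncomputable section

namespace Pool.Agent.Lib.MP_776403_ag.SD.UK

namespace GBAux

/-- The homogenization of `P` in degree `d`. -/
def hom {n : ℕ} (d : ℕ) (P : MvPolynomial (Fin n) ℂ) : MvPolynomial (Fin (n + 1)) ℂ :=
  ∑ α ∈ P.support, C (P.coeff α) * (X 0 ^ (d - ∑ i, α i) * ∏ i, X i.succ ^ α i)

theorem aeval_hom_one {n : ℕ} (d : ℕ) (P : MvPolynomial (Fin n) ℂ) :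
    aeval (Fin.cons 1 (fun i : Fin n => (X i : MvPolynomial (Fin n) ℂ)) :
      Fin (n + 1) → MvPolynomial (Fin n) ℂ) (hom d P) = P := by
  unfold hom
  rw [map_sum]
  conv_rhs => rw [P.as_sum]
  refine Finset.sum_congr rfl fun α _ => ?_
  rw [map_mul, map_mul, map_pow, map_prod, aeval_X, aeval_C, Fin.cons_zero, one_pow, one_mul,
    monomial_eq, Finsupp.prod_fintype _ _ (fun i => pow_zero _), algebraMap_eq]
  congr 1
  refine Finset.prod_congr rfl fun i _ => ?_
  rw [map_pow, aeval_X, Fin.cons_succ]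

theorem aeval_hom {n : ℕ} {F : Type} [Field F] [Algebra ℂ F] (x : Fin (n + 1) → F)
    (h0 : x 0 ≠ 0) (P : MvPolynomial (Fin n) ℂ) :
    aeval x (hom P.totalDegree P) =
      x 0 ^ P.totalDegree * aeval (fun i : Fin n => x i.succ / x 0) P := by
  unfold hom
  rw [map_sum, aeval_def, eval₂_eq', Finset.mul_sum]
  refine Finset.sum_congr rfl fun α hα => ?_
  have hd : ∑ i, α i ≤ P.totalDegree := by
    have := le_totalDegree hα
    rwa [Finsupp.sum_fintype _ _ (fun _ => rfl)] at this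
  rw [map_mul, map_mul, map_pow, map_prod, aeval_X, aeval_C]
  have h1 : ∏ i, aeval x ((X i.succ : MvPolynomial (Fin (n + 1)) ℂ) ^ α i) =
      ∏ i, x i.succ ^ α i := Finset.prod_congr rfl fun i _ => by rw [map_pow, aeval_X]
  have h2 : ∏ i : Fin n, (x i.succ / x 0) ^ α i = (∏ i, x i.succ ^ α i) / x 0 ^ ∑ i, α i := by
    rw [← Finset.prod_pow_eq_pow_sum, ← Finset.prod_div_distrib]
    exact Finset.prod_congr rfl fun i _ => div_pow _ _ _
  rw [h1, h2]
  have h3 : x 0 ^ P.totalDegree = x 0 ^ (P.totalDegree - ∑ i, α i) * x 0 ^ ∑ i, α i := by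
    rw [← pow_add, Nat.sub_add_cancel hd]
  rw [h3]
  have h4 : x 0 ^ ∑ i, α i ≠ 0 := pow_ne_zero _ h0
  field_simp

end GBAux

theorem uGB : S_GB := by
  intro n F _ _ x hx
  rw [algebraicIndependent_iff]
  intro P hP
  have h0 : x 0 ≠ 0 := hx.ne_zero 0
  have h1 := GBAux.aeval_hom x h0 P
  rw [hP, mul_zero] at h1
  have h2 : GBAux.hom P.totalDegree P = 0 := (algebraicIndependent_iff.mp hx) _ h1
  rw [← GBAux.aeval_hom_one P.totalDegree P, h2, map_zero]

end Pool.Agent.Lib.MP_776403_ag.SD.UK
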