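import Pool.Agent.Lib.MP_776403_ag.SD.UK.Spec

/-!
# The Castelnuovo bound, module `Int`: integrality from a Noether inequality of submodules
-/

set_option autoImplicit false

open MvPolynomial

noncomputable section

namespace Pool.Agent.Lib.MP_776403_ag.SD.UK

namespace IntAux

/-- `V ^ m0 * V ≤ Y * V ^ m0`. -/
theorem step {k L : Type} [Field k] [Field L] [Algebra k L] {m0 : ℕ} {Y V : Submodule k L}
    (h1 : 1 ≤ m0) (h : V ^ m0 ≤ Y * V ^ (m0 - 1)) : V ^ m0 * V ≤ Y * V ^ m0 := by
  have e : V ^ (m0 - 1) * V = V ^ m0 := by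
    rw [← pow_succ, Nat.sub_add_cancel h1]
  calc V ^ m0 * V ≤ (Y * V ^ (m0 - 1)) * V := mul_le_mul' h le_rfl
    _ = Y * V ^ m0 := by rw [mul_assoc, e]

theorem second {k L : Type} [Field k] [Field L] [Algebra k L] {m0 : ℕ} {Y V : Submodule k L}
    (h1 : 1 ≤ m0) (h : V ^ m0 ≤ Y * V ^ (m0 - 1)) (e : ℕ) : V ^ (m0 + e) ≤ Y ^ e * V ^ m0 := by
  induction e with
  | zero => rw [add_zero, pow_zero, one_mul]
  | succ e ih =>
    calc V ^ (m0 + (e + 1)) = V ^ (m0 + e) * V := by rw [← add_assoc, pow_succ]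
      _ ≤ (Y ^ e * V ^ m0) * V := mul_le_mul' ih le_rfl
      _ = Y ^ e * (V ^ m0 * V) := mul_assoc _ _ _
      _ ≤ Y ^ e * (Y * V ^ m0) := mul_le_mul' le_rfl (step h1 h)
      _ = Y ^ (e + 1) * V ^ m0 := by rw [← mul_assoc, ← pow_succ]

/-- The elements of `Y` lie in `B`. -/
theorem memB {k L : Type} [Field k] [Field L] [Algebra k L] {n : ℕ} {l : Fin n → L} {y : L}
    (hy : y ∈ Submodule.span k (insert 1 (Set.range l))) : y ∈ Algebra.adjoin k (Set.range l) := by
  have h : Submodule.span k (insert 1 (Set.range l)) ≤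
      Subalgebra.toSubmodule (Algebra.adjoin k (Set.range l)) := by
    rw [Submodule.span_le]
    intro x hx
    rcases hx with hx | hx
    · rw [hx]
      exact (Algebra.adjoin k (Set.range l)).one_mem
    · exact Algebra.subset_adjoin hx
  exact h hy

theorem first {k L : Type} [Field k] [Field L] [Algebra k L] {n m0 : ℕ} {l : Fin n → L}
    {V : Submodule k L} (hF : V.FG) (h0 : (1 : L) ∈ V) (h1 : 1 ≤ m0)
    (h : V ^ m0 ≤ Submodule.span k (insert 1 (Set.range l)) * V ^ (m0 - 1)) (z : L) (hz : z ∈ V) :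
    IsIntegral (Algebra.adjoin k (Set.range l)) z := by
  have hone : (1 : L) ∈ V ^ m0 := by
    have := Submodule.pow_mem_pow V h0 m0
    rwa [one_pow] at this
  have hN : Submodule.span (Algebra.adjoin k (Set.range l)) ((V ^ m0 : Submodule k L) : Set L) ≠ ⊥ := by
    intro hb
    have h2 : (1 : L) ∈ Submodule.span (Algebra.adjoin k (Set.range l))
        ((V ^ m0 : Submodule k L) : Set L) := Submodule.subset_span hone
    rw [hb, Submodule.mem_bot] at h2
    exact one_ne_zero h2
  have hN2 : (Submodule.span (Algebra.adjoin k (Set.range l))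
      ((V ^ m0 : Submodule k L) : Set L)).FG := by
    obtain ⟨S, hS⟩ := hF.pow m0
    refine ⟨S, ?_⟩
    rw [← hS]
    exact (Submodule.span_span_of_tower k (Algebra.adjoin k (Set.range l)) (S : Set L)).symm
  refine isIntegral_of_smul_mem_submodule _ hN hN2 z ?_
  intro x hx
  refine Submodule.span_induction (p := fun x _ => z • x ∈ Submodule.span
    (Algebra.adjoin k (Set.range l)) ((V ^ m0 : Submodule k L) : Set L)) ?_ ?_ ?_ ?_ hx
  · intro x hx
    have h2 : x * z ∈ Submodule.span k (insert 1 (Set.range l)) * V ^ m0 :=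
      step h1 h (Submodule.mul_mem_mul hx hz)
    have h3 : z • x = x * z := by rw [smul_eq_mul, mul_comm]
    rw [h3]
    refine Submodule.mul_induction_on h2 ?_ ?_
    · intro y hy v hv
      have h4 : y * v = (⟨y, memB hy⟩ : Algebra.adjoin k (Set.range l)) • v := rfl
      rw [h4]
      exact Submodule.smul_mem _ _ (Submodule.subset_span hv)
    · intro a b ha hb
      exact Submodule.add_mem _ ha hb
  · rw [smul_zero]
    exact Submodule.zero_mem _
  · intro a b _ _ ha hb
    rw [smul_add]
    exact Submodule.add_mem _ ha hb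
  · intro b a _ ha
    rw [smul_comm]
    exact Submodule.smul_mem _ _ ha

end IntAux

/-- Integrality from a Noether inequality of submodules. -/
theorem uInt : S_Int := by
  intro k L _ _ _ n m0 l V hF h0 h1 h
  exact ⟨fun z hz => IntAux.first hF h0 h1 h z hz, fun e => IntAux.second h1 h e⟩

end Pool.Agent.Lib.MP_776403_ag.SD.UK
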