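import Pool.Agent.Lib.MP_776403_ag.SD.UK.Spec

/-!
# The Castelnuovo bound: independence over `ℂ(t)` (proof of `S_Kz`)
-/

set_option autoImplicit false

open MvPolynomial

noncomputable section

namespace Pool.Agent.Lib.MP_776403_ag.SD.UK

namespace KzAux

variable {n c : ℕ} {L : Type} [Field L] [Algebra ℂ L] (G : Gen n c L)

theorem part1 (hi : AlgebraicIndependent G.A G.t) {ι : Type} (x : ι → L) (hx : ∀ o, x o ∈ G.A)
    (hl : LinearIndependent ℂ x) (s : Finset ι) (f : ι → MvPolynomial (Fin n × Fin c) ℂ)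
    (h : ∑ o ∈ s, aeval G.t (f o) * x o = 0) : ∀ o ∈ s, f o = 0 := by
  have h1 : (∑ o ∈ s, C (⟨x o, hx o⟩ : G.A) * MvPolynomial.map (algebraMap ℂ G.A) (f o) :
      MvPolynomial (Fin n × Fin c) G.A) = 0 := by
    refine (algebraicIndependent_iff.1 hi) _ ?_
    rw [map_sum, ← h]
    refine Finset.sum_congr rfl fun o _ => ?_
    rw [map_mul, aeval_C, aeval_map_algebraMap, mul_comm]
    rfl
  intro o ho
  ext m
  rw [coeff_zero]
  have h2 : ∑ o ∈ s, coeff m (f o) • x o = 0 := by
    have h3 := congrArg (fun F => ((coeff m F : G.A) : L)) h1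
    simp only [coeff_sum, coeff_C_mul, coeff_map, coeff_zero] at h3
    rw [ZeroMemClass.coe_zero, AddSubmonoidClass.coe_finsetSum] at h3
    rw [← h3]
    refine Finset.sum_congr rfl fun o _ => ?_
    rw [MulMemClass.coe_mul, Algebra.smul_def, mul_comm]
    rfl
  exact (linearIndependent_iff'.1 hl) s _ h2 o ho

theorem frac (a : L) (ha : a ∈ G.K0) : ∃ p q : MvPolynomial (Fin n × Fin c) ℂ,
    aeval G.t q ≠ 0 ∧ a * aeval G.t q = aeval G.t p := by
  obtain ⟨p, q, h⟩ := (IntermediateField.mem_adjoin_range_iff ℂ G.t a).1 ha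
  by_cases hq : aeval G.t q = 0
  · refine ⟨0, 1, ?_, ?_⟩
    · rw [map_one]
      exact one_ne_zero
    · rw [h, hq, div_zero, zero_mul, map_zero]
  · exact ⟨p, q, hq, by rw [h, div_mul_cancel₀ _ hq]⟩

theorem part2 (hi : AlgebraicIndependent G.A G.t) {ι : Type} (x : ι → L) (hx : ∀ o, x o ∈ G.A)
    (hl : LinearIndependent ℂ x) : LinearIndependent G.K0 x := by
  classical
  rw [linearIndependent_iff']
  intro s g hg
  choose p q hq hp using fun i : ι => frac G (g i : L) (g i).2
  have h1 : ∑ i ∈ s, aeval G.t (p i * ∏ j ∈ s.erase i, q j) * x i = 0 := by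
    have h2 : ∑ i ∈ s, (g i : L) * x i = 0 := hg
    have h3 : ∀ i ∈ s, aeval G.t (p i * ∏ j ∈ s.erase i, q j) * x i =
        aeval G.t (∏ j ∈ s, q j) * ((g i : L) * x i) := by
      intro i his
      rw [map_mul, ← hp i, ← Finset.mul_prod_erase s q his, map_mul]
      ring
    rw [Finset.sum_congr rfl h3, ← Finset.mul_sum, h2, mul_zero]
  intro i his
  have h4 := part1 G hi x hx hl s _ h1 i his
  have h5 : ∀ j, q j ≠ 0 := fun j h => hq j (by rw [h, map_zero])
  have h6 : p i = 0 := by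
    rcases mul_eq_zero.1 h4 with h | h
    · exact h
    · exact absurd h (Finset.prod_ne_zero_iff.2 fun j _ => h5 j)
  have h7 := hp i
  rw [h6, map_zero] at h7
  have h8 : (g i : L) = 0 := by
    rcases mul_eq_zero.1 h7 with h | h
    · exact h
    · exact absurd h (hq i)
  exact Subtype.ext h8

end KzAux

theorem uKz : S_Kz := by
  intro n c m0 L _ _ G hG ι x hx hl
  exact ⟨fun s f h => KzAux.part1 G hG.indt x hx hl s f h, KzAux.part2 G hG.indt x hx hl⟩

end Pool.Agent.Lib.MP_776403_ag.SD.UK
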