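import Pool.Agent.Lib.MP_776403_ag.SD.UK.Spec

/-!
# The coefficients of a relation can be taken in `ℂ[t]`
-/

set_option autoImplicit false

open MvPolynomial

noncomputable section

namespace Pool.Agent.Lib.MP_776403_ag.SD.UK

namespace MiAux

variable {n c : ℕ} {L : Type} [Field L] [Algebra ℂ L] (G : Gen n c L)

/-- `ev p` lies in `K`. -/
lemma ev_mem (p : Gen.P n c) : G.ev p ∈ G.K := by
  have h : (G.ev p) ∈ Algebra.adjoin ℂ (Set.range (Sum.elim G.t G.l)) := by
    rw [Algebra.adjoin_range_eq_range_aeval]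
    exact ⟨p, rfl⟩
  exact IntermediateField.algebra_adjoin_le_adjoin ℂ _ h

/-- Elements of `K` are fractions. -/
lemma frac (hinj : Function.Injective G.ev) (x : L) (hx : x ∈ G.K) :
    ∃ p q : Gen.P n c, q ≠ 0 ∧ G.ev q * x = G.ev p := by
  obtain ⟨r, s, hrs⟩ := (IntermediateField.mem_adjoin_range_iff ℂ (i := Sum.elim G.t G.l) x).1 hx
  by_cases hs : s = 0
  · refine ⟨0, 1, one_ne_zero, ?_⟩
    rw [hrs, hs]
    simp
  · refine ⟨r, s, hs, ?_⟩
    have h0 : G.ev s ≠ 0 := fun h => hs (hinj (by rw [h, map_zero]))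
    rw [hrs]
    exact mul_div_cancel₀ _ h0

/-- Common denominator. -/
lemma common (hinj : Function.Injective G.ev) (J : Finset (Fin c)) (x : Fin c → L)
    (hx : ∀ j ∈ J, x j ∈ G.K) :
    ∃ (b : Gen.P n c) (a : Fin c → Gen.P n c), b ≠ 0 ∧ ∀ j ∈ J, G.ev b * x j = G.ev (a j) := by
  classical
  induction J using Finset.induction_on with
  | empty => exact ⟨1, fun _ => 0, one_ne_zero, by simp⟩
  | insert k J hk ih =>
    obtain ⟨b, a, hb, hab⟩ := ih (fun j hj => hx j (Finset.mem_insert_of_mem hj))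
    obtain ⟨p, q, hq, hpq⟩ := frac G hinj (x k) (hx k (Finset.mem_insert_self _ _))
    refine ⟨b * q, fun j => if j = k then b * p else q * a j, mul_ne_zero hb hq, ?_⟩
    intro j hj
    by_cases hjk : j = k
    · subst hjk
      simp only [if_true, map_mul]
      rw [mul_assoc, hpq]
    · have hjJ : j ∈ J := by
        rcases Finset.mem_insert.1 hj with h | h
        · exact absurd h hjk
        · exact h
      simp only [if_neg hjk, map_mul]
      rw [← hab j hjJ]
      ring

/-- The linear combination of `z_j1` and the `z_j`, `j ∈ J`. -/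
def om (J : Finset (Fin c)) (j1 : Fin c) (b : Gen.P n c) (a : Fin c → Gen.P n c) : L :=
  G.ev b * G.z j1 + ∑ j ∈ J, G.ev (a j) * G.z j

/-- The relation. -/
def rel (J : Finset (Fin c)) (j1 : Fin c) (p x : Gen.P n c) (y : Fin c → Gen.P n c) :
    Option (Fin c) → Gen.P n c :=
  fun o => o.elim p fun j => (if j = j1 then x else 0) + (if j ∈ J then y j else 0)

lemma sum_rel (J : Finset (Fin c)) (j1 : Fin c) (p x : Gen.P n c) (y : Fin c → Gen.P n c) :
    ∑ o, G.ev (rel J j1 p x y o) * zz G o = G.ev p + om G J j1 x y := by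
  classical
  rw [Fintype.sum_option]
  simp only [rel, zz, Option.elim, mul_one, om, map_add, add_mul, Finset.sum_add_distrib]
  congr 1
  congr 1
  · rw [Finset.sum_eq_single j1]
    · simp
    · intro j _ hj
      simp [hj]
    · intro h
      exact absurd (Finset.mem_univ _) h
  · rw [← Finset.sum_filter_add_sum_filter_not Finset.univ (fun j => j ∈ J)]
    rw [Finset.sum_eq_zero (s := Finset.univ.filter (fun j => ¬ j ∈ J))]
    · rw [add_zero]
      have hJ : Finset.univ.filter (fun j => j ∈ J) = J := by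
        ext j
        simp
      rw [hJ]
      refine Finset.sum_congr rfl ?_
      intro j hj
      rw [if_pos hj]
    · intro j hj
      rw [if_neg (Finset.mem_filter.1 hj).2]
      simp

lemma pderiv_rel (J : Finset (Fin c)) (j1 : Fin c) (p x : Gen.P n c) (y : Fin c → Gen.P n c)
    (i : Fin n) (o : Option (Fin c)) :
    pderiv (Sum.inr i) (rel J j1 p x y o) =
      rel J j1 (pderiv (Sum.inr i) p) (pderiv (Sum.inr i) x) (fun j => pderiv (Sum.inr i) (y j)) o := by
  classical
  cases o with
  | none => rfl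
  | some j =>
    simp only [rel, Option.elim, map_add]
    congr 1
    · split_ifs
      · rfl
      · exact map_zero _
    · split_ifs
      · rfl
      · exact map_zero _

/-- `q b`. -/
lemma om_mul (J : Finset (Fin c)) (j1 : Fin c) (q b : Gen.P n c) (a : Fin c → Gen.P n c) :
    om G J j1 (q * b) (fun j => q * a j) = G.ev q * om G J j1 b a := by
  simp only [om, map_mul]
  rw [mul_add, Finset.mul_sum]
  congr 1
  · ring
  · refine Finset.sum_congr rfl ?_
    intro j _
    ring

/-- Leibniz rule. -/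
lemma om_leib (J : Finset (Fin c)) (j1 : Fin c) (q b : Gen.P n c) (a : Fin c → Gen.P n c) (i : Fin n) :
    om G J j1 (pderiv (Sum.inr i) (q * b)) (fun j => pderiv (Sum.inr i) (q * a j)) =
      G.ev q * om G J j1 (pderiv (Sum.inr i) b) (fun j => pderiv (Sum.inr i) (a j)) +
        G.ev (pderiv (Sum.inr i) q) * om G J j1 b a := by
  simp only [om, Derivation.leibniz, smul_eq_mul, map_mul, map_add]
  rw [mul_add, mul_add, Finset.mul_sum, Finset.mul_sum]
  have h : ∑ j ∈ J, (G.ev q * G.ev (pderiv (Sum.inr i) (a j)) +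
      G.ev (a j) * G.ev (pderiv (Sum.inr i) q)) * G.z j =
      ∑ j ∈ J, G.ev q * (G.ev (pderiv (Sum.inr i) (a j)) * G.z j) +
        ∑ j ∈ J, G.ev (pderiv (Sum.inr i) q) * (G.ev (a j) * G.z j) := by
    rw [← Finset.sum_add_distrib]
    refine Finset.sum_congr rfl ?_
    intro j _
    ring
  rw [h]
  ring

/-- The claim: the derivatives give again an element. -/
lemma claim {m0 : ℕ} (hSt : S_St) (hOk : G.Ok m0) (hinj : Function.Injective G.ev)
    (hKV : G.KV ≠ ⊤) (J : Finset (Fin c)) (j1 : Fin c) (b : Gen.P n c) (a : Fin c → Gen.P n c)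
    (h : om G J j1 b a ∈ G.K) (i : Fin n) :
    om G J j1 (pderiv (Sum.inr i) b) (fun j => pderiv (Sum.inr i) (a j)) ∈ G.K := by
  obtain ⟨p, q, hq, hpq⟩ := frac G hinj _ h
  have h1 := hSt n c m0 L G hOk hKV (rel J j1 (-p) (q * b) (fun j => q * a j))
    (by rw [sum_rel, om_mul, hpq, map_neg]; ring) i
  have h2 : ∑ o, G.ev (pderiv (Sum.inr i) (rel J j1 (-p) (q * b) (fun j => q * a j) o)) * zz G o =
      G.ev (pderiv (Sum.inr i) (-p)) + (G.ev q * om G J j1 (pderiv (Sum.inr i) b)
        (fun j => pderiv (Sum.inr i) (a j)) + G.ev (pderiv (Sum.inr i) q) * om G J j1 b a) := by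
    rw [← om_leib, ← sum_rel]
    refine Finset.sum_congr rfl ?_
    intro o _
    rw [pderiv_rel]
  rw [h2] at h1
  have hq0 : G.ev q ≠ 0 := fun h => hq (hinj (by rw [h, map_zero]))
  have h3 : om G J j1 (pderiv (Sum.inr i) b) (fun j => pderiv (Sum.inr i) (a j)) =
      ((G.ev (pderiv (Sum.inr i) (-p)) + (G.ev q * om G J j1 (pderiv (Sum.inr i) b)
        (fun j => pderiv (Sum.inr i) (a j)) + G.ev (pderiv (Sum.inr i) q) * om G J j1 b a)) -
        G.ev (pderiv (Sum.inr i) (-p)) - G.ev (pderiv (Sum.inr i) q) * om G J j1 b a) / G.ev q := by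
    field_simp
    ring
  rw [h3]
  exact div_mem (sub_mem (sub_mem h1 (ev_mem G _)) (mul_mem (ev_mem G _) h)) (ev_mem G _)

/-- Independence. -/
lemma indep (J : Finset (Fin c))
    (hlin : LinearIndependent G.K (fun o : Option J => zz G (o.map Subtype.val)))
    (a : Fin c → Gen.P n c) (h : ∑ j ∈ J, G.ev (a j) * G.z j ∈ G.K) : ∀ j ∈ J, G.ev (a j) = 0 := by
  classical
  intro j hj
  have h1 := (Fintype.linearIndependent_iff.1 hlin)
    (fun o => o.elim (-(⟨_, h⟩ : G.K)) fun j => ⟨G.ev (a j.1), ev_mem G _⟩) (by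
      rw [Fintype.sum_option]
      simp only [Option.elim, Option.map_none, Option.map_some, zz, Algebra.smul_def, mul_one]
      have h2 : ∑ x : J, algebraMap G.K L ⟨G.ev (a x.1), ev_mem G _⟩ * G.z x.1 =
          ∑ j ∈ J, G.ev (a j) * G.z j := by
        rw [← Finset.sum_coe_sort J (fun j => G.ev (a j) * G.z j)]
        rfl
      rw [h2, map_neg]
      exact neg_add_cancel _) (some ⟨j, hj⟩)
  have h3 := congrArg (algebraMap G.K L) h1
  rw [map_zero] at h3
  exact h3

/-- The induction. -/
lemma main {m0 : ℕ} (hSt : S_St) (hDu : S_Du) (hOk : G.Ok m0) (hinj : Function.Injective G.ev)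
    (hKV : G.KV ≠ ⊤) (J : Finset (Fin c)) (j1 : Fin c)
    (hlin : LinearIndependent G.K (fun o : Option J => zz G (o.map Subtype.val))) (N : ℕ) :
    ∀ (b : Gen.P n c) (a : Fin c → Gen.P n c), weightedTotalDegree (uw n c) b < N → b ≠ 0 →
    om G J j1 b a ∈ G.K →
    ∃ (b : MvPolynomial (Fin n × Fin c) ℂ) (a : Fin c → MvPolynomial (Fin n × Fin c) ℂ), b ≠ 0 ∧
      aeval G.t b * G.z j1 + ∑ j ∈ J, aeval G.t (a j) * G.z j ∈ G.K := by
  classical
  induction N with
  | zero =>
    intro b a h
    exact absurd h (Nat.not_lt_zero _)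
  | succ N ih =>
    intro b a hN hb hom
    by_cases hd : ∃ i : Fin n, pderiv (Sum.inr i) b ≠ 0
    · obtain ⟨i, hi⟩ := hd
      exact ih (pderiv (Sum.inr i) b) (fun j => pderiv (Sum.inr i) (a j))
        (lt_of_lt_of_le ((hDu n c).1 b i hi) (Nat.lt_succ_iff.1 hN)) hi
        (claim G hSt hOk hinj hKV J j1 b a hom i)
    · push Not at hd
      obtain ⟨b', hb'⟩ := (hDu n c).2.1 b hd
      have ha : ∀ j ∈ J, ∃ a' : MvPolynomial (Fin n × Fin c) ℂ, a j = rename Sum.inl a' := by
        intro j hj
        refine (hDu n c).2.1 (a j) ?_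
        intro i
        have h1 := claim G hSt hOk hinj hKV J j1 b a hom i
        rw [hd i] at h1
        have h2 : ∑ j ∈ J, G.ev (pderiv (Sum.inr i) (a j)) * G.z j ∈ G.K := by
          have h3 : om G J j1 0 (fun j => pderiv (Sum.inr i) (a j)) =
              ∑ j ∈ J, G.ev (pderiv (Sum.inr i) (a j)) * G.z j := by
            simp only [om, map_zero, zero_mul, zero_add]
          rw [← h3]
          exact h1
        have h4 := indep G J hlin (fun j => pderiv (Sum.inr i) (a j)) h2 j hj
        exact hinj (by rw [h4, map_zero])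
      choose! a' ha' using ha
      have hev : ∀ f : MvPolynomial (Fin n × Fin c) ℂ, G.ev (rename Sum.inl f) = aeval G.t f := by
        intro f
        simp only [Gen.ev]
        rw [aeval_rename, Sum.elim_comp_inl]
      refine ⟨b', a', ?_, ?_⟩
      · intro h0
        apply hb
        rw [hb', h0, map_zero]
      · have h5 : aeval G.t b' * G.z j1 + ∑ j ∈ J, aeval G.t (a' j) * G.z j = om G J j1 b a := by
          simp only [om]
          rw [← hev b', ← hb']
          congr 1
          refine Finset.sum_congr rfl ?_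
          intro j hj
          rw [← hev (a' j), ← ha' j hj]
        rw [h5]
        exact hom

end MiAux

open MiAux in
/-- (Mi) The coefficients of a relation can be taken in `ℂ[t]`. -/
theorem uMi : S_Alg → S_St → S_Du → S_Mi := by
  intro hAlg hSt hDu n c m0 L _ _ G hOk hKV J j1 _ hlin hspan
  classical
  have hinj : Function.Injective G.ev := (hAlg n c m0 L G hOk).2
  obtain ⟨κ0, w, hw, hz⟩ := Submodule.mem_span_insert.1 hspan
  obtain ⟨κ, hκ⟩ := (Submodule.mem_span_image_finset_iff_exists_fun G.K).1 hw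
  obtain ⟨b, a, hb, hab⟩ := common G hinj J (fun j => if h : j ∈ J then (κ ⟨j, h⟩ : L) else 0)
    (fun j hj => by
      rw [dif_pos hj]
      exact (κ ⟨j, hj⟩).2)
  refine main G hSt hDu hOk hinj hKV J j1 hlin _ b (fun j => - a j) (Nat.lt_succ_self _) hb ?_
  have h1 : om G J j1 b (fun j => - a j) = G.ev b * (κ0 : L) := by
    simp only [om, map_neg, neg_mul, Finset.sum_neg_distrib]
    have h2 : ∑ j ∈ J, G.ev (a j) * G.z j = G.ev b * w := by
      rw [← hκ, Finset.mul_sum, ← Finset.sum_coe_sort J (fun j => G.ev (a j) * G.z j)]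
      refine Finset.sum_congr rfl ?_
      intro j _
      rw [← hab j.1 j.2, dif_pos j.2, Algebra.smul_def]
      exact mul_assoc _ _ _
    have h3 : (κ0 • (1 : L)) = (κ0 : L) := by
      rw [Algebra.smul_def, mul_one]
      rfl
    rw [h2, hz, h3]
    ring
  rw [h1]
  exact mul_mem (ev_mem G _) κ0.2

end Pool.Agent.Lib.MP_776403_ag.SD.UK
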