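import Pool.Agent.Lib.MP_776403_ag.SD.UK.Spec2

/-!
# `S_Mon`: the number of the monomials of bounded degree, independence of `l` over `ℂ(t)`
-/

set_option autoImplicit false

open MvPolynomial

noncomputable section

namespace Pool.Agent.Lib.MP_776403_ag.SD.UK

namespace MonAux

/-- The number of the exponents. -/
theorem card_le (s d : ℕ) :
    Nat.card {α : Fin (s + 1) →₀ ℕ // α.degree ≤ d} = (s + 1 + d).choose (s + 1) := by
  classical
  let T : Finset (Fin (s + 1) →₀ ℕ) := (Finset.range (d + 1)).biUnion
    fun k => (Finset.univ : Finset (Fin (s + 1))).finsuppAntidiag k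
  have hT : ∀ p : Fin (s + 1) →₀ ℕ, p ∈ T ↔ p.degree ≤ d := by
    intro p
    have h0 : p.degree = ∑ i, p i := Finsupp.degree_eq_sum p
    rw [h0]
    simp only [T, Finset.mem_biUnion, Finset.mem_range, Finset.mem_finsuppAntidiag]
    constructor
    · rintro ⟨a, ha, h, -⟩
      exact (le_of_eq h).trans (by omega)
    · intro h
      exact ⟨∑ i, p i, by omega, rfl, Finset.subset_univ _⟩
  have h1 : Nat.card {α : Fin (s + 1) →₀ ℕ // α.degree ≤ d} = Nat.card {p // p ∈ T} :=
    Nat.card_congr ((Equiv.refl _).subtypeEquiv fun n => (hT n).symm)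
  rw [h1, Nat.card_eq_fintype_card, Fintype.card_coe]
  have h3 : T.card = ∑ k ∈ Finset.range (d + 1), (k + s).choose s := by
    rw [Finset.card_biUnion]
    · refine Finset.sum_congr rfl fun k _ => ?_
      rw [Finset.card_finsuppAntidiag_nat_eq_choose, Finset.card_univ, Fintype.card_fin]
      have h4 : s + 1 + k - 1 = k + s := by omega
      rw [h4]
      exact Nat.choose_symm_add
    · intro a _ b _ hab
      refine Finset.disjoint_left.2 ?_
      intro p hp hq
      rw [Finset.mem_finsuppAntidiag] at hp hq
      exact hab (hp.1.symm.trans hq.1)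
  rw [h3, Nat.sum_range_add_choose]
  have h5 : d + s + 1 = s + 1 + d := by ring
  rw [h5]

/-- The number of the exponents, all `n`. -/
theorem card_all (n d : ℕ) :
    Nat.card {α : Fin n →₀ ℕ // α.degree ≤ d} = (n + d).choose n := by
  cases n with
  | succ s => exact card_le s d
  | zero =>
    rw [Nat.choose_zero_right]
    have h1 : Unique {α : Fin 0 →₀ ℕ // α.degree ≤ d} :=
      { default := ⟨0, by simp⟩
        uniq := fun a => Subtype.ext (Subsingleton.elim _ _) }
    exact Nat.card_unique

open scoped IntermediateField.algebraAdjoinAdjoin in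
/-- Independence over the field of fractions. -/
theorem ext {σ τ L : Type} [Field L] [Algebra ℂ L] (t : σ → L) (l : τ → L)
    (h : AlgebraicIndependent ℂ (Sum.elim t l)) :
    AlgebraicIndependent (IntermediateField.adjoin ℂ (Set.range t)) l := by
  have h1 : AlgebraicIndependent ℂ (Sum.elim l t) := by
    have h2 : Sum.elim t l ∘ (Equiv.sumComm τ σ) = Sum.elim l t := by
      funext o
      rcases o with o | o <;> rfl
    rw [← h2]
    exact (algebraicIndependent_equiv (Equiv.sumComm τ σ)).2 h
  have h3 := (AlgebraicIndependent.sumElim_iff.1 h1).2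
  have h4 : Algebra.IsAlgebraic (Algebra.adjoin ℂ (Set.range t))
      (IntermediateField.adjoin ℂ (Set.range t)) :=
    IsLocalization.isAlgebraic _ (nonZeroDivisors (Algebra.adjoin ℂ (Set.range t)))
  exact h3.extendScalars _

end MonAux

open MonAux in
theorem uMon : S_Alg → S_Mon := by
  intro hA
  refine ⟨card_all, fun n c m0 L _ _ G hG => ?_⟩
  exact ext G.t G.l (hA n c m0 L G hG).2

end Pool.Agent.Lib.MP_776403_ag.SD.UK
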