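import Pool.Agent.Lib.MP_776403_ag.SD.UK.Spec

/-!
# `S_ND`: the generic fibre spans, or `KV = L`
-/

set_option autoImplicit false

open MvPolynomial

noncomputable section

namespace Pool.Agent.Lib.MP_776403_ag.SD.UK

namespace NDAux

variable {n c m0 : ℕ} {L : Type} [Field L] [Algebra ℂ L] (G : Gen n c L)

/-- `t`, `l` are in `K`. -/
theorem memK (o : (Fin n × Fin c) ⊕ Fin n) : Sum.elim G.t G.l o ∈ G.K :=
  IntermediateField.subset_adjoin ℂ _ ⟨o, rfl⟩

/-- If all `z_j` are in `K` then `K = L`. -/
theorem topK (hG : G.Ok m0) (hz : ∀ j, G.z j ∈ G.K) (x : L) : x ∈ G.K := by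
  have ht : ∀ p, G.t p ∈ G.K := fun p => memK G (Sum.inl p)
  have hl : ∀ i, G.l i ∈ G.K := fun i => memK G (Sum.inr i)
  have hy : ∀ i, G.y i ∈ G.K := by
    intro i
    have h1 : G.y i = G.l i - ∑ j, G.t (i, j) * G.z j := by
      unfold Gen.l
      ring
    rw [h1]
    exact sub_mem (hl i) (sum_mem fun j _ => mul_mem (ht _) (hz j))
  have h2 : IntermediateField.adjoin ℂ (Set.range G.y ∪ Set.range G.z ∪ Set.range G.t) ≤ G.K := by
    rw [IntermediateField.adjoin_le_iff]
    rintro u ((⟨i, rfl⟩ | ⟨j, rfl⟩) | ⟨p, rfl⟩)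
    · exact hy i
    · exact hz j
    · exact ht p
  rw [hG.gen] at h2
  exact h2 trivial

/-- `KV` is spanned by `zz`. -/
theorem kv : G.KV = Submodule.span G.K (Set.range (zz G)) := by
  unfold Gen.KV
  apply congrArg
  ext x
  constructor
  · rintro (rfl | ⟨j, rfl⟩)
    · exact ⟨none, rfl⟩
    · exact ⟨some j, rfl⟩
  · rintro ⟨o, rfl⟩
    cases o with
    | none => exact Or.inl rfl
    | some j => exact Or.inr ⟨j, rfl⟩

end NDAux

open NDAux in
theorem uND : S_Ct → S_ND := by
  classical
  intro hCt n c m0 L _ _ G hG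
  by_cases hKV : G.KV = ⊤
  · exact Or.inr hKV
  left
  have h0 : LinearIndepOn G.K (zz G) {none} :=
    LinearIndepOn.singleton (one_ne_zero : (zz G none) ≠ 0)
  obtain ⟨b, -, hb1, hb2, hb3⟩ := exists_linearIndepOn_extension h0 (Set.subset_univ _)
  have hnb : none ∈ b := hb1 rfl
  by_cases hbu : b = Set.univ
  · rw [hbu] at hb3
    have h1 : LinearIndependent G.K (zz G) := linearIndepOn_univ_iff.1 hb3
    rw [kv, finrank_span_eq_card h1]
    simp
  exfalso
  obtain ⟨o, ho⟩ := (Set.ne_univ_iff_exists_notMem b).1 hbu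
  obtain ⟨j1, rfl⟩ : ∃ j1, o = some j1 := by
    cases o with
    | none => exact absurd hnb ho
    | some j => exact ⟨j, rfl⟩
  set J : Finset (Fin c) := Finset.univ.filter fun j => some j ∈ b with hJ
  have hmJ : ∀ j, j ∈ J ↔ some j ∈ b := fun j => by rw [hJ, Finset.mem_filter]; simp
  have him : zz G '' b ⊆ insert 1 (G.z '' (J : Set (Fin c))) := by
    rintro x ⟨o, hob, rfl⟩
    cases o with
    | none => exact Or.inl rfl
    | some j => exact Or.inr ⟨j, (hmJ j).2 hob, rfl⟩
  have hsp : ∀ j : Fin c, G.z j ∈ Submodule.span G.K (insert 1 (G.z '' (J : Set (Fin c)))) := by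
    intro j
    have h1 : zz G (some j) ∈ Submodule.span G.K (zz G '' b) := hb2 ⟨some j, trivial, rfl⟩
    exact Submodule.span_mono him h1
  by_cases hJe : J.Nonempty
  · refine hCt n c m0 L G hG hKV J j1 (fun h => ho ((hmJ j1).1 h)) hJe ?_ (hsp j1)
    let f : Option J → b := fun o => ⟨o.map Subtype.val, by
      cases o with
      | none => exact hnb
      | some j => exact (hmJ j.1).1 j.2⟩
    have hf : Function.Injective f := by
      intro o o' h
      have h1 : o.map Subtype.val = o'.map Subtype.val := congrArg Subtype.val h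
      exact Option.map_injective Subtype.val_injective h1
    exact LinearIndependent.comp hb3 f hf
  · rw [Finset.not_nonempty_iff_eq_empty] at hJe
    apply hKV
    have hz : ∀ j, G.z j ∈ G.K := by
      intro j
      have h1 := hsp j
      rw [hJe] at h1
      simp only [Finset.coe_empty, Set.image_empty, insert_empty_eq] at h1
      obtain ⟨a, ha⟩ := Submodule.mem_span_singleton.1 h1
      rw [← ha]
      have h2 : a • (1 : L) = (a : L) := by
        rw [IntermediateField.smul_def, smul_eq_mul, mul_one]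
      rw [h2]
      exact a.2
    rw [eq_top_iff]
    intro x _
    have hx := topK G hG hz x
    have h1 : (1 : L) ∈ G.KV := Submodule.subset_span (Or.inl rfl)
    have h2 := G.KV.smul_mem (⟨x, hx⟩ : G.K) h1
    rw [IntermediateField.smul_def, smul_eq_mul, mul_one] at h2
    exact h2

end Pool.Agent.Lib.MP_776403_ag.SD.UK
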