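import Pool.Agent.Lib.MP_776403_ag.SD.UK.Spec2

/-!
# The Castelnuovo bound: comparison of the second coefficients

`uNm : S_Nm`.  The main lemma: if `(1 - X)^(k+1) G = r` with a polynomial `r`, then the `m`-th coefficient of `G` divided by
`m ^ k` tends to `r(1) / k!`.
-/

set_option autoImplicit false

open MvPolynomial

noncomputable section

namespace Pool.Agent.Lib.MP_776403_ag.SD.UK

namespace NmAux

open Filter Topology

/-- `binom (s m) k / m ^ k` tends to `1 / k!` if `s m / m` tends to `1` -/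
lemma tch (k : ℕ) (s : ℕ → ℕ) (hs : Tendsto s atTop atTop)
    (h1 : Tendsto (fun m : ℕ => (s m : ℝ) / m) atTop (𝓝 1)) :
    Tendsto (fun m : ℕ => ((s m).choose k : ℝ) / (m : ℝ) ^ k) atTop (𝓝 (1 / (k.factorial : ℝ))) := by
  have e := (isEquivalent_choose k)
  have hf : ∀ᶠ n : ℕ in atTop, ((n : ℝ) ^ k / (k.factorial : ℝ)) ≠ 0 := by
    filter_upwards [eventually_ge_atTop 1] with n hn
    have : (0 : ℝ) < n := by exact_mod_cast hn
    positivity
  have h2 := ((Asymptotics.isEquivalent_iff_tendsto_one hf).1 e).comp hs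
  have h3 := (h2.mul (h1.pow k)).mul_const (1 / (k.factorial : ℝ))
  simp only [one_pow, one_mul, mul_one] at h3
  refine h3.congr' ?_
  filter_upwards [eventually_ge_atTop 1, hs.eventually (eventually_ge_atTop 1)] with m hm hsm
  have m0 : (0 : ℝ) < m := by exact_mod_cast hm
  have s0 : (0 : ℝ) < s m := by exact_mod_cast hsm
  have k0 : (0 : ℝ) < k.factorial := by exact_mod_cast k.factorial_pos
  simp only [Function.comp_apply, Pi.div_apply, div_pow]
  field_simp

lemma tsub (k i : ℕ) :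
    Tendsto (fun m : ℕ => ((k + (m - i)).choose k : ℝ) / (m : ℝ) ^ k) atTop (𝓝 (1 / (k.factorial : ℝ))) := by
  refine tch k (fun m => k + (m - i)) ?_ ?_
  · exact tendsto_atTop_mono (fun m => Nat.le_add_left _ _) (tendsto_sub_atTop_nat i)
  · have h1 : Tendsto (fun m : ℕ => 1 + ((k : ℝ) - i) / m) atTop (𝓝 (1 + 0)) :=
      tendsto_const_nhds.add (tendsto_const_div_atTop_nhds_zero_nat _)
    rw [add_zero] at h1
    refine h1.congr' ?_
    filter_upwards [eventually_ge_atTop (i + 1)] with m hm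
    have m0 : (0 : ℝ) < m := by
      have : 0 < m := by omega
      exact_mod_cast this
    rw [Nat.cast_add, Nat.cast_sub (by omega : i ≤ m)]
    field_simp
    ring

lemma tadd (k d : ℕ) :
    Tendsto (fun m : ℕ => ((k + (m + d)).choose k : ℝ) / (m : ℝ) ^ k) atTop (𝓝 (1 / (k.factorial : ℝ))) := by
  refine tch k (fun m => k + (m + d)) ?_ ?_
  · exact tendsto_atTop_mono (f := fun m : ℕ => m) (fun m => (by omega : m ≤ k + (m + d))) tendsto_id
  · have h1 : Tendsto (fun m : ℕ => 1 + ((k : ℝ) + d) / m) atTop (𝓝 (1 + 0)) :=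
      tendsto_const_nhds.add (tendsto_const_div_atTop_nhds_zero_nat _)
    rw [add_zero] at h1
    refine h1.congr' ?_
    filter_upwards [eventually_ge_atTop 1] with m hm
    have m0 : (0 : ℝ) < m := by exact_mod_cast hm
    push_cast
    field_simp
    ring

open PowerSeries in
/-- the coefficients of `r / (1 - X)^(k+1)` -/
lemma tgf (k : ℕ) (G : PowerSeries ℤ) (r : Polynomial ℤ) (h : (1 - PowerSeries.X) ^ (k + 1) * G = (r : PowerSeries ℤ)) :
    Tendsto (fun m : ℕ => ((PowerSeries.coeff m G : ℤ) : ℝ) / (m : ℝ) ^ k) atTop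
      (𝓝 (((r.eval 1 : ℤ) : ℝ) * (1 / (k.factorial : ℝ)))) := by
  have hG : G = (r : PowerSeries ℤ) * (PowerSeries.mk fun n => ((k + n).choose k : ℤ)) := by
    rw [← h]
    have := PowerSeries.mk_add_choose_mul_one_sub_pow_eq_one (S := ℤ) (d := k)
    calc G = ((PowerSeries.mk fun n => ((k + n).choose k : ℤ)) * (1 - PowerSeries.X) ^ (k + 1)) * G := by
          rw [this, one_mul]
      _ = (1 - PowerSeries.X) ^ (k + 1) * G * (PowerSeries.mk fun n => ((k + n).choose k : ℤ)) := by ring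
  have hc : ∀ m : ℕ, r.natDegree ≤ m → PowerSeries.coeff m G =
      ∑ i ∈ Finset.range (r.natDegree + 1), r.coeff i * ((k + (m - i)).choose k : ℤ) := by
    intro m hm
    have hr : (r : PowerSeries ℤ) = ∑ i ∈ Finset.range (r.natDegree + 1), PowerSeries.C (r.coeff i) * PowerSeries.X ^ i := by
      conv_lhs => rw [r.as_sum_range_C_mul_X_pow]
      rw [← Polynomial.coeToPowerSeries.ringHom_apply, map_sum]
      refine Finset.sum_congr rfl fun i _ => ?_
      rw [Polynomial.coeToPowerSeries.ringHom_apply, Polynomial.coe_mul, Polynomial.coe_pow, Polynomial.coe_X,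
        Polynomial.coe_C]
    rw [hG, hr, Finset.sum_mul, map_sum]
    refine Finset.sum_congr rfl fun i hi => ?_
    rw [Finset.mem_range] at hi
    rw [mul_assoc, PowerSeries.coeff_C_mul, PowerSeries.coeff_X_pow_mul', if_pos (by omega), PowerSeries.coeff_mk]
  have h1 : Tendsto (fun m : ℕ => ∑ i ∈ Finset.range (r.natDegree + 1),
      ((r.coeff i : ℤ) : ℝ) * (((k + (m - i)).choose k : ℝ) / (m : ℝ) ^ k)) atTop
      (𝓝 (∑ i ∈ Finset.range (r.natDegree + 1), ((r.coeff i : ℤ) : ℝ) * (1 / (k.factorial : ℝ)))) :=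
    tendsto_finsetSum _ fun i _ => (tsub k i).const_mul _
  have h2 : (((r.eval 1 : ℤ) : ℝ) * (1 / (k.factorial : ℝ))) =
      ∑ i ∈ Finset.range (r.natDegree + 1), ((r.coeff i : ℤ) : ℝ) * (1 / (k.factorial : ℝ)) := by
    rw [← Finset.sum_mul, Polynomial.eval_eq_sum_range]
    push_cast
    simp
  rw [h2]
  refine h1.congr' ?_
  filter_upwards [eventually_ge_atTop r.natDegree] with m hm
  rw [hc m hm]
  push_cast
  rw [Finset.sum_div]
  exact Finset.sum_congr rfl fun i _ => (mul_div_assoc _ _ _).symm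

lemma tlt (g : ℕ → ℝ) (a b : ℕ) (x : ℝ) (hab : a < b) (h : Tendsto (fun m : ℕ => g m / (m : ℝ) ^ a) atTop (𝓝 x)) :
    Tendsto (fun m : ℕ => g m / (m : ℝ) ^ b) atTop (𝓝 0) := by
  have h1 := h.mul ((tendsto_one_div_atTop_nhds_zero_nat (𝕜 := ℝ)).pow (b - a))
  rw [zero_pow (by omega), mul_zero] at h1
  refine h1.congr' ?_
  filter_upwards [eventually_ge_atTop 1] with m hm
  have m0 : (0 : ℝ) < m := by exact_mod_cast hm
  have e : (m : ℝ) ^ b = (m : ℝ) ^ a * (m : ℝ) ^ (b - a) := by
    rw [← pow_add]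
    congr 1
    omega
  rw [e, div_pow, one_pow]
  field_simp

lemma one_sub_ne : (1 - PowerSeries.X : PowerSeries ℤ) ≠ 0 := by
  intro h
  have := congrArg (PowerSeries.coeff 0) h
  simp at this

end NmAux

open Filter Topology NmAux in
/-- comparison of the second coefficients -/
theorem uNm : S_Nm := by
  intro N c n D D' δ f q0 jj hcN hD' hQ hq1 hD hlow hup
  obtain ⟨k, rfl⟩ : ∃ k, N = c + (k + 1) := ⟨N - c - 1, by omega⟩
  have hG : (1 - PowerSeries.X) ^ (k + 1 + 1) * ps f = (q0 : PowerSeries ℤ) := by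
    unfold QP at hQ
    rw [Polynomial.coe_mul, Polynomial.coe_pow, Polynomial.coe_sub, Polynomial.coe_one, Polynomial.coe_X,
      show c + (k + 1) + 1 = c + (k + 1 + 1) by ring, pow_add, mul_assoc] at hQ
    exact mul_left_cancel₀ (pow_ne_zero _ one_sub_ne) hQ
  have hcf : ∀ m, PowerSeries.coeff m (ps f) = (f m : ℤ) := fun m => PowerSeries.coeff_mk _ _
  have D0 : (0 : ℝ) < D := by exact_mod_cast hD
  have D'0 : (0 : ℝ) < D' := by exact_mod_cast hD'
  have hjm : ∀ᶠ m : ℕ in atTop, ∀ i, jj i ≤ m := by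
    filter_upwards [eventually_ge_atTop (∑ i, jj i)] with m hm i
    exact (Finset.single_le_sum (fun i _ => Nat.zero_le (jj i)) (Finset.mem_univ i)).trans hm
  have t1 : Tendsto (fun m : ℕ => (f m : ℝ) / (m : ℝ) ^ (k + 1)) atTop (𝓝 ((D : ℝ) * (1 / ((k + 1).factorial : ℝ)))) := by
    have := tgf (k + 1) (ps f) q0 hG
    rw [hq1] at this
    simpa [hcf] using this
  have t2 : Tendsto (fun m : ℕ => (∑ i, ((n + (m - jj i)).choose n : ℝ)) / (m : ℝ) ^ n) atTop
      (𝓝 ((D' : ℝ) * (1 / (n.factorial : ℝ)))) := by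
    have h1 : Tendsto (fun m : ℕ => ∑ i, ((n + (m - jj i)).choose n : ℝ) / (m : ℝ) ^ n) atTop
        (𝓝 (∑ _i : Fin D', (1 / (n.factorial : ℝ)))) := tendsto_finsetSum _ fun i _ => tsub n (jj i)
    rw [Finset.sum_const, Finset.card_univ, Fintype.card_fin, nsmul_eq_mul] at h1
    exact h1.congr fun m => (Finset.sum_div _ _ _).symm
  have t3 : Tendsto (fun m : ℕ => ((D' : ℝ) * ((n + (m + δ)).choose n : ℝ)) / (m : ℝ) ^ n) atTop
      (𝓝 ((D' : ℝ) * (1 / (n.factorial : ℝ)))) :=
    ((tadd n δ).const_mul (D' : ℝ)).congr fun m => (mul_div_assoc _ _ _).symm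
  have t4 : Tendsto (fun m : ℕ => (f m : ℝ) / (m : ℝ) ^ n) atTop (𝓝 ((D' : ℝ) * (1 / (n.factorial : ℝ)))) := by
    refine tendsto_of_tendsto_of_tendsto_of_le_of_le' t2 t3 ?_ ?_
    · filter_upwards [hjm] with m hm
      refine div_le_div_of_nonneg_right ?_ (by positivity)
      exact_mod_cast hlow m hm
    · refine Eventually.of_forall fun m => ?_
      refine div_le_div_of_nonneg_right ?_ (by positivity)
      exact_mod_cast hup m
  have hn : n = k + 1 := by
    rcases lt_trichotomy n (k + 1) with h | h | h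
    · exfalso
      have h1 := tendsto_nhds_unique t1 (tlt _ n (k + 1) _ h t4)
      have : (0 : ℝ) < (D : ℝ) * (1 / ((k + 1).factorial : ℝ)) := by positivity
      linarith
    · exact h
    · exfalso
      have h1 := tendsto_nhds_unique t4 (tlt _ (k + 1) n _ h t1)
      have : (0 : ℝ) < (D' : ℝ) * (1 / (n.factorial : ℝ)) := by positivity
      linarith
  subst hn
  have hDD : D' = D := by
    have h1 := tendsto_nhds_unique t4 t1
    have h2 : (1 / ((k + 1).factorial : ℝ)) ≠ 0 := by positivity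
    exact_mod_cast mul_right_cancel₀ h2 h1
  refine ⟨by omega, hDD, ?_⟩
  -- the difference
  have hM := PowerSeries.mk_add_choose_mul_one_sub_pow_eq_one (S := ℤ) (d := k + 1)
  set M : PowerSeries ℤ := PowerSeries.mk fun n => ((k + 1 + n).choose (k + 1) : ℤ) with hMd
  set G : PowerSeries ℤ := ps f - ∑ i, PowerSeries.X ^ jj i * M with hGd
  set R : Polynomial ℤ := q0 - ∑ i, Polynomial.X ^ jj i with hRd
  have hR1 : R.IsRoot 1 := by
    rw [Polynomial.IsRoot, hRd, Polynomial.eval_sub, Polynomial.eval_finsetSum, hq1]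
    simp [hDD]
  obtain ⟨s, hs⟩ := Polynomial.dvd_iff_isRoot.2 hR1
  have hGR : (1 - PowerSeries.X) ^ (k + 1 + 1) * G = (R : PowerSeries ℤ) := by
    rw [hGd, hRd, mul_sub, hG, Finset.mul_sum, Polynomial.coe_sub]
    congr 1
    rw [← Polynomial.coeToPowerSeries.ringHom_apply, map_sum]
    refine Finset.sum_congr rfl fun i _ => ?_
    rw [Polynomial.coeToPowerSeries.ringHom_apply, Polynomial.coe_pow, Polynomial.coe_X]
    calc (1 - PowerSeries.X) ^ (k + 1 + 1) * (PowerSeries.X ^ jj i * M) =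
        PowerSeries.X ^ jj i * (M * (1 - PowerSeries.X) ^ (k + 1 + 1)) := by ring
      _ = PowerSeries.X ^ jj i := by rw [hM, mul_one]
  have hGs : (1 - PowerSeries.X) ^ (k + 1) * G = ((-s : Polynomial ℤ) : PowerSeries ℤ) := by
    refine mul_left_cancel₀ one_sub_ne ?_
    rw [← mul_assoc, ← pow_succ', hGR, hs, Polynomial.coe_mul, Polynomial.coe_sub, Polynomial.coe_X, Polynomial.coe_C,
      Polynomial.coe_neg]
    simp only [map_one]
    ring
  have t5 := tgf k G (-s) hGs
  have h6 : (0 : ℝ) ≤ (((-s).eval 1 : ℤ) : ℝ) * (1 / (k.factorial : ℝ)) := by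
    refine ge_of_tendsto t5 ?_
    filter_upwards [hjm] with m hm
    refine div_nonneg ?_ (by positivity)
    have h7 : PowerSeries.coeff m G = (f m : ℤ) - ∑ i, ((k + 1 + (m - jj i)).choose (k + 1) : ℤ) := by
      rw [hGd, map_sub, hcf, map_sum]
      congr 1
      refine Finset.sum_congr rfl fun i _ => ?_
      rw [PowerSeries.coeff_X_pow_mul', if_pos (hm i), hMd, PowerSeries.coeff_mk]
    rw [h7]
    have h8 := hlow m hm
    have h9 : (0 : ℤ) ≤ (f m : ℤ) - ∑ i, ((k + 1 + (m - jj i)).choose (k + 1) : ℤ) := by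
      have : ((∑ i, (k + 1 + (m - jj i)).choose (k + 1) : ℕ) : ℤ) ≤ (f m : ℤ) := by exact_mod_cast h8
      push_cast at this
      linarith
    exact_mod_cast h9
  have h10 : (0 : ℤ) ≤ (-s).eval 1 := by
    have k0 : (0 : ℝ) < 1 / (k.factorial : ℝ) := by positivity
    have := nonneg_of_mul_nonneg_left h6 k0
    exact_mod_cast this
  have h11 : (Polynomial.derivative R).eval 1 = s.eval 1 := by
    rw [hs, Polynomial.derivative_mul]
    simp
  have h12 : (Polynomial.derivative R).eval 1 = (Polynomial.derivative q0).eval 1 - ∑ i, (jj i : ℤ) := by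
    rw [hRd, Polynomial.derivative_sub, Polynomial.eval_sub, Polynomial.derivative_sum, Polynomial.eval_finsetSum]
    congr 1
    refine Finset.sum_congr rfl fun i _ => ?_
    rw [Polynomial.derivative_X_pow]
    simp
  rw [Polynomial.eval_neg] at h10
  push_cast
  linarith

end Pool.Agent.Lib.MP_776403_ag.SD.UK
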