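import Pool.Agent.Lib.MP_776403_ag.SD.UK.Spec2

/-!
# The Castelnuovo bound: the arithmetic (`S_Ns`)
-/

set_option autoImplicit false

open MvPolynomial

noncomputable section

namespace Pool.Agent.Lib.MP_776403_ag.SD.UK

namespace NsAux

theorem sum_lin (c e m : ℕ) :
    2 * ∑ i ∈ Finset.range (m + 1), (c * i + e) = (m + 1) * (c * m + 2 * e) := by
  induction m with
  | zero => simp
  | succ m ih =>
    rw [Finset.sum_range_succ, mul_add, ih]
    ring

theorem sum_trunc (c e m : ℕ) (he : e < c) :
    2 * ∑ j ∈ Finset.range (c * m + e + 1), (c * m + e + 1 - 1 - c * j) =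
      (m + 1) * (c * m + 2 * e) := by
  have hc : 1 ≤ c := by omega
  have hm : m ≤ c * m := by nlinarith
  have hsub : Finset.range (m + 1) ⊆ Finset.range (c * m + e + 1) := by
    intro x hx
    rw [Finset.mem_range] at hx ⊢
    omega
  rw [← Finset.sum_subset hsub, ← sum_lin c e m,
    ← Finset.sum_range_reflect (fun i => c * i + e) (m + 1)]
  · congr 1
    refine Finset.sum_congr rfl fun j hj => ?_
    rw [Finset.mem_range] at hj
    obtain ⟨k, rfl⟩ := Nat.exists_eq_add_of_le (Nat.lt_succ_iff.1 hj)
    have h1 : j + k + 1 - 1 - j = k := by omega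
    rw [h1, mul_add]
    omega
  · intro x _ hx
    rw [Finset.mem_range, not_lt] at hx
    have h1 : c * (m + 1) ≤ c * x := Nat.mul_le_mul_left c hx
    have h2 : c * (m + 1) = c * m + c := by ring
    omega

end NsAux

open NsAux in
theorem uNs : S_Ns := by
  intro c s D hc hD h hs
  by_contra hlt
  push Not at hlt
  obtain ⟨s', rfl⟩ : ∃ s', s = s' + 1 := ⟨s - 1, by omega⟩
  have hdm : c * ((D - 1) / c) + (D - 1) % c = D - 1 := Nat.div_add_mod (D - 1) c
  have he : (D - 1) % c < c := Nat.mod_lt _ (by omega)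
  generalize (D - 1) / c = m at hdm
  generalize (D - 1) % c = e at hdm he
  obtain rfl : D = c * m + e + 1 := by omega
  rw [sum_trunc c e m he] at h
  have h3 : s' + 1 - 1 = s' := by omega
  rw [h3] at hlt
  have hlt' : c * m + e ≤ c * s' := by
    have : s' * c = c * s' := mul_comm _ _
    omega
  rcases lt_trichotomy m s' with hm | hm | hm
  · have h4 : (c * m + e + 1) * (m + 2) ≤ (c * m + e + 1) * (s' + 1) :=
      Nat.mul_le_mul_left _ (by omega)
    obtain ⟨k, rfl⟩ := Nat.exists_eq_add_of_le (Nat.succ_le_iff.2 he)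
    nlinarith [Nat.zero_le (m * k), Nat.zero_le m]
  · subst hm
    have h5 : e = 0 := by omega
    subst h5
    nlinarith
  · have h6 : c * (s' + 1) ≤ c * m := Nat.mul_le_mul_left c hm
    have h7 : c * (s' + 1) = c * s' + c := by ring
    omega

end Pool.Agent.Lib.MP_776403_ag.SD.UK
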