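import Pool.Agent.Lib.MP_776403_ag.SD.UK.Spec

/-!
# The Castelnuovo bound: no intermediate fields
-/

set_option autoImplicit false

open MvPolynomial

noncomputable section

namespace Pool.Agent.Lib.MP_776403_ag.SD.UK

namespace PEAux

theorem fact {F L : Type} [Field F] [Field L] [Algebra F L] [Algebra.IsAlgebraic F L] [CharZero F] (v : L)
    (h : ∀ σ : L →ₐ[F] AlgebraicClosure L, σ v = algebraMap L (AlgebraicClosure L) v) :
    v ∈ (algebraMap F L).range := by
  have hint : IsIntegral F v := Algebra.IsIntegral.isIntegral v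
  have hsep : (minpoly F v).Separable := (minpoly.irreducible hint).separable
  have hspl : ((minpoly F v).map (algebraMap F (AlgebraicClosure L))).Splits := IsAlgClosed.splits _
  have hcard := Polynomial.card_rootSet_eq_natDegree hsep hspl
  have hrange := Algebra.IsAlgebraic.range_eval_eq_rootSet_minpoly (F := F) (K := L) (AlgebraicClosure L) v
  have hroot : ∀ r ∈ (minpoly F v).rootSet (AlgebraicClosure L), r = algebraMap L (AlgebraicClosure L) v := by
    rw [← hrange]
    rintro _ ⟨σ, rfl⟩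
    exact h σ
  have hv : algebraMap L (AlgebraicClosure L) v ∈ (minpoly F v).rootSet (AlgebraicClosure L) := by
    rw [← hrange]
    exact ⟨IsScalarTower.toAlgHom F L _, rfl⟩
  rw [← minpoly.natDegree_eq_one_iff, ← hcard, Fintype.card_eq_one_iff]
  exact ⟨⟨_, hv⟩, fun r => Subtype.ext (hroot r.1 r.2)⟩

end PEAux

open PEAux in
theorem uPE : S_Alg → S_Emj → S_Tht → S_Tr → S_PE := by
  intro hAlg hEmj hTht hTr n c m0 L _ _ G hG M
  have hfin := (hAlg n c m0 L G hG).1
  have hL0 : CharZero L := charZero_of_injective_algebraMap (algebraMap ℂ L).injective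
  have hK0 : CharZero G.K := charZero_of_injective_algebraMap (algebraMap ℂ G.K).injective
  have hM0 : CharZero M := charZero_of_injective_algebraMap (algebraMap G.K M).injective
  have halg : Algebra.IsAlgebraic G.K L := Algebra.IsAlgebraic.of_finite G.K L
  have halgM : Algebra.IsAlgebraic M L := Algebra.IsAlgebraic.tower_top (K := G.K) M
  by_cases hM : M = ⊤
  · exact Or.inr hM
  left
  obtain ⟨v, hv⟩ : ∃ v, v ∉ M := by
    by_contra h0
    push Not at h0
    exact hM (eq_top_iff.2 fun x _ => h0 x)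
  -- an embedding which fixes `M` and not `v`
  obtain ⟨σ, hσ⟩ : ∃ σ : L →ₐ[M] AlgebraicClosure L, σ v ≠ algebraMap L (AlgebraicClosure L) v := by
    by_contra h0
    push Not at h0
    obtain ⟨w, hw⟩ := fact v h0
    exact hv (hw ▸ w.2)
  have hKM : ∀ x ∈ G.K, x ∈ M := fun x hx => M.algebraMap_mem ⟨x, hx⟩
  have hσM : ∀ x ∈ M, σ x = algebraMap L (AlgebraicClosure L) x := fun x hx => σ.commutes ⟨x, hx⟩
  let ψ : L →ₐ[ℂ] AlgebraicClosure L :=
    { σ.toRingHom with
      commutes' := fun r => (hσM _ (hKM _ (G.K.algebraMap_mem r))).trans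
        (IsScalarTower.algebraMap_apply ℂ L (AlgebraicClosure L) r).symm }
  have hψσ : ∀ x, ψ x = σ x := fun _ => rfl
  have hE : G.Emb ψ := ⟨fun x hx => hσM x (hKM x hx), fun h0 => hσ (by
    rw [← hψσ, h0]
    rfl)⟩
  obtain ⟨j0, hj0⟩ := hEmj n c m0 L G hG ψ hE
  refine le_bot_iff.1 fun u hu => ?_
  rw [IntermediateField.mem_bot]
  refine fact u fun σ' => ?_
  have hσK : ∀ x ∈ G.K, σ' x = algebraMap L (AlgebraicClosure L) x := fun x hx => σ'.commutes ⟨x, hx⟩
  let ψ' : L →ₐ[ℂ] AlgebraicClosure L :=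
    { σ'.toRingHom with
      commutes' := fun r => (hσK _ (G.K.algebraMap_mem r)).trans
        (IsScalarTower.algebraMap_apply ℂ L (AlgebraicClosure L) r).symm }
  have hψσ' : ∀ x, ψ' x = σ' x := fun _ => rfl
  rw [← hψσ']
  by_cases hne : ψ' = IsScalarTower.toAlgHom ℂ L (AlgebraicClosure L)
  · rw [hne]
    rfl
  · have hE' : G.Emb ψ' := ⟨hσK, hne⟩
    have h1 := hTht n c m0 L G hG ψ hE j0
    have h2 := hTht n c m0 L G hG ψ' hE' j0
    exact hTr n c m0 L G hG ψ ψ' j0 hE.fix hE'.fix h1.1 h2.1 h1.2 h2.2 u (hσM u hu)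

end Pool.Agent.Lib.MP_776403_ag.SD.UK
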