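import Pool.Agent.Lib.MP_776403_ag.SD.UK.Spec

/-!
# The Castelnuovo bound: `S_Pt`, points of an affine domain over `ℂ` not on a hypersurface (helper3)
-/

set_option autoImplicit false

open MvPolynomial

noncomputable section

namespace Pool.Agent.Lib.MP_776403_ag.SD.UK

theorem uPt : S_Pt := by
  intro A _ _ _ _ a ha
  have hft : Algebra.FiniteType ℂ (Localization.Away a) := inferInstance
  have hnt : Nontrivial (Localization.Away a) := by
    have hle : Submonoid.powers a ≤ nonZeroDivisors A :=
      powers_le_nonZeroDivisors_of_noZeroDivisors ha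
    exact (IsLocalization.injective (Localization.Away a) hle).nontrivial
  obtain ⟨m, hm⟩ := Ideal.exists_maximal (Localization.Away a)
  let _ : Field (Localization.Away a ⧸ m) := Ideal.Quotient.field m
  have hft2 : Algebra.FiniteType ℂ (Localization.Away a ⧸ m) :=
    Algebra.FiniteType.of_surjective (Ideal.Quotient.mkₐ ℂ m) (Ideal.Quotient.mkₐ_surjective ℂ m)
  have hfin : Module.Finite ℂ (Localization.Away a ⧸ m) :=
    finite_of_finite_type_of_isJacobsonRing ℂ (Localization.Away a ⧸ m)
  have hint : Algebra.IsIntegral ℂ (Localization.Away a ⧸ m) := inferInstance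
  have hbij : Function.Bijective (algebraMap ℂ (Localization.Away a ⧸ m)) :=
    IsAlgClosed.algebraMap_bijective_of_isIntegral
  let e : ℂ ≃ₐ[ℂ] (Localization.Away a ⧸ m) :=
    AlgEquiv.ofBijective (Algebra.ofId ℂ (Localization.Away a ⧸ m)) hbij
  let φ : A →ₐ[ℂ] ℂ := (e.symm : (Localization.Away a ⧸ m) →ₐ[ℂ] ℂ).comp
    ((Ideal.Quotient.mkₐ ℂ m).comp (IsScalarTower.toAlgHom ℂ A (Localization.Away a)))
  refine ⟨φ, ?_⟩
  have hu : IsUnit (algebraMap A (Localization.Away a) a) :=
    IsLocalization.Away.algebraMap_isUnit a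
  have hu2 : IsUnit (φ a) := by
    show IsUnit (e.symm (Ideal.Quotient.mk m (algebraMap A (Localization.Away a) a)))
    exact (hu.map (Ideal.Quotient.mk m)).map (e.symm : (Localization.Away a ⧸ m) →ₐ[ℂ] ℂ)
  exact hu2.ne_zero

end Pool.Agent.Lib.MP_776403_ag.SD.UK
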