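import Pool.Agent.Lib.MP_776403_ag.SD.UK.Spec

/-!
# The Castelnuovo bound: the stabilizer of `1, z` (proof of `S_St`)
-/

set_option autoImplicit false

open MvPolynomial

noncomputable section

namespace Pool.Agent.Lib.MP_776403_ag.SD.UK

namespace StAux

variable {n c : ℕ} {L : Type} [Field L] [Algebra ℂ L]

theorem ev_mem (G : Gen n c L) (p : Gen.P n c) : G.ev p ∈ G.K := by
  induction p using MvPolynomial.induction_on with
  | C a =>
    rw [Gen.ev, aeval_C]
    exact G.K.algebraMap_mem a
  | add p q hp hq => rw [map_add]; exact add_mem hp hq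
  | mul_X p s hp =>
    rw [map_mul]
    refine mul_mem hp ?_
    rw [Gen.ev, aeval_X]
    exact IntermediateField.subset_adjoin ℂ _ ⟨s, rfl⟩

theorem zz_mem (G : Gen n c L) (o : Option (Fin c)) : zz G o ∈ G.KV := by
  cases o with
  | none => exact Submodule.subset_span (Set.mem_insert _ _)
  | some k => exact Submodule.subset_span (Set.mem_insert_of_mem _ ⟨k, rfl⟩)

theorem sum_mem' (G : Gen n c L) (f : Option (Fin c) → Gen.P n c) :
    ∑ o, G.ev (f o) * zz G o ∈ G.KV := by
  refine Submodule.sum_mem _ fun o _ => ?_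
  exact G.KV.smul_mem (⟨G.ev (f o), ev_mem G _⟩ : G.K) (zz_mem G o)

theorem stab (G : Gen n c L) (w : L) (h1 : w ∈ G.KV) (hz : ∀ k, G.z k * w ∈ G.KV) :
    ∀ v ∈ G.KV, w * v ∈ G.KV := by
  intro v hv
  induction hv using Submodule.span_induction with
  | mem x hx =>
    rcases hx with rfl | ⟨k, rfl⟩
    · rw [mul_one]; exact h1
    · rw [mul_comm]; exact hz k
  | zero => rw [mul_zero]; exact zero_mem _
  | add x y _ _ hx hy => rw [mul_add]; exact add_mem hx hy
  | smul a x _ hx => rw [mul_smul_comm]; exact G.KV.smul_mem a hx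

/-- The elements `h` with `h V ≤ V`. -/
def stabAlg {K M : Type} [Field K] [Field M] [Algebra K M] (V : Submodule K M) :
    Subalgebra K M where
  carrier := {h | ∀ v ∈ V, h * v ∈ V}
  mul_mem' := fun {a b} ha hb v hv => by rw [mul_assoc]; exact ha _ (hb v hv)
  add_mem' := fun {a b} ha hb v hv => by rw [add_mul]; exact V.add_mem (ha v hv) (hb v hv)
  algebraMap_mem' := fun r v hv => by rw [← Algebra.smul_def]; exact V.smul_mem r hv

theorem main {K M : Type} [Field K] [Field M] [Algebra K M] [FiniteDimensional K M]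
    (hPE : ∀ F : IntermediateField K M, F = ⊥ ∨ F = ⊤) (V : Submodule K M) (h1 : (1 : M) ∈ V)
    (hV : V ≠ ⊤) (w : M) (hw : ∀ v ∈ V, w * v ∈ V) : w ∈ (⊥ : IntermediateField K M) := by
  rcases hPE (IntermediateField.adjoin K {w}) with h | h
  · rw [← h]
    exact IntermediateField.mem_adjoin_simple_self K w
  · exfalso
    apply hV
    rw [eq_top_iff]
    intro x _
    have hle : Algebra.adjoin K {w} ≤ stabAlg V := by
      rw [Algebra.adjoin_le_iff, Set.singleton_subset_iff]
      exact hw
    have hx : x ∈ (IntermediateField.adjoin K {w}).toSubalgebra := by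
      rw [h]; exact IntermediateField.mem_top
    rw [IntermediateField.adjoin_simple_toSubalgebra_of_isAlgebraic
      (Algebra.IsAlgebraic.isAlgebraic w)] at hx
    have := hle hx 1 h1
    rwa [mul_one] at this

end StAux

open StAux in
theorem uSt : S_Alg → S_PE → S_Ch → S_St := by
  intro hAlg hPE hCh n c m0 L _ _ G hG hKV r hr i
  haveI : FiniteDimensional G.K L := (hAlg n c m0 L G hG).1
  have hw : ∑ o, G.ev (pderiv (Sum.inr i) (r o)) * zz G o ∈ G.KV := sum_mem' G _
  have hz : ∀ k, G.z k * ∑ o, G.ev (pderiv (Sum.inr i) (r o)) * zz G o ∈ G.KV := by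
    intro k
    have h := hCh n c m0 L G hG r hr i k
    rw [eq_neg_of_add_eq_zero_right h]
    exact neg_mem (sum_mem' G fun o => pderiv (Sum.inl (i, k)) (r o))
  have h := main (hPE n c m0 L G hG) G.KV (zz_mem G none) hKV _ (stab G _ hw hz)
  obtain ⟨x, hx⟩ := IntermediateField.mem_bot.mp h
  rw [← hx]
  exact x.2

end Pool.Agent.Lib.MP_776403_ag.SD.UK
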