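import Pool.Agent.Lib.MP_776403_ag.SD.UK.Spec2

/-!
# The Castelnuovo bound: a sum
-/

set_option autoImplicit false

open MvPolynomial

noncomputable section

namespace Pool.Agent.Lib.MP_776403_ag.SD.UK

theorem uSum : S_Sum := by
  intro D c J jj hc hJ hm
  have h1 : ∀ i, jj i = ∑ j ∈ Finset.range J, if j < jj i then 1 else 0 := by
    intro i
    rw [← Finset.card_filter]
    have : (Finset.range J).filter (fun j => j < jj i) = Finset.range (jj i) := by
      ext j
      simp only [Finset.mem_filter, Finset.mem_range]
      have := hJ i
      omega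
    rw [this, Finset.card_range]
  have h2 : ∑ i, jj i = ∑ j ∈ Finset.range J, (Finset.univ.filter fun i => j < jj i).card := by
    calc ∑ i, jj i = ∑ i, ∑ j ∈ Finset.range J, (if j < jj i then 1 else 0) :=
          Finset.sum_congr rfl fun i _ => h1 i
      _ = ∑ j ∈ Finset.range J, ∑ i, (if j < jj i then 1 else 0) := Finset.sum_comm
      _ = _ := Finset.sum_congr rfl fun j _ => (Finset.card_filter _ _).symm
  have h3 : ∀ j : ℕ, (Finset.univ.filter fun i => j < jj i).card ≤ D - 1 - c * j := by
    intro j
    have e1 : (Finset.univ.filter fun i => jj i ≤ j).card +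
        (Finset.univ.filter fun i => j < jj i).card = D := by
      have := Finset.card_filter_add_card_filter_not (s := (Finset.univ : Finset (Fin D)))
        (fun i => jj i ≤ j)
      simp only [not_le, Finset.card_univ, Fintype.card_fin] at this
      exact this
    have e2 := hm j
    have e3 : j * c = c * j := Nat.mul_comm _ _
    rw [e3] at e2
    generalize c * j = a at *
    omega
  rw [h2]
  calc ∑ j ∈ Finset.range J, (Finset.univ.filter fun i => j < jj i).card
      ≤ ∑ j ∈ Finset.range J, (D - 1 - c * j) := Finset.sum_le_sum fun j _ => h3 j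
    _ ≤ ∑ j ∈ Finset.range (max D J), (D - 1 - c * j) :=
        Finset.sum_le_sum_of_subset (Finset.range_mono (le_max_right _ _))
    _ = ∑ j ∈ Finset.range D, (D - 1 - c * j) := by
        symm
        apply Finset.sum_subset (Finset.range_mono (le_max_left _ _))
        intro j _ hj
        have hj' : D ≤ j := by simpa using hj
        have : j ≤ c * j := Nat.le_mul_of_pos_left _ hc
        omega

end Pool.Agent.Lib.MP_776403_ag.SD.UK
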