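import Pool.Agent.Lib.MP_776403_ag.SD.UK.Spec

/-!
# The Castelnuovo bound: `tht` is injective for every embedding (`S_Tht`)
-/

set_option autoImplicit false

open MvPolynomial

noncomputable section

namespace Pool.Agent.Lib.MP_776403_ag.SD.UK

namespace ThtAux

/-- If `1, z` are independent over a field `k` then `z ⊗ 1 ≠ 1 ⊗ z`. -/
theorem tmul_ne {k A : Type} [Field k] [CommRing A] [Algebra k A] [Nontrivial A] (z : A)
    (hz : z ∉ Submodule.span k ({1} : Set A)) :
    (TensorProduct.tmul k z (1 : A) : TensorProduct k A A) ≠ TensorProduct.tmul k (1 : A) z := by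
  intro h
  obtain ⟨f, hf, hf1⟩ := Submodule.exists_dual_map_eq_bot_of_notMem hz inferInstance
  have h1 : f 1 = 0 := by
    have hmem : f 1 ∈ (Submodule.span k ({1} : Set A)).map f :=
      Submodule.mem_map_of_mem (Submodule.subset_span rfl)
    rw [hf1] at hmem
    simpa using hmem
  have h2 := congrArg (fun u => TensorProduct.lid k A (TensorProduct.map f LinearMap.id u)) h
  simp only [TensorProduct.map_tmul, LinearMap.id_coe, id_eq, TensorProduct.lid_tmul, h1,
    zero_smul] at h2
  rcases smul_eq_zero.1 h2 with h3 | h3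
  · exact hf h3
  · exact one_ne_zero h3

theorem notMem {n c m0 : ℕ} {L : Type} [Field L] [Algebra ℂ L] {G : Gen n c L} (hG : G.Ok m0)
    (j : Fin c) (z : G.A) (hz : (z : L) = G.z j) : z ∉ Submodule.span ℂ ({1} : Set G.A) := by
  intro h
  obtain ⟨a, ha⟩ := Submodule.mem_span_singleton.1 h
  have h1 : a • (1 : L) = G.z j := by
    rw [← hz, ← ha]
    rfl
  have hli := hG.lin.comp ![Sum.inl (), Sum.inr (Sum.inr j)] (by
    intro x y hxy
    fin_cases x <;> fin_cases y <;> simp_all)
  have h2 := linearIndependent_iff'.1 hli Finset.univ ![a, -1] (by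
    simp [Fin.sum_univ_two, h1]) 1 (Finset.mem_univ _)
  simp at h2

end ThtAux

open ThtAux in
theorem uTht : S_Emj → S_Sj → S_Tj → S_Tht := by
  intro hE hS hT n c m0 L _ _ G hG ψ hψ j0
  have key : ∀ j : Fin c, ψ (G.z j) ≠ algebraMap L (AlgebraicClosure L) (G.z j) →
      Function.Injective (G.tht ψ j) := fun j hj =>
    hT n c m0 L G hG ψ j (hS n c m0 L G hG ψ hψ.fix j hj)
  obtain ⟨j1, hj1⟩ := hE n c m0 L G hG ψ hψ
  have hne : ψ (G.z j0) ≠ algebraMap L (AlgebraicClosure L) (G.z j0) := by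
    intro h0
    have hmem : G.z j0 ∈ G.A := Algebra.subset_adjoin (Or.inr ⟨j0, rfl⟩)
    have hz := tmul_ne (k := ℂ) (⟨G.z j0, hmem⟩ : G.A) (notMem hG j0 _ rfl)
    apply hz
    apply MvPolynomial.C_injective (Gen.Ti n j1) (TensorProduct ℂ G.A G.A)
    apply key j1 hj1
    simp only [Gen.tht, MvPolynomial.coe_eval₂Hom, MvPolynomial.eval₂_C, Gen.th]
    simp [h0]
  exact ⟨hne, key j0 hne⟩

end Pool.Agent.Lib.MP_776403_ag.SD.UK
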