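import Pool.Agent.Lib.MP_776403_ag.SD.UK.Spec

/-!
# The Castelnuovo bound: injectivity of `tht` by integrality (`S_Tj`)
-/

set_option autoImplicit false

open MvPolynomial

noncomputable section

namespace Pool.Agent.Lib.MP_776403_ag.SD.UK

namespace TjAux

/-- Integrality over a subalgebra is transported by a ring homomorphism. -/
theorem transfer {L : Type} [Field L] [Algebra ℂ L] {B A' : Subalgebra ℂ L} (h : B ≤ A')
    {R T : Type} [CommRing T] [CommRing R] (φ : R →+* T) (i : A' →+* T)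
    (hB : ∀ (b : L) (hb : b ∈ B), ∃ f, φ f = i ⟨b, h hb⟩) (a : A')
    (ha : IsIntegral B (a : L)) : φ.IsIntegralElem (i a) := by
  obtain ⟨p, hp, hpa⟩ := ha
  set e : B →+* A' := (Subalgebra.inclusion h).toRingHom with he
  have hq : p.map (i.comp e) ∈ Polynomial.lifts φ := by
    rw [Polynomial.lifts_iff_coeff_lifts]
    intro k
    rw [Polynomial.coeff_map]
    exact hB _ (p.coeff k).2
  obtain ⟨q, hq1, _, hq2⟩ := Polynomial.lifts_and_natDegree_eq_and_monic hq (hp.map _)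
  refine ⟨q, hq2, ?_⟩
  rw [← Polynomial.eval_map, hq1, Polynomial.eval_map, ← Polynomial.hom_eval₂]
  have h0 : Polynomial.eval₂ e a p = 0 := by
    apply Subtype.val_injective
    have h1 := Polynomial.hom_eval₂ p e A'.val.toRingHom a
    have h2 : A'.val.toRingHom.comp e = algebraMap B L := rfl
    rw [h2] at h1
    exact h1.trans hpa
  rw [h0, map_zero]

/-- Elements of `ℂ[y]` are mapped into the range of a map which hits the images of the `y_i`. -/
theorem inRange {L : Type} [Field L] [Algebra ℂ L] {n : ℕ} (y : Fin n → L) {A' : Subalgebra ℂ L}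
    (h : Algebra.adjoin ℂ (Set.range y) ≤ A') {σ T : Type} [CommRing T] [Algebra ℂ T]
    (i : A' →ₐ[ℂ] T) (φ : MvPolynomial σ ℂ →ₐ[ℂ] T) (s : Fin n → σ)
    (hs : ∀ k, φ (X (s k)) = i ⟨y k, h (Algebra.subset_adjoin ⟨k, rfl⟩)⟩)
    (b : L) (hb : b ∈ Algebra.adjoin ℂ (Set.range y)) : ∃ f, φ f = i ⟨b, h hb⟩ := by
  have hb' := hb
  rw [Algebra.adjoin_range_eq_range_aeval] at hb'
  obtain ⟨f, hf⟩ := hb'
  refine ⟨rename s f, ?_⟩
  have h1 : (⟨b, h hb⟩ : A') =
      aeval (fun k => (⟨y k, h (Algebra.subset_adjoin ⟨k, rfl⟩)⟩ : A')) f := by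
    apply Subtype.val_injective
    have h3 := MvPolynomial.comp_aeval_apply
      (fun k => (⟨y k, h (Algebra.subset_adjoin ⟨k, rfl⟩)⟩ : A')) A'.val f
    exact (h3.trans hf).symm
  rw [h1]
  have h4 := MvPolynomial.comp_aeval_apply
      (fun k => (⟨y k, h (Algebra.subset_adjoin ⟨k, rfl⟩)⟩ : A')) i f
  rw [h4]
  have h5 : (φ.comp (rename s) : MvPolynomial (Fin n) ℂ →ₐ[ℂ] T) =
      aeval (fun k => i ⟨y k, h (Algebra.subset_adjoin ⟨k, rfl⟩)⟩) := by
    apply MvPolynomial.algHom_ext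
    intro k
    rw [AlgHom.comp_apply, rename_X, aeval_X, hs]
  exact congrArg (fun g => g f) h5

/-- The integrality statement. -/
theorem integral {σ τ S A' : Type} [CommRing S] [CommRing A']
    (φ : MvPolynomial σ ℂ →+* MvPolynomial τ S) (i1 i2 : A' → S) (s : τ → σ)
    (h1 : ∀ a, φ.IsIntegralElem (C (i1 a))) (h2 : ∀ a, φ.IsIntegralElem (C (i2 a)))
    (hs : ∀ k, φ (X (s k)) = X k)
    (hgen : ∀ p : S → Prop, (∀ a b, p (i1 a * i2 b)) → p 0 → (∀ u v, p u → p v → p (u + v)) →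
      ∀ u, p u) : φ.IsIntegral := by
  have hC : ∀ u : S, φ.IsIntegralElem (C u) := by
    apply hgen
    · intro a b
      rw [map_mul]
      exact (h1 a).mul φ (h2 b)
    · rw [map_zero]
      exact φ.isIntegralElem_zero
    · intro u v hu hv
      rw [map_add]
      exact RingHom.IsIntegralElem.add φ hu hv
  intro q
  induction q using MvPolynomial.induction_on with
  | C u => exact hC u
  | add p q hp hq => exact RingHom.IsIntegralElem.add φ hp hq
  | mul_X p k hp =>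
    refine RingHom.IsIntegralElem.mul φ hp ?_
    rw [← hs k]
    exact φ.isIntegralElem_map

/-- The statement with an abstract ring `S` instead of the tensor product. -/
theorem core {L Ω : Type} [Field L] [Algebra ℂ L] [Field Ω] [Algebra ℂ Ω] {n : ℕ} (y : Fin n → L)
    (A' : Subalgebra ℂ L) (h : Algebra.adjoin ℂ (Set.range y) ≤ A')
    (hIA : ∀ a ∈ A', IsIntegral (Algebra.adjoin ℂ (Set.range y)) a)
    {S τ : Type} [CommRing S] [IsDomain S] [Algebra ℂ S] (i1 i2 : A' →ₐ[ℂ] S)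
    (hgen : ∀ p : S → Prop, (∀ a b, p (i1 a * i2 b)) → p 0 → (∀ u v, p u → p v → p (u + v)) →
      ∀ u, p u)
    (θ : MvPolynomial τ S →+* Ω) (e1 e2 : Fin n → Ω) (t : τ → Ω)
    (h1 : ∀ k, θ (C (i1 ⟨y k, h (Algebra.subset_adjoin ⟨k, rfl⟩)⟩)) = e1 k)
    (h2 : ∀ k, θ (C (i2 ⟨y k, h (Algebra.subset_adjoin ⟨k, rfl⟩)⟩)) = e2 k)
    (ht : ∀ k, θ (X k) = t k) (hc : ∀ r : ℂ, θ (C (algebraMap ℂ S r)) = algebraMap ℂ Ω r)
    (hai : AlgebraicIndependent ℂ (Sum.elim (Sum.elim e1 e2) t)) : Function.Injective θ := by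
  set cc : S →ₐ[ℂ] MvPolynomial τ S := IsScalarTower.toAlgHom ℂ S (MvPolynomial τ S) with hcc
  have hcc' : ∀ u, cc u = C u := fun u => rfl
  set ph : MvPolynomial ((Fin n ⊕ Fin n) ⊕ τ) ℂ →ₐ[ℂ] MvPolynomial τ S :=
    aeval (Sum.elim (Sum.elim
      (fun k => cc (i1 ⟨y k, h (Algebra.subset_adjoin ⟨k, rfl⟩)⟩))
      (fun k => cc (i2 ⟨y k, h (Algebra.subset_adjoin ⟨k, rfl⟩)⟩))) X) with hph
  have hl : ∀ k, ph (X (Sum.inl (Sum.inl k))) =
      cc (i1 ⟨y k, h (Algebra.subset_adjoin ⟨k, rfl⟩)⟩) := fun k => aeval_X _ _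
  have hr : ∀ k, ph (X (Sum.inl (Sum.inr k))) =
      cc (i2 ⟨y k, h (Algebra.subset_adjoin ⟨k, rfl⟩)⟩) := fun k => aeval_X _ _
  have hX : ∀ k, ph (X (Sum.inr k)) = X k := fun k => aeval_X _ _
  set phR : MvPolynomial ((Fin n ⊕ Fin n) ⊕ τ) ℂ →+* MvPolynomial τ S := ph.toRingHom with hphR
  have hint : phR.IsIntegral := by
    refine integral phR i1 i2 Sum.inr ?_ ?_ hX hgen
    · intro a
      have hh := transfer h phR (cc.comp i1).toRingHom (fun b hb =>
        inRange y h (cc.comp i1) ph (fun k => Sum.inl (Sum.inl k)) hl b hb) a (hIA a a.2)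
      exact hh
    · intro a
      have hh := transfer h phR (cc.comp i2).toRingHom (fun b hb =>
        inRange y h (cc.comp i2) ph (fun k => Sum.inl (Sum.inr k)) hr b hb) a (hIA a a.2)
      exact hh
  have hcomp : ∀ f, θ (phR f) = aeval (Sum.elim (Sum.elim e1 e2) t) f := by
    intro f
    induction f using MvPolynomial.induction_on with
    | C r =>
      have h3 : phR (C r) = C (algebraMap ℂ S r) := ph.commutes r
      rw [h3, hc, aeval_C]
    | add p q hp hq => rw [map_add, map_add, map_add, hp, hq]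
    | mul_X p k hp =>
      rw [map_mul, map_mul, map_mul, hp]
      congr 1
      rw [aeval_X]
      rcases k with (i | i) | p
      · have h3 : phR (X (Sum.inl (Sum.inl i))) = _ := hl i
        rw [h3, hcc', h1]
        rfl
      · have h3 : phR (X (Sum.inl (Sum.inr i))) = _ := hr i
        rw [h3, hcc', h2]
        rfl
      · have h3 : phR (X (Sum.inr p)) = _ := hX p
        rw [h3, ht]
        rfl
  letI : Algebra (MvPolynomial ((Fin n ⊕ Fin n) ⊕ τ) ℂ) (MvPolynomial τ S) := phR.toAlgebra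
  have hint' : Algebra.IsIntegral (MvPolynomial ((Fin n ⊕ Fin n) ⊕ τ) ℂ) (MvPolynomial τ S) :=
    ⟨hint⟩
  rw [RingHom.injective_iff_ker_eq_bot]
  apply Ideal.eq_bot_of_comap_eq_bot (R := MvPolynomial ((Fin n ⊕ Fin n) ⊕ τ) ℂ)
  rw [eq_bot_iff]
  intro f hf
  have hf' : θ (phR f) = 0 := hf
  rw [hcomp] at hf'
  rw [Ideal.mem_bot]
  exact algebraicIndependent_iff.1 hai f hf'

variable {n c : ℕ} {L : Type} [Field L] [Algebra ℂ L] (G : Gen n c L)

/-- The tensor product. -/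
abbrev T2 : Type := TensorProduct ℂ G.A G.A

/-- `a ↦ a ⊗ 1`. -/
def j1 : G.A →ₐ[ℂ] T2 G := Algebra.TensorProduct.includeLeft

/-- `a ↦ 1 ⊗ a`. -/
def j2 : G.A →ₐ[ℂ] T2 G := Algebra.TensorProduct.includeRight

theorem gen2 (p : T2 G → Prop) (h1 : ∀ a b, p (j1 G a * j2 G b)) (h2 : p 0)
    (h3 : ∀ u v, p u → p v → p (u + v)) (u : T2 G) : p u := by
  induction u using TensorProduct.induction_on with
  | zero => exact h2
  | tmul a b =>
    have h : (a ⊗ₜ[ℂ] b : T2 G) = j1 G a * j2 G b := by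
      show a ⊗ₜ[ℂ] b = (a ⊗ₜ[ℂ] (1 : G.A)) * ((1 : G.A) ⊗ₜ[ℂ] b)
      rw [Algebra.TensorProduct.tmul_mul_tmul, mul_one, one_mul]
    rw [h]
    exact h1 a b
  | add x y hx hy => exact h3 x y hx hy

theorem tht_C (ψ : L →ₐ[ℂ] AlgebraicClosure L) (j0 : Fin c) (u : T2 G) :
    G.tht ψ j0 (C u) = G.th ψ u := eval₂Hom_C _ _ _

theorem th_j1 (ψ : L →ₐ[ℂ] AlgebraicClosure L) (a : G.A) :
    G.th ψ (j1 G a) = algebraMap L (AlgebraicClosure L) a := by
  show Algebra.TensorProduct.productMap _ _ (a ⊗ₜ[ℂ] (1 : G.A)) = _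
  rw [Algebra.TensorProduct.productMap_apply_tmul, map_one, mul_one]
  rfl

theorem th_j2 (ψ : L →ₐ[ℂ] AlgebraicClosure L) (a : G.A) :
    G.th ψ (j2 G a) = ψ a := by
  show Algebra.TensorProduct.productMap _ _ ((1 : G.A) ⊗ₜ[ℂ] a) = _
  rw [Algebra.TensorProduct.productMap_apply_tmul, map_one, one_mul]
  rfl

end TjAux

open TjAux

theorem uTj : S_Int → S_Dom → S_Tj := by
  intro hInt hDom n c m0 L _ _ G hG ψ j0 hai
  have hfin : (Set.range G.y ∪ Set.range G.z).Finite :=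
    (Set.finite_range G.y).union (Set.finite_range G.z)
  have hFG : G.A.FG := Subalgebra.fg_def.2 ⟨_, hfin, rfl⟩
  have hft : Algebra.FiniteType ℂ G.A := (Subalgebra.fg_iff_finiteType G.A).1 hFG
  have hdom : IsDomain (T2 G) := hDom G.A G.A
  -- integrality of `A`
  have hVfg : G.V.FG := Submodule.fg_span (hfin.insert 1)
  have h1V : (1 : L) ∈ G.V := Submodule.subset_span (Set.mem_insert 1 _)
  have hIV := (hInt ℂ L n m0 G.y G.V hVfg h1V hG.pos hG.noe).1
  have hIA : ∀ a ∈ G.A, IsIntegral (Algebra.adjoin ℂ (Set.range G.y)) a := by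
    intro a ha
    refine Algebra.adjoin_induction (p := fun a _ =>
      IsIntegral (Algebra.adjoin ℂ (Set.range G.y)) a) ?_ ?_ ?_ ?_ ha
    · intro x hx
      exact hIV x (Submodule.subset_span (Set.mem_insert_of_mem _ hx))
    · intro r
      have h := isIntegral_algebraMap (R := Algebra.adjoin ℂ (Set.range G.y)) (A := L)
        (x := algebraMap ℂ _ r)
      exact h
    · intro x y _ _ hx hy
      exact hx.add hy
    · intro x y _ _ hx hy
      exact hx.mul hy
  have hBA : Algebra.adjoin ℂ (Set.range G.y) ≤ G.A :=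
    Algebra.adjoin_mono Set.subset_union_left
  refine core (S := T2 G) G.y G.A hBA hIA (j1 G) (j2 G) (gen2 G) (G.tht ψ j0) _ _ _
    ?_ ?_ ?_ ?_ hai
  · intro k
    rw [tht_C, th_j1]
  · intro k
    rw [tht_C, th_j2]
  · intro k
    exact eval₂Hom_X' _ _ _
  · intro r
    rw [tht_C, AlgHom.commutes]

end Pool.Agent.Lib.MP_776403_ag.SD.UK
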