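import Pool.Agent.Lib.MP_776403_ag.SD.UK.Spec

/-!
# (Tr) Transfer between embeddings (the Castelnuovo bound)
-/

set_option autoImplicit false

open MvPolynomial

noncomputable section

namespace Pool.Agent.Lib.MP_776403_ag.SD.UK

namespace TrAux

/-- The elements which are uniform fractions. -/
def frc {L Ω Q ι : Type} [Field L] [Algebra ℂ L] [Field Ω] [Algebra ℂ Ω] [CommRing Q]
    (i0 : ι) (Θ : ι → Q →+* Ω) (σ : ι → L →ₐ[ℂ] Ω) (hΘ : ∀ i, Function.Injective (Θ i))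
    (hc : ∀ a : ℂ, ∃ p : Q, ∀ i, Θ i p = algebraMap ℂ Ω a) : IntermediateField ℂ L where
  carrier := {u | ∃ p q : Q, q ≠ 0 ∧ ∀ i, σ i u * Θ i q = Θ i p}
  mul_mem' := by
    rintro u v ⟨p, q, hq, h⟩ ⟨p', q', hq', h'⟩
    refine ⟨p * p', q * q', fun h0 => ?_, fun i => ?_⟩
    · have h1 : Θ i0 q * Θ i0 q' = 0 := by rw [← map_mul, h0, map_zero]
      rcases mul_eq_zero.1 h1 with h2 | h2
      · exact hq (hΘ i0 (by rw [h2, map_zero]))
      · exact hq' (hΘ i0 (by rw [h2, map_zero]))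
    · rw [map_mul, map_mul, map_mul, ← h i, ← h' i]
      ring
  add_mem' := by
    rintro u v ⟨p, q, hq, h⟩ ⟨p', q', hq', h'⟩
    refine ⟨p * q' + p' * q, q * q', fun h0 => ?_, fun i => ?_⟩
    · have h1 : Θ i0 q * Θ i0 q' = 0 := by rw [← map_mul, h0, map_zero]
      rcases mul_eq_zero.1 h1 with h2 | h2
      · exact hq (hΘ i0 (by rw [h2, map_zero]))
      · exact hq' (hΘ i0 (by rw [h2, map_zero]))
    · rw [map_add, map_mul, map_add, map_mul, map_mul, ← h i, ← h' i]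
      ring
  algebraMap_mem' := by
    intro a
    obtain ⟨p, hp⟩ := hc a
    refine ⟨p, 1, fun h0 => ?_, fun i => ?_⟩
    · have h1 : (Θ i0) 1 = 0 := by rw [h0, map_zero]
      rw [map_one] at h1
      exact one_ne_zero h1
    · rw [map_one, mul_one, hp, AlgHom.commutes]
  inv_mem' := by
    rintro u ⟨p, q, hq, h⟩
    by_cases hu : u = 0
    · subst hu
      refine ⟨0, 1, fun h0 => ?_, fun i => ?_⟩
      · have h1 : (Θ i0) 1 = 0 := by rw [h0, map_zero]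
        rw [map_one] at h1
        exact one_ne_zero h1
      · rw [inv_zero, map_zero, zero_mul, map_zero]
    · have hq0 : ∀ i, Θ i q ≠ 0 := fun i h1 => hq (hΘ i (by rw [h1, map_zero]))
      have hu0 : ∀ i, σ i u ≠ 0 := fun i h1 => hu ((map_eq_zero (σ i)).1 h1)
      refine ⟨q, p, fun h0 => ?_, fun i => ?_⟩
      · have h1 := h i0
        rw [h0, map_zero] at h1
        exact (mul_ne_zero (hu0 i0) (hq0 i0)) h1
      · rw [← h i, map_inv₀, inv_mul_cancel_left₀ (hu0 i)]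

theorem mem_frc {L Ω Q ι : Type} [Field L] [Algebra ℂ L] [Field Ω] [Algebra ℂ Ω] [CommRing Q]
    (i0 : ι) (Θ : ι → Q →+* Ω) (σ : ι → L →ₐ[ℂ] Ω) (hΘ : ∀ i, Function.Injective (Θ i))
    (hc : ∀ a : ℂ, ∃ p : Q, ∀ i, Θ i p = algebraMap ℂ Ω a) (u : L) :
    u ∈ frc i0 Θ σ hΘ hc ↔ ∃ p q : Q, q ≠ 0 ∧ ∀ i, σ i u * Θ i q = Θ i p := Iff.rfl

variable {n c : ℕ} {L : Type} [Field L] [Algebra ℂ L] (G : Gen n c L)

theorem y_mem (i : Fin n) : G.y i ∈ G.A := Algebra.subset_adjoin (Or.inl ⟨i, rfl⟩)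

theorem z_mem (j : Fin c) : G.z j ∈ G.A := Algebra.subset_adjoin (Or.inr ⟨j, rfl⟩)

theorem t_memK (p : Fin n × Fin c) : G.t p ∈ G.K :=
  IntermediateField.subset_adjoin _ _ ⟨Sum.inl p, rfl⟩

theorem l_memK (i : Fin n) : G.l i ∈ G.K :=
  IntermediateField.subset_adjoin _ _ ⟨Sum.inr i, rfl⟩

theorem tht_C (ψ : L →ₐ[ℂ] AlgebraicClosure L) (j0 : Fin c) (a b : G.A) :
    G.tht ψ j0 (C (a ⊗ₜ[ℂ] b)) = algebraMap L (AlgebraicClosure L) a * ψ b := by
  unfold Gen.tht Gen.th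
  rw [eval₂Hom_C]
  simp [Algebra.TensorProduct.productMap_apply_tmul]

theorem tht_X (ψ : L →ₐ[ℂ] AlgebraicClosure L) (j0 : Fin c) (p : Gen.Ti n j0) :
    G.tht ψ j0 (X p) = algebraMap L (AlgebraicClosure L) (G.t p.1) := by
  unfold Gen.tht
  rw [eval₂Hom_X']

end TrAux

open TrAux in
theorem uTr : S_Tr := by
  intro n c m0 L _ _ G hG ψ ψ' j0 hψ hψ' hz hz' hi hi' u hu
  classical
  let ι : Type := {φ : L →ₐ[ℂ] AlgebraicClosure L //
    (∀ x ∈ G.K, φ x = algebraMap L (AlgebraicClosure L) x) ∧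
    φ (G.z j0) ≠ algebraMap L (AlgebraicClosure L) (G.z j0) ∧ Function.Injective (G.tht φ j0)}
  let i0 : ι := ⟨ψ, hψ, hz, hi⟩
  let i1 : ι := ⟨ψ', hψ', hz', hi'⟩
  let Θ : ι → MvPolynomial (Gen.Ti n j0) (TensorProduct ℂ G.A G.A) →+* AlgebraicClosure L :=
    fun φ => G.tht φ.1 j0
  have hΘ : ∀ i, Function.Injective (Θ i) := fun i => i.2.2.2
  have hc : ∀ a : ℂ, ∃ p : MvPolynomial (Gen.Ti n j0) (TensorProduct ℂ G.A G.A), ∀ i,
      Θ i p = algebraMap ℂ (AlgebraicClosure L) a := by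
    intro a
    refine ⟨C ((algebraMap ℂ G.A a) ⊗ₜ[ℂ] 1), fun i => ?_⟩
    show G.tht i.1 j0 _ = _
    rw [tht_C]
    simp [IsScalarTower.algebraMap_apply ℂ L (AlgebraicClosure L)]
  -- the relation for `t (i, j0)`
  have hrel : ∀ (φ : ι) (i : Fin n), algebraMap L (AlgebraicClosure L) (G.t (i, j0)) *
      (algebraMap L (AlgebraicClosure L) (G.z j0) - φ.1 (G.z j0)) =
      -((algebraMap L (AlgebraicClosure L) (G.y i) - φ.1 (G.y i)) +
        ∑ j : {j : Fin c // j ≠ j0}, algebraMap L (AlgebraicClosure L) (G.t (i, j.1)) *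
          (algebraMap L (AlgebraicClosure L) (G.z j.1) - φ.1 (G.z j.1))) := by
    intro φ i
    have h1 := φ.2.1 _ (l_memK G i)
    unfold Gen.l at h1
    rw [map_add, map_add, map_sum, map_sum] at h1
    have h2 : ∀ j, φ.1 (G.t (i, j) * G.z j) =
        algebraMap L (AlgebraicClosure L) (G.t (i, j)) * φ.1 (G.z j) := fun j => by
      rw [map_mul, φ.2.1 _ (t_memK G (i, j))]
    simp only [h2, map_mul] at h1
    have h3 : ∑ j, algebraMap L (AlgebraicClosure L) (G.t (i, j)) *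
        (algebraMap L (AlgebraicClosure L) (G.z j) - φ.1 (G.z j)) =
        algebraMap L (AlgebraicClosure L) (G.t (i, j0)) *
        (algebraMap L (AlgebraicClosure L) (G.z j0) - φ.1 (G.z j0)) +
        ∑ j : {j : Fin c // j ≠ j0}, algebraMap L (AlgebraicClosure L) (G.t (i, j.1)) *
        (algebraMap L (AlgebraicClosure L) (G.z j.1) - φ.1 (G.z j.1)) :=
      Fintype.sum_eq_add_sum_subtype_ne _ j0
    have h4 : ∑ j, algebraMap L (AlgebraicClosure L) (G.t (i, j)) *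
        (algebraMap L (AlgebraicClosure L) (G.z j) - φ.1 (G.z j)) =
        -(algebraMap L (AlgebraicClosure L) (G.y i) - φ.1 (G.y i)) := by
      simp only [mul_sub, Finset.sum_sub_distrib]
      linear_combination -h1
    rw [h3] at h4
    linear_combination h4
  have hδ : ∀ φ : ι, Θ φ (C ((⟨G.z j0, z_mem G j0⟩ : G.A) ⊗ₜ[ℂ] (1 : G.A)) -
      C ((1 : G.A) ⊗ₜ[ℂ] (⟨G.z j0, z_mem G j0⟩ : G.A))) =
      algebraMap L (AlgebraicClosure L) (G.z j0) - φ.1 (G.z j0) := by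
    intro φ
    show G.tht φ.1 j0 _ = _
    rw [map_sub, tht_C, tht_C]
    simp
  have hkey : ∀ σ : ι → L →ₐ[ℂ] AlgebraicClosure L,
      (∀ φ, ∀ x ∈ G.K, σ φ x = algebraMap L (AlgebraicClosure L) x) →
      (∀ x : G.A, ∃ p : MvPolynomial (Gen.Ti n j0) (TensorProduct ℂ G.A G.A), ∀ φ,
        Θ φ p = σ φ x) → frc (Q := MvPolynomial (Gen.Ti n j0) (TensorProduct ℂ G.A G.A)) i0 Θ σ hΘ hc = ⊤ := by
    intro σ h1 h2
    rw [eq_top_iff, ← hG.gen, IntermediateField.adjoin_le_iff]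
    have hone : (1 : MvPolynomial (Gen.Ti n j0) (TensorProduct ℂ G.A G.A)) ≠ 0 := by
      intro h0
      have h3 : (Θ i0) 1 = 0 := by rw [h0, map_zero]
      rw [map_one] at h3
      exact one_ne_zero h3
    have hA : ∀ x : G.A, (x : L) ∈ frc (Q := MvPolynomial (Gen.Ti n j0) (TensorProduct ℂ G.A G.A)) i0 Θ σ hΘ hc := by
      intro x
      obtain ⟨p, hp⟩ := h2 x
      exact ⟨p, 1, hone, fun φ => by rw [map_one, mul_one, hp]⟩
    rintro x ((⟨i, rfl⟩ | ⟨j, rfl⟩) | ⟨p, rfl⟩)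
    · exact hA ⟨G.y i, y_mem G i⟩
    · exact hA ⟨G.z j, z_mem G j⟩
    · by_cases hp : p.2 = j0
      · obtain ⟨i, j⟩ := p
        simp only at hp
        subst hp
        refine ⟨-((C ((⟨G.y i, y_mem G i⟩ : G.A) ⊗ₜ[ℂ] (1 : G.A)) -
            C ((1 : G.A) ⊗ₜ[ℂ] (⟨G.y i, y_mem G i⟩ : G.A))) +
          ∑ k : {k : Fin c // k ≠ j}, X (⟨(i, k.1), k.2⟩ : Gen.Ti n j) *
            (C ((⟨G.z k.1, z_mem G k.1⟩ : G.A) ⊗ₜ[ℂ] (1 : G.A)) -
            C ((1 : G.A) ⊗ₜ[ℂ] (⟨G.z k.1, z_mem G k.1⟩ : G.A)))),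
          C ((⟨G.z j, z_mem G j⟩ : G.A) ⊗ₜ[ℂ] (1 : G.A)) -
            C ((1 : G.A) ⊗ₜ[ℂ] (⟨G.z j, z_mem G j⟩ : G.A)), fun h0 => ?_, fun φ => ?_⟩
        · have h3 := hδ i0
          rw [h0, map_zero] at h3
          exact i0.2.2.1 (sub_eq_zero.1 h3.symm).symm
        · rw [hδ φ, h1 φ _ (t_memK G (i, j)), hrel φ i]
          show _ = G.tht φ.1 j _
          rw [map_neg, map_add, map_sub, map_sum, tht_C, tht_C]
          congr 2
          · simp
          · refine Finset.sum_congr rfl fun k _ => ?_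
            rw [map_mul, tht_X, map_sub, tht_C, tht_C]
            simp
      · refine ⟨X (⟨p, hp⟩ : Gen.Ti n j0), 1, hone, fun φ => ?_⟩
        rw [map_one, mul_one, h1 φ _ (t_memK G p)]
        exact (tht_X G φ.1 j0 ⟨p, hp⟩).symm
  have hs1 := hkey (fun _ => IsScalarTower.toAlgHom ℂ L (AlgebraicClosure L))
    (fun _ x _ => rfl) (fun x => ⟨C (x ⊗ₜ[ℂ] 1), fun φ => by
      show G.tht φ.1 j0 _ = _
      rw [tht_C]
      simp⟩)
  have hs2 := hkey (fun φ => φ.1) (fun φ => φ.2.1) (fun x => ⟨C (1 ⊗ₜ[ℂ] x), fun φ => by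
      show G.tht φ.1 j0 _ = _
      rw [tht_C]
      simp⟩)
  have hu1 : u ∈ frc (Q := MvPolynomial (Gen.Ti n j0) (TensorProduct ℂ G.A G.A)) i0 Θ (fun _ => IsScalarTower.toAlgHom ℂ L (AlgebraicClosure L)) hΘ hc := by
    rw [hs1]; exact IntermediateField.mem_top
  have hu2 : u ∈ frc (Q := MvPolynomial (Gen.Ti n j0) (TensorProduct ℂ G.A G.A)) i0 Θ (fun φ => φ.1) hΘ hc := by
    rw [hs2]; exact IntermediateField.mem_top
  obtain ⟨p, q, hq, h⟩ := hu1
  obtain ⟨p', q', hq', h'⟩ := hu2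
  have hq0 : ∀ i, Θ i q ≠ 0 := fun i h1 => hq (hΘ i (by rw [h1, map_zero]))
  have hq0' : ∀ i, Θ i q' ≠ 0 := fun i h1 => hq' (hΘ i (by rw [h1, map_zero]))
  have e0 : p * q' = p' * q := by
    refine hΘ i0 ?_
    have a1 := h i0
    have a2 := h' i0
    have a3 : i0.1 u = algebraMap L (AlgebraicClosure L) u := hu
    have a4 : (IsScalarTower.toAlgHom ℂ L (AlgebraicClosure L)) u =
      algebraMap L (AlgebraicClosure L) u := rfl
    rw [a4] at a1
    rw [a3] at a2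
    rw [map_mul, map_mul, ← a1, ← a2]
    ring
  have b1 := h i1
  have b2 := h' i1
  have b4 : (IsScalarTower.toAlgHom ℂ L (AlgebraicClosure L)) u =
      algebraMap L (AlgebraicClosure L) u := rfl
  rw [b4] at b1
  have b5 : Θ i1 p * Θ i1 q' = Θ i1 p' * Θ i1 q := by rw [← map_mul, ← map_mul, e0]
  rw [← b1, ← b2] at b5
  have b6 : i1.1 u = ψ' u := rfl
  rw [b6] at b5
  have b7 : (algebraMap L (AlgebraicClosure L) u - ψ' u) * (Θ i1 q * Θ i1 q') = 0 := by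
    linear_combination b5
  rcases mul_eq_zero.1 b7 with b8 | b8
  · exact (sub_eq_zero.1 b8).symm
  · exact absurd b8 (mul_ne_zero (hq0 i1) (hq0' i1))

end Pool.Agent.Lib.MP_776403_ag.SD.UK
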