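import Pool.Agent.Lib.MP_776403_ag.SD.UK.Spec2

/-!
# The Castelnuovo bound: upper bound for the Hilbert function (module Up)
-/

set_option autoImplicit false

open MvPolynomial

noncomputable section

namespace Pool.Agent.Lib.MP_776403_ag.SD.UK

namespace UpAux

variable {n c : ℕ} {L : Type} [Field L] [Algebra ℂ L] (G : Gen n c L)

lemma one_mem_Y0 : (1 : L) ∈ G.Y0 := Submodule.subset_span (Set.mem_insert _ _)

lemma one_le_Y0 : (1 : Submodule G.K0 L) ≤ G.Y0 := by
  rw [Submodule.one_le]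
  exact one_mem_Y0 G

lemma Y0_mono {a b : ℕ} (h : a ≤ b) : G.Y0 ^ a ≤ G.Y0 ^ b := by
  obtain ⟨k, rfl⟩ := Nat.exists_eq_add_of_le h
  induction k with
  | zero => exact le_rfl
  | succ k ih =>
    refine (ih (by omega)).trans ?_
    rw [← add_assoc, pow_succ G.Y0 (a + k)]
    calc G.Y0 ^ (a + k) = G.Y0 ^ (a + k) * 1 := (mul_one _).symm
      _ ≤ G.Y0 ^ (a + k) * G.Y0 := mul_le_mul' le_rfl (one_le_Y0 G)

lemma ev_mem (p : Gen.P n c) : ∃ δ : ℕ, G.ev p ∈ G.Y0 ^ δ := by
  induction p using MvPolynomial.induction_on with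
  | C a =>
    refine ⟨0, ?_⟩
    rw [pow_zero, Submodule.mem_one]
    refine ⟨algebraMap ℂ G.K0 a, ?_⟩
    rw [Gen.ev, MvPolynomial.aeval_C]
    rfl
  | add p q hp hq =>
    obtain ⟨a, ha⟩ := hp
    obtain ⟨b, hb⟩ := hq
    refine ⟨max a b, ?_⟩
    rw [map_add]
    exact Submodule.add_mem _ (Y0_mono G (le_max_left a b) ha) (Y0_mono G (le_max_right a b) hb)
  | mul_X p i hp =>
    obtain ⟨a, ha⟩ := hp
    rcases i with i | i
    · refine ⟨a, ?_⟩
      rw [map_mul]
      have h1 : G.ev (X (Sum.inl i)) = G.t i := by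
        rw [Gen.ev, MvPolynomial.aeval_X]
        rfl
      have h2 : G.t i ∈ G.K0 := IntermediateField.subset_adjoin _ _ ⟨i, rfl⟩
      rw [h1, mul_comm]
      have := Submodule.smul_mem (G.Y0 ^ a) (⟨G.t i, h2⟩ : G.K0) ha
      exact this
    · refine ⟨a + 1, ?_⟩
      rw [map_mul, pow_succ]
      refine Submodule.mul_mem_mul ha ?_
      have h1 : G.ev (X (Sum.inr i)) = G.l i := by
        rw [Gen.ev, MvPolynomial.aeval_X]
        rfl
      rw [h1]
      exact Submodule.subset_span (Set.mem_insert_of_mem _ ⟨i, rfl⟩)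

lemma K_mem {x : L} (hx : x ∈ G.K) : ∃ p q : Gen.P n c, G.ev q ≠ 0 ∧ G.ev q * x = G.ev p := by
  rw [Gen.K, IntermediateField.mem_adjoin_range_iff] at hx
  obtain ⟨r, s, h⟩ := hx
  by_cases hs : G.ev s = 0
  · refine ⟨0, 1, by simp, ?_⟩
    have : x = 0 := by
      rw [h]
      have hs' : (MvPolynomial.aeval (Sum.elim G.t G.l)) s = 0 := hs
      rw [hs', div_zero]
    rw [this]
    simp
  · refine ⟨r, s, hs, ?_⟩
    rw [h]
    exact mul_div_cancel₀ _ hs

/-- the property for one element -/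
lemma clear_one {D : ℕ} (e : Fin D → L) (he : Submodule.span G.K (Set.range e) = ⊤) (x : L) :
    ∃ (q : Gen.P n c) (δ : ℕ), G.ev q ≠ 0 ∧
      G.ev q * x ∈ G.Y0 ^ δ * Submodule.span G.K0 (Set.range e) := by
  have hx : x ∈ Submodule.span G.K (Set.range e) := by rw [he]; trivial
  induction hx using Submodule.span_induction with
  | mem y hy =>
    refine ⟨1, 0, by simp, ?_⟩
    rw [map_one, pow_zero, one_mul, one_mul]
    exact Submodule.subset_span hy
  | zero =>
    refine ⟨1, 0, by simp, ?_⟩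
    rw [mul_zero]
    exact Submodule.zero_mem _
  | add y z _ _ hy hz =>
    obtain ⟨q1, a, h1, h2⟩ := hy
    obtain ⟨q2, b, h3, h4⟩ := hz
    obtain ⟨a', ha'⟩ := ev_mem G q1
    obtain ⟨b', hb'⟩ := ev_mem G q2
    refine ⟨q1 * q2, max (b' + a) (a' + b), ?_, ?_⟩
    · rw [map_mul]
      exact mul_ne_zero h1 h3
    · rw [map_mul, mul_add]
      refine Submodule.add_mem _ ?_ ?_
      · have : G.ev q1 * G.ev q2 * y = G.ev q2 * (G.ev q1 * y) := by ring
        rw [this]
        refine mul_le_mul' (Y0_mono G (le_max_left (b' + a) (a' + b))) le_rfl ?_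
        rw [pow_add, mul_assoc]
        exact Submodule.mul_mem_mul hb' h2
      · have : G.ev q1 * G.ev q2 * z = G.ev q1 * (G.ev q2 * z) := by ring
        rw [this]
        refine mul_le_mul' (Y0_mono G (le_max_right (b' + a) (a' + b))) le_rfl ?_
        rw [pow_add, mul_assoc]
        exact Submodule.mul_mem_mul ha' h4
  | smul k y _ hy =>
    obtain ⟨q1, a, h1, h2⟩ := hy
    obtain ⟨p, q2, h3, h4⟩ := K_mem G k.2
    obtain ⟨b, hb⟩ := ev_mem G p
    refine ⟨q2 * q1, b + a, ?_, ?_⟩
    · rw [map_mul]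
      exact mul_ne_zero h3 h1
    · have : G.ev (q2 * q1) * (k • y) = G.ev p * (G.ev q1 * y) := by
        rw [map_mul, ← h4]
        have : k • y = (k : L) * y := rfl
        rw [this]
        ring
      rw [this, pow_add, mul_assoc]
      exact Submodule.mul_mem_mul hb h2

lemma clear_finset {D : ℕ} (e : Fin D → L) (he : Submodule.span G.K (Set.range e) = ⊤) (S : Finset L) :
    ∃ (q : Gen.P n c) (δ : ℕ), G.ev q ≠ 0 ∧
      ∀ x ∈ S, G.ev q * x ∈ G.Y0 ^ δ * Submodule.span G.K0 (Set.range e) := by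
  classical
  induction S using Finset.induction_on with
  | empty => exact ⟨1, 0, by simp, by simp⟩
  | insert x S _ ih =>
    obtain ⟨q1, a, h1, h2⟩ := ih
    obtain ⟨q2, b, h3, h4⟩ := clear_one G e he x
    obtain ⟨a', ha'⟩ := ev_mem G q1
    obtain ⟨b', hb'⟩ := ev_mem G q2
    refine ⟨q1 * q2, max (b' + a) (a' + b), ?_, ?_⟩
    · rw [map_mul]
      exact mul_ne_zero h1 h3
    · intro y hy
      rw [Finset.mem_insert] at hy
      rw [map_mul]
      rcases hy with rfl | hy
      · have : G.ev q1 * G.ev q2 * y = G.ev q1 * (G.ev q2 * y) := by ring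
        rw [this]
        refine mul_le_mul' (Y0_mono G (le_max_right (b' + a) (a' + b))) le_rfl ?_
        rw [pow_add, mul_assoc]
        exact Submodule.mul_mem_mul ha' h4
      · have : G.ev q1 * G.ev q2 * y = G.ev q2 * (G.ev q1 * y) := by ring
        rw [this]
        refine mul_le_mul' (Y0_mono G (le_max_left (b' + a) (a' + b))) le_rfl ?_
        rw [pow_add, mul_assoc]
        exact Submodule.mul_mem_mul hb' (h2 y hy)

/-- the monomials in `l` -/
def mo (α : Fin n →₀ ℕ) : L := ∏ i, G.l i ^ α i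

lemma Y0_pow_le (d : ℕ) :
    G.Y0 ^ d ≤ Submodule.span G.K0 (Set.range fun α : {α : Fin n →₀ ℕ // α.degree ≤ d} => mo G α.1) := by
  induction d with
  | zero =>
    rw [pow_zero, Submodule.one_le]
    refine Submodule.subset_span ⟨⟨0, by simp⟩, ?_⟩
    simp [mo]
  | succ d ih =>
    rw [pow_succ]
    refine (mul_le_mul' ih le_rfl).trans ?_
    rw [Gen.Y0, Submodule.span_mul_span]
    refine Submodule.span_mono ?_
    rintro _ ⟨_, ⟨α, rfl⟩, b, hb, rfl⟩
    rcases hb with rfl | ⟨i, rfl⟩
    · refine ⟨⟨α.1, α.2.trans (Nat.le_succ d)⟩, ?_⟩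
      simp
    · refine ⟨⟨α.1 + Finsupp.single i 1, ?_⟩, ?_⟩
      · rw [map_add, Finsupp.degree_single]
        exact Nat.succ_le_succ α.2
      · simp only [mo, Finsupp.coe_add, Pi.add_apply, pow_add, Finset.prod_mul_distrib]
        congr 1
        rw [Finset.prod_eq_single i]
        · simp
        · intro j _ hj
          rw [Finsupp.single_apply, if_neg (Ne.symm hj), pow_zero]
        · intro h
          exact absurd (Finset.mem_univ i) h

lemma finrank_Y0E (hcard : ∀ n d : ℕ, Nat.card {α : Fin n →₀ ℕ // α.degree ≤ d} = (n + d).choose n)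
    {D : ℕ} (e : Fin D → L) (d : ℕ) :
    FiniteDimensional G.K0 (G.Y0 ^ d * Submodule.span G.K0 (Set.range e) : Submodule G.K0 L) ∧
    Module.finrank G.K0 (G.Y0 ^ d * Submodule.span G.K0 (Set.range e) : Submodule G.K0 L) ≤
      D * (n + d).choose n := by
  classical
  have hfin : Finite {α : Fin n →₀ ℕ // α.degree ≤ d} := by
    apply Nat.finite_of_card_ne_zero
    rw [hcard n d]
    exact (Nat.choose_pos (Nat.le_add_right n d)).ne'
  have := Fintype.ofFinite {α : Fin n →₀ ℕ // α.degree ≤ d}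
  let s : Finset L := Finset.univ.image fun α : {α : Fin n →₀ ℕ // α.degree ≤ d} => mo G α.1
  let t : Finset L := Finset.univ.image e
  have hs : s.card ≤ (n + d).choose n := by
    refine Finset.card_image_le.trans ?_
    rw [Finset.card_univ, ← Nat.card_eq_fintype_card, hcard n d]
  have ht : t.card ≤ D := by
    refine Finset.card_image_le.trans ?_
    simp
  have hle : (G.Y0 ^ d * Submodule.span G.K0 (Set.range e) : Submodule G.K0 L) ≤
      Submodule.span G.K0 ((s ×ˢ t).image (fun p : L × L => p.1 * p.2) : Finset L) := by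
    refine (mul_le_mul' (Y0_pow_le G d) le_rfl).trans ?_
    rw [Submodule.span_mul_span]
    refine Submodule.span_mono ?_
    rintro _ ⟨_, ⟨α, rfl⟩, _, ⟨i, rfl⟩, rfl⟩
    simp only [Finset.coe_image, Set.mem_image, Finset.mem_coe, Finset.mem_product, Prod.exists]
    exact ⟨_, _, ⟨Finset.mem_image_of_mem _ (Finset.mem_univ α),
      Finset.mem_image_of_mem _ (Finset.mem_univ i)⟩, rfl⟩
  have hfd : FiniteDimensional G.K0
      (Submodule.span G.K0 ((s ×ˢ t).image (fun p : L × L => p.1 * p.2) : Finset L) : Submodule G.K0 L) :=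
    FiniteDimensional.span_finset _ _
  refine ⟨Submodule.finiteDimensional_of_le hle, ?_⟩
  refine (Submodule.finrank_mono hle).trans ?_
  refine (finrank_span_finset_le_card _).trans ?_
  refine Finset.card_image_le.trans ?_
  rw [Finset.card_product, mul_comm]
  exact Nat.mul_le_mul ht hs

lemma V0_mono {a b : ℕ} (h : a ≤ b) : G.V0 ^ a ≤ G.V0 ^ b := by
  have h1 : (1 : Submodule G.K0 L) ≤ G.V0 := by
    rw [Submodule.one_le]
    exact Submodule.subset_span (Set.mem_insert _ _)
  obtain ⟨k, rfl⟩ := Nat.exists_eq_add_of_le h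
  rw [pow_add]
  calc G.V0 ^ a = G.V0 ^ a * 1 := (mul_one _).symm
    _ ≤ G.V0 ^ a * G.V0 ^ k := mul_le_mul' le_rfl (by
      clear h
      induction k with
      | zero => rw [pow_zero]
      | succ k ih =>
        rw [pow_succ]
        calc (1 : Submodule G.K0 L) = 1 * 1 := (one_mul 1).symm
          _ ≤ G.V0 ^ k * G.V0 := mul_le_mul' ih h1)

end UpAux

open UpAux in
theorem uUp : S_Int → S_Fin → S_Alg → S_Fk → S_Mon → S_Up := by
  intro hInt hFin hAlg hFk hMon n c m0 L _ _ G hG
  have hfd := (hAlg n c m0 L G hG).1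
  let e := Module.finBasis G.K L
  have he : Submodule.span G.K (Set.range e) = ⊤ := e.span_eq
  have hVfg : G.V0.FG := by
    refine Submodule.fg_span ?_
    exact (((Set.finite_range G.y).union (Set.finite_range G.z))).insert 1
  have hV1 : (1 : L) ∈ G.V0 := Submodule.subset_span (Set.mem_insert _ _)
  have hInt' := (hInt G.K0 L n m0 G.l G.V0 hVfg hV1 hG.pos (hFin n c m0 L G hG)).2
  obtain ⟨S, hS⟩ : (G.V0 ^ m0).FG := hVfg.pow m0
  obtain ⟨q, δ, hq, hqS⟩ := clear_finset G e he S
  have hmap : ∀ k : ℕ, Submodule.map (LinearMap.mulLeft G.K0 (G.ev q)) (G.V0 ^ (m0 + k)) ≤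
      G.Y0 ^ (k + δ) * Submodule.span G.K0 (Set.range e) := by
    intro k
    have h0 : ∀ x ∈ G.V0 ^ m0, G.ev q * x ∈ G.Y0 ^ δ * Submodule.span G.K0 (Set.range e) := by
      intro x hx
      rw [← hS] at hx
      induction hx using Submodule.span_induction with
      | mem y hy => exact hqS y hy
      | zero => rw [mul_zero]; exact Submodule.zero_mem _
      | add y z _ _ hy hz => rw [mul_add]; exact Submodule.add_mem _ hy hz
      | smul a y _ hy => rw [mul_smul_comm]; exact Submodule.smul_mem _ a hy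
    rw [Submodule.map_le_iff_le_comap]
    refine (hInt' k).trans ?_
    rw [Submodule.mul_le]
    intro a ha b hb
    rw [Submodule.mem_comap, LinearMap.mulLeft_apply]
    have : G.ev q * (a * b) = a * (G.ev q * b) := by ring
    rw [this, pow_add, mul_assoc]
    exact Submodule.mul_mem_mul ha (h0 b hb)
  have hmain : ∀ k : ℕ, Module.finrank ℂ (G.V ^ (m0 + k) : Submodule ℂ L) ≤
      Module.finrank G.K L * (n + (k + δ)).choose n := by
    intro k
    obtain ⟨h1, h2⟩ := hFk n c m0 L G hG (m0 + k)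
    rw [← h1]
    obtain ⟨h3, h4⟩ := finrank_Y0E G hMon.1 e (k + δ)
    refine le_trans ?_ h4
    have hinj : Function.Injective (LinearMap.mulLeft G.K0 (G.ev q)) := by
      intro a b hab
      exact mul_left_cancel₀ hq hab
    rw [(Submodule.equivMapOfInjective _ hinj (G.V0 ^ (m0 + k))).finrank_eq]
    exact Submodule.finrank_mono (hmap k)
  refine ⟨δ, fun m => ?_⟩
  rcases le_or_gt m0 m with h | h
  · obtain ⟨k, rfl⟩ := Nat.exists_eq_add_of_le h
    refine (hmain k).trans ?_
    refine Nat.mul_le_mul_left _ (Nat.choose_le_choose _ (by omega))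
  · have h1 : Module.finrank ℂ (G.V ^ m : Submodule ℂ L) ≤ Module.finrank ℂ (G.V ^ (m0 + 0) : Submodule ℂ L) := by
      rw [← (hFk n c m0 L G hG m).1, ← (hFk n c m0 L G hG (m0 + 0)).1]
      have := (hFk n c m0 L G hG (m0 + 0)).2
      exact Submodule.finrank_mono (V0_mono G (by omega))
    refine h1.trans ((hmain 0).trans ?_)
    refine Nat.mul_le_mul_left _ (Nat.choose_le_choose _ (by omega))

end Pool.Agent.Lib.MP_776403_ag.SD.UK
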