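import Pool.Agent.Lib.MP_776403_ag.SD.UK.CD
import Pool.Agent.Lib.MP_776403_ag.SD.UK.CP
import Pool.Agent.Lib.MP_776403_ag.SD.UK.Pt
import Pool.Agent.Lib.MP_776403_ag.SD.UK.Dom
import Pool.Agent.Lib.MP_776403_ag.SD.UK.Int
import Pool.Agent.Lib.MP_776403_ag.SD.UK.Kz
import Pool.Agent.Lib.MP_776403_ag.SD.UK.Fk
import Pool.Agent.Lib.MP_776403_ag.SD.UK.Fin
import Pool.Agent.Lib.MP_776403_ag.SD.UK.Alg
import Pool.Agent.Lib.MP_776403_ag.SD.UK.Emj
import Pool.Agent.Lib.MP_776403_ag.SD.UK.Sj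
import Pool.Agent.Lib.MP_776403_ag.SD.UK.Tj
import Pool.Agent.Lib.MP_776403_ag.SD.UK.Tht
import Pool.Agent.Lib.MP_776403_ag.SD.UK.Tr
import Pool.Agent.Lib.MP_776403_ag.SD.UK.PE
import Pool.Agent.Lib.MP_776403_ag.SD.UK.Ch
import Pool.Agent.Lib.MP_776403_ag.SD.UK.St
import Pool.Agent.Lib.MP_776403_ag.SD.UK.Du
import Pool.Agent.Lib.MP_776403_ag.SD.UK.Mi
import Pool.Agent.Lib.MP_776403_ag.SD.UK.Ct
import Pool.Agent.Lib.MP_776403_ag.SD.UK.ND
import Pool.Agent.Lib.MP_776403_ag.SD.UK.Bas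
import Pool.Agent.Lib.MP_776403_ag.SD.UK.Mon
import Pool.Agent.Lib.MP_776403_ag.SD.UK.Low
import Pool.Agent.Lib.MP_776403_ag.SD.UK.Up
import Pool.Agent.Lib.MP_776403_ag.SD.UK.Nm
import Pool.Agent.Lib.MP_776403_ag.SD.UK.GA
import Pool.Agent.Lib.MP_776403_ag.SD.UK.GB
import Pool.Agent.Lib.MP_776403_ag.SD.UK.G1
import Pool.Agent.Lib.MP_776403_ag.SD.UK.G2
import Pool.Agent.Lib.MP_776403_ag.SD.UK.Sum
import Pool.Agent.Lib.MP_776403_ag.SD.UK.Exh
import Pool.Agent.Lib.MP_776403_ag.SD.UK.HG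
import Pool.Agent.Lib.MP_776403_ag.SD.UK.Cas
import Pool.Agent.Lib.MP_776403_ag.SD.UK.Ns
import Pool.Agent.Lib.MP_776403_ag.SD.L.Noe

/-!
# The Castelnuovo bound, closed form

`uCasC : S_Cas`, and the intermediate results (no intermediate fields, Hilbert function of the generic fibre).
-/

set_option autoImplicit false

noncomputable section

namespace Pool.Agent.Lib.MP_776403_ag.SD.UK

theorem uCPc : S_CP := uCP uCD
theorem uDomC : S_Dom := uDom uPt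
theorem uFkC : S_Fk := uFk uKz
theorem uFinC : S_Fin := uFin uKz
theorem uAlgC : S_Alg := uAlg uInt uFinC
theorem uSjC : S_Sj := uSj uInt
theorem uTjC : S_Tj := uTj uInt uDomC
theorem uThtC : S_Tht := uTht uEmj uSjC uTjC
theorem uPEc : S_PE := uPE uAlgC uEmj uThtC uTr
theorem uStC : S_St := uSt uAlgC uPEc uCh
theorem uMiC : S_Mi := uMi uAlgC uStC uDu
theorem uCtC : S_Ct := uCt uAlgC uKz uCh uDu uMiC
theorem uNDc : S_ND := uND uCtC
theorem uMonC : S_Mon := uMon uAlgC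
theorem uLowC : S_Low := uLow uFkC uMonC
theorem uUpC : S_Up := uUp uInt uFinC uAlgC uFkC uMonC
theorem uGAc : S_GA := uGA lNoe
theorem uG1c : S_G1 := uG1 uGAc uGB
theorem uExhC : S_Exh := uExh uAlgC
theorem uHGc : S_HG := uHG uCPc uPEc uAlgC uNDc uExhC
/-- THE CASTELNUOVO BOUND, closed. -/
theorem uCasC : S_Cas := uCas uG1c uG2 uAlgC uBas uExhC uLowC uUpC uNm uHGc uSum

end Pool.Agent.Lib.MP_776403_ag.SD.UK
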