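import Pool.Agent.Lib.MP_776403_ag.SD.UK.Spec2

/-!
# The Castelnuovo bound, module Bas: a basis adapted to a filtration
-/

set_option autoImplicit false

open MvPolynomial

noncomputable section

namespace Pool.Agent.Lib.MP_776403_ag.SD.UK

namespace BasAux

variable {K L : Type} [Field K] [Field L] [Algebra K L]

/-- `b` is an independent generating subset of `s j`. -/
def Pr (K : Type) {L : Type} [Field K] [Field L] [Algebra K L] (s : ℕ → Set L) (j : ℕ)
    (b : Set L) : Prop :=
  b ⊆ s j ∧ LinearIndepOn K id b ∧ s j ⊆ Submodule.span K b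

theorem pr0 (s : ℕ → Set L) : ∃ b, Pr K s 0 b := by
  obtain ⟨b, h1, _, h3, h4⟩ := exists_linearIndepOn_id_extension
    (linearIndepOn_empty K id) (Set.empty_subset (s 0))
  exact ⟨b, h1, h4, h3⟩

theorem prs (s : ℕ → Set L) (hs : Monotone s) (j : ℕ) (b : Set L) (hb : Pr K s j b) :
    ∃ b', Pr K s (j + 1) b' ∧ b ⊆ b' := by
  obtain ⟨b', h1, h2, h3, h4⟩ := exists_linearIndepOn_id_extension hb.2.1
    (hb.1.trans (hs (Nat.le_succ j)))
  exact ⟨b', ⟨h1, h4, h3⟩, h2⟩

theorem sq (s : ℕ → Set L) (hs : Monotone s) :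
    ∃ b : ℕ → Set L, (∀ j, Pr K s j (b j)) ∧ Monotone b := by
  let F : (j : ℕ) → {b : Set L // Pr K s j b} := fun j =>
    Nat.rec ⟨(pr0 s).choose, (pr0 s).choose_spec⟩
      (fun j p => ⟨(prs s hs j p.1 p.2).choose, (prs s hs j p.1 p.2).choose_spec.1⟩) j
  refine ⟨fun j => (F j).1, fun j => (F j).2, monotone_nat_of_le_succ fun j => ?_⟩
  exact (prs s hs j (F j).1 (F j).2).choose_spec.2

end BasAux

open BasAux in
theorem uBas : S_Bas := by
  classical
  intro K L _ _ _ hfd s J hs hJ
  obtain ⟨b, hb, hm⟩ := sq (K := K) s hs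
  have hli : LinearIndependent K ((↑) : b J → L) := (hb J).2.1
  have hsp : ⊤ ≤ Submodule.span K (Set.range ((↑) : b J → L)) := by
    rw [Subtype.range_coe, ← hJ]
    exact Submodule.span_le.2 (hb J).2.2
  let B : Module.Basis (b J) K L := Module.Basis.mk hli hsp
  have : Finite (b J) := Module.Finite.finite_basis B
  have : Fintype (b J) := Fintype.ofFinite _
  have hc : Fintype.card (b J) = Module.finrank K L := (Module.finrank_eq_card_basis B).symm
  let eq : b J ≃ Fin (Module.finrank K L) := Fintype.equivFinOfCardEq hc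
  have hex : ∀ i, ∃ j, ((eq.symm i : b J) : L) ∈ b j := fun i => ⟨J, (eq.symm i).2⟩
  refine ⟨fun i => (eq.symm i : b J), fun i => Nat.find (hex i), ?_, ?_, ?_, ?_⟩
  · exact hli.comp _ eq.symm.injective
  · intro i
    exact (hb _).1 (Nat.find_spec (hex i))
  · intro i
    exact Nat.find_min' (hex i) (eq.symm i).2
  · intro j
    rcases le_total j J with hj | hj
    · have h1 : Submodule.span K (s j) ≤ Submodule.span K
          (((Finset.univ.filter fun i => Nat.find (hex i) ≤ j).image
            fun i => ((eq.symm i : b J) : L) : Finset L) : Set L) := by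
        rw [Submodule.span_le]
        refine (hb j).2.2.trans ?_
        refine SetLike.coe_subset_coe.2 (Submodule.span_mono ?_)
        intro x hx
        rw [Finset.coe_image]
        refine ⟨eq ⟨x, hm hj hx⟩, ?_, by simp⟩
        rw [Finset.mem_coe, Finset.mem_filter]
        refine ⟨Finset.mem_univ _, Nat.find_min' (hex _) ?_⟩
        simpa using hx
      refine (Submodule.finrank_mono h1).trans ((finrank_span_finset_le_card _).trans
        Finset.card_image_le)
    · have h2 : (Finset.univ.filter fun i => Nat.find (hex i) ≤ j) = Finset.univ := by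
        refine Finset.filter_true_of_mem fun i _ => ?_
        exact (Nat.find_min' (hex i) (eq.symm i).2).trans hj
      rw [h2, Finset.card_univ, Fintype.card_fin]
      exact Submodule.finrank_le _

end Pool.Agent.Lib.MP_776403_ag.SD.UK
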