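import Pool.Agent.Lib.MP_776403_ag.SD.UK.Spec

/-!
# The linear Cauchy-Davenport theorem (Dyson transform)
-/

set_option autoImplicit false

open MvPolynomial

noncomputable section

namespace Pool.Agent.Lib.MP_776403_ag.SD.UK

namespace CDAux

variable {K L : Type} [Field K] [Field L] [Algebra K L]

/-- `e B`. -/
def eB (B : Submodule K L) (e : L) : Submodule K L := B.map (LinearMap.mulLeft K e)

/-- `B_e`. -/
def Be (A B : Submodule K L) (e : L) : Submodule K L := B ⊓ A.comap (LinearMap.mulLeft K e)

private theorem mem_eB {B : Submodule K L} {e x : L} : x ∈ eB B e ↔ ∃ b ∈ B, e * b = x := by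
  simp only [eB, Submodule.mem_map, LinearMap.mulLeft_apply]

private theorem mem_Be {A B : Submodule K L} {e x : L} : x ∈ Be A B e ↔ x ∈ B ∧ e * x ∈ A := by
  simp only [Be, Submodule.mem_inf, Submodule.mem_comap, LinearMap.mulLeft_apply]

private theorem inf_eq (A B : Submodule K L) (e : L) : A ⊓ eB B e = eB (Be A B e) e := by
  ext x
  rw [Submodule.mem_inf, mem_eB, mem_eB]
  constructor
  · rintro ⟨hA, b, hb, rfl⟩
    exact ⟨b, mem_Be.2 ⟨hb, hA⟩, rfl⟩
  · rintro ⟨b, hb, rfl⟩
    exact ⟨(mem_Be.1 hb).2, b, (mem_Be.1 hb).1, rfl⟩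

private theorem rk_eB (B : Submodule K L) {e : L} (he : e ≠ 0) :
    Module.finrank K (eB B e) = Module.finrank K B := by
  have hinj : Function.Injective (LinearMap.mulLeft K e) := by
    intro x y hxy
    exact mul_left_cancel₀ he hxy
  exact (Submodule.equivMapOfInjective (LinearMap.mulLeft K e) hinj B).finrank_eq.symm

private theorem rk_sum [FiniteDimensional K L] (A B : Submodule K L) {e : L} (he : e ≠ 0) :
    Module.finrank K ((A ⊔ eB B e : Submodule K L)) + Module.finrank K (Be A B e) =
      Module.finrank K A + Module.finrank K B := by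
  have h := Submodule.finrank_sup_add_finrank_inf_eq A (eB B e)
  rw [inf_eq, rk_eB _ he, rk_eB _ he] at h
  exact h

private theorem mul_le (A B : Submodule K L) (e : L) :
    (A ⊔ eB B e) * Be A B e ≤ A * B := by
  rw [Submodule.sup_mul]
  refine sup_le (mul_le_mul' le_rfl inf_le_left) ?_
  refine Submodule.mul_le.2 ?_
  intro x hx y hy
  obtain ⟨b, hb, rfl⟩ := mem_eB.1 hx
  have h2 := (mem_Be.1 hy).2
  have h3 : e * b * y = (e * y) * b := by ring
  rw [h3]
  exact Submodule.mul_mem_mul h2 hb

/-- The stabilizer. -/
private def stab (A : Submodule K L) : Subalgebra K L where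
  carrier := {h | ∀ a ∈ A, h * a ∈ A}
  mul_mem' := by
    intro x y hx hy a ha
    have h1 := hx _ (hy a ha)
    rwa [← mul_assoc] at h1
  add_mem' := by
    intro x y hx hy a ha
    rw [add_mul]
    exact A.add_mem (hx a ha) (hy a ha)
  algebraMap_mem' := by
    intro r a ha
    rw [← Algebra.smul_def]
    exact A.smul_mem r ha

private theorem mem_stab {A : Submodule K L} {h : L} : h ∈ stab A ↔ ∀ a ∈ A, h * a ∈ A := Iff.rfl

private theorem top_of [FiniteDimensional K L]
    (hM : ∀ M : IntermediateField K L, M = ⊥ ∨ M = ⊤) (A : Submodule K L) (hA : A ≠ ⊥)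
    (b : L) (hb : b ∈ stab A) (hb1 : b ∉ Submodule.span K {(1 : L)}) : A = ⊤ := by
  have hinv : ∀ x ∈ stab A, x⁻¹ ∈ stab A := by
    intro x hx
    exact (stab A).inv_mem_of_algebraic (x := ⟨x, hx⟩) (Algebra.IsAlgebraic.isAlgebraic x)
  have h1 : (stab A).toIntermediateField hinv = ⊤ := by
    rcases hM ((stab A).toIntermediateField hinv) with h | h
    · exfalso
      have h2 : b ∈ (stab A).toIntermediateField hinv := hb
      rw [h, IntermediateField.mem_bot] at h2
      obtain ⟨r, hr⟩ := h2
      apply hb1
      rw [Submodule.mem_span_singleton]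
      exact ⟨r, by rw [← hr, Algebra.smul_def, mul_one]⟩
    · exact h
  obtain ⟨e, heA, he0⟩ := Submodule.exists_mem_ne_zero_of_ne_bot hA
  refine Submodule.eq_top_iff'.2 ?_
  intro x
  have h2 : x * e⁻¹ ∈ (stab A).toIntermediateField hinv := by
    rw [h1]; exact IntermediateField.mem_top
  have h3 : x * e⁻¹ ∈ stab A := h2
  have h4 := mem_stab.1 h3 e heA
  rwa [mul_assoc, inv_mul_cancel₀ he0, mul_one] at h4

private theorem main [FiniteDimensional K L]
    (hM : ∀ M : IntermediateField K L, M = ⊥ ∨ M = ⊤) :
    ∀ (r : ℕ) (A B : Submodule K L), Module.finrank K B ≤ r → A ≠ ⊥ → (1 : L) ∈ B →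
      min (Module.finrank K L) (Module.finrank K A + Module.finrank K B - 1) ≤
        Module.finrank K (A * B : Submodule K L) := by
  intro r
  induction r with
  | zero =>
    intro A B hB hA h1
    exfalso
    have h2 : Module.finrank K B = 0 := Nat.le_zero.1 hB
    have h3 : B = ⊥ := Submodule.finrank_eq_zero.1 h2
    rw [h3, Submodule.mem_bot] at h1
    exact one_ne_zero h1
  | succ r ih =>
    intro A B hB hA h1
    by_cases hc : ∃ e ∈ A, e ≠ 0 ∧ Be A B e ≠ B
    · obtain ⟨e, heA, he0, hne⟩ := hc
      have hlt : Be A B e < B := lt_of_le_of_ne inf_le_left hne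
      have h2 : Module.finrank K (Be A B e) < Module.finrank K B :=
        Submodule.finrank_lt_finrank_of_lt hlt
      have h3 : (A ⊔ eB B e : Submodule K L) ≠ ⊥ := by
        intro h
        apply hA
        rw [eq_bot_iff, ← h]
        exact le_sup_left
      have h4 : (1 : L) ∈ Be A B e := mem_Be.2 ⟨h1, by rw [mul_one]; exact heA⟩
      have h5 := ih (A ⊔ eB B e) (Be A B e) (by omega) h3 h4
      rw [rk_sum A B he0] at h5
      exact h5.trans (Submodule.finrank_mono (mul_le A B e))
    · have hall : ∀ e ∈ A, e ≠ 0 → Be A B e = B := by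
        intro e he he0
        by_contra hne
        exact hc ⟨e, he, he0, hne⟩
      have hAB : A ≤ A * B := by
        intro a ha
        have := Submodule.mul_mem_mul ha h1
        rwa [mul_one] at this
      by_cases hs : B ≤ Submodule.span K {(1 : L)}
      · have h2 : Module.finrank K B ≤ 1 :=
          (Submodule.finrank_mono hs).trans (finrank_span_singleton (K := K) (one_ne_zero (α := L))).le
        have h3 : Module.finrank K A ≤ Module.finrank K (A * B : Submodule K L) :=
          Submodule.finrank_mono hAB
        have h4 := min_le_right (Module.finrank K L) (Module.finrank K A + Module.finrank K B - 1)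
        omega
      · obtain ⟨b, hbB, hb1⟩ := Set.not_subset.1 hs
        have hbs : b ∈ stab A := by
          refine mem_stab.2 ?_
          intro a ha
          by_cases ha0 : a = 0
          · rw [ha0, mul_zero]; exact A.zero_mem
          · have h2 : b ∈ Be A B a := by rw [hall a ha ha0]; exact hbB
            have h3 := (mem_Be.1 h2).2
            rwa [mul_comm] at h3
        have hT := top_of hM A hA b hbs hb1
        have h2 : (A * B : Submodule K L) = ⊤ := by
          rw [eq_top_iff, ← hT]
          exact hAB
        rw [h2, finrank_top]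
        exact min_le_left _ _

end CDAux

/-- The linear Cauchy-Davenport theorem. -/
theorem uCD : S_CD := by
  intro K L _ _ _ hfd hM A B hA h1
  exact CDAux.main hM (Module.finrank K B) A B le_rfl hA h1

end Pool.Agent.Lib.MP_776403_ag.SD.UK
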