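import Mathlib

/-!
# The Castelnuovo bound: definitions

`L` is a field over `ℂ` with elements `y_1, …, y_n` (independent coordinates of an affine variety `X` of
dimension `n`), `z_1, …, z_c` (the other coordinates, integral over `ℂ[y]`) and parameters `t_ij`
(algebraically independent over the coordinate ring `A = ℂ[y, z]`).  `l_i = y_i + ∑_j t_ij z_j` is the
generic projection; `K = ℂ(t, l)`, `K0 = ℂ(t)`.
-/

set_option autoImplicit false

noncomputable section

namespace Pool.Agent.Lib.MP_776403_ag.SD.UK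

/-- Coordinates and parameters. -/
structure Gen (n c : ℕ) (L : Type) where
  y : Fin n → L
  z : Fin c → L
  t : Fin n × Fin c → L

namespace Gen

variable {n c : ℕ} {L : Type} [Field L] [Algebra ℂ L] (G : Gen n c L)

/-- `A = ℂ[y, z]`. -/
def A : Subalgebra ℂ L := Algebra.adjoin ℂ (Set.range G.y ∪ Set.range G.z)

/-- `l_i = y_i + ∑_j t_ij z_j`. -/
def l (i : Fin n) : L := G.y i + ∑ j, G.t (i, j) * G.z j

/-- `1, y, z`. -/
def W : Set L := insert 1 (Set.range G.y ∪ Set.range G.z)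

/-- The `ℂ`-span of `1, y, z`. -/
def V : Submodule ℂ L := Submodule.span ℂ G.W

/-- The `ℂ`-span of `1, y`. -/
def Y : Submodule ℂ L := Submodule.span ℂ (insert 1 (Set.range G.y))

/-- `ℂ(t)`. -/
def K0 : IntermediateField ℂ L := IntermediateField.adjoin ℂ (Set.range G.t)

/-- `ℂ(t, l)`. -/
def K : IntermediateField ℂ L := IntermediateField.adjoin ℂ (Set.range (Sum.elim G.t G.l))

/-- The `ℂ(t)`-span of `1, y, z`. -/
def V0 : Submodule G.K0 L := Submodule.span G.K0 G.W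

/-- The `ℂ(t)`-span of `1, l`. -/
def Y0 : Submodule G.K0 L := Submodule.span G.K0 (insert 1 (Set.range G.l))

/-- The `K`-span of `1, z` (it contains `y`). -/
def KV : Submodule G.K L := Submodule.span G.K (insert 1 (Set.range G.z))

/-- The hypotheses. -/
structure Ok (m0 : ℕ) : Prop where
  indy : AlgebraicIndependent ℂ G.y
  indt : AlgebraicIndependent G.A G.t
  lin : LinearIndependent ℂ (Sum.elim (fun _ : Unit => (1 : L)) (Sum.elim G.y G.z))
  pos : 1 ≤ m0
  noe : G.V ^ m0 ≤ G.Y * G.V ^ (m0 - 1)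
  gen : IntermediateField.adjoin ℂ (Set.range G.y ∪ Set.range G.z ∪ Set.range G.t) = ⊤

/-- `ψ : L → Ω` fixes `K` and is not the inclusion. -/
structure Emb (ψ : L →ₐ[ℂ] AlgebraicClosure L) : Prop where
  fix : ∀ x ∈ G.K, ψ x = algebraMap L (AlgebraicClosure L) x
  ne : ψ ≠ IsScalarTower.toAlgHom ℂ L (AlgebraicClosure L)

/-- `a ⊗ b ↦ a ψ(b)`. -/
def th (ψ : L →ₐ[ℂ] AlgebraicClosure L) : TensorProduct ℂ G.A G.A →ₐ[ℂ] AlgebraicClosure L :=
  Algebra.TensorProduct.productMap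
    ((IsScalarTower.toAlgHom ℂ L (AlgebraicClosure L)).comp G.A.val) (ψ.comp G.A.val)

/-- The parameters `t_ij`, `j ≠ j0`. -/
abbrev Ti (n : ℕ) {c : ℕ} (j0 : Fin c) : Type := {p : Fin n × Fin c // p.2 ≠ j0}

/-- `a ⊗ b ↦ a ψ(b)`, `T_ij ↦ t_ij`. -/
def tht (ψ : L →ₐ[ℂ] AlgebraicClosure L) (j0 : Fin c) :
    MvPolynomial (Ti n j0) (TensorProduct ℂ G.A G.A) →+* AlgebraicClosure L :=
  MvPolynomial.eval₂Hom (G.th ψ).toRingHom
    (fun p => algebraMap L (AlgebraicClosure L) (G.t p.1))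

/-- Polynomials in `T_ij`, `U_i`. -/
abbrev P (n c : ℕ) : Type := MvPolynomial ((Fin n × Fin c) ⊕ Fin n) ℂ

/-- `T_ij ↦ t_ij`, `U_i ↦ l_i`. -/
def ev : P n c →ₐ[ℂ] L := MvPolynomial.aeval (Sum.elim G.t G.l)

end Gen

end Pool.Agent.Lib.MP_776403_ag.SD.UK
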