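import Pool.Agent.Lib.MP_776403_ag.SD.UK.Spec2

/-!
# The Castelnuovo bound: the Hilbert function of the generic fibre
-/

set_option autoImplicit false

open MvPolynomial

noncomputable section

namespace Pool.Agent.Lib.MP_776403_ag.SD.UK

namespace HGAux

/-- If `V = ⊤` and `1 ∈ V` then `V ^ (j + 1) = ⊤`. -/
theorem pow_top {K L : Type} [Field K] [Field L] [Algebra K L] (V : Submodule K L) (hV : V = ⊤)
    (h1 : (1 : L) ∈ V) (j : ℕ) : V ^ (j + 1) = ⊤ := by
  rw [eq_top_iff]
  intro x _
  rw [pow_succ']
  have hx : x ∈ V := by rw [hV]; exact Submodule.mem_top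
  have h1j : (1 : L) ∈ V ^ j := by
    have := Submodule.pow_mem_pow V h1 j
    rwa [one_pow] at this
  have := Submodule.mul_mem_mul hx h1j
  rwa [mul_one] at this

end HGAux

theorem uHG : S_CP → S_PE → S_Alg → S_ND → S_Exh → S_HG := by
  intro hCP hPE hAlg hND hExh n c m0 L _ _ G hG j
  have hfin : FiniteDimensional G.K L := (hAlg n c m0 L G hG).1
  have h1 : (1 : L) ∈ G.KV := (hExh n c m0 L G hG).2.2.1
  rcases hND n c m0 L G hG with h | h
  · have := hCP G.K L hfin (hPE n c m0 L G hG) G.KV h1 j
    rw [h, Nat.add_sub_cancel] at this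
    exact this
  · cases j with
    | zero =>
      rw [Nat.zero_mul, Nat.zero_add, pow_zero]
      have h2 : Module.finrank G.K (1 : Submodule G.K L) = 1 := by
        rw [Submodule.one_eq_span]
        exact finrank_span_singleton one_ne_zero
      rw [h2]
      exact min_le_right _ _
    | succ j =>
      rw [HGAux.pow_top G.KV h h1 j, finrank_top]
      exact min_le_left _ _

end Pool.Agent.Lib.MP_776403_ag.SD.UK
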