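import Pool.Agent.Lib.MP_776403_ag.SD.UK.Spec

/-!
# The Castelnuovo bound: the counting step (Sj)
-/

set_option autoImplicit false

open MvPolynomial

noncomputable section

namespace Pool.Agent.Lib.MP_776403_ag.SD.UK

namespace SjAux

variable {n c : ℕ} {L : Type} [Field L] [Algebra ℂ L]

/-- The family of the statement. -/
def fam (G : Gen n c L) (ψ : L →ₐ[ℂ] AlgebraicClosure L) (j0 : Fin c) :
    (Fin n ⊕ Fin n) ⊕ Gen.Ti n j0 → AlgebraicClosure L :=
  Sum.elim
      (Sum.elim (fun i => algebraMap L (AlgebraicClosure L) (G.y i)) fun i => ψ (G.y i))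
      (fun p : Gen.Ti n j0 => algebraMap L (AlgebraicClosure L) (G.t p.1))

/-- `y, z` are in `V`, hence integral over `ℂ[y]`. -/
theorem integral_z {m0 : ℕ} (hInt : S_Int) (G : Gen n c L) (hG : G.Ok m0) (j : Fin c) :
    IsIntegral (Algebra.adjoin ℂ (Set.range G.y)) (G.z j) := by
  have hVfg : G.V.FG := by
    refine Submodule.fg_span ?_
    exact Set.Finite.insert 1 ((Set.finite_range G.y).union (Set.finite_range G.z))
  have h1V : (1 : L) ∈ G.V := Submodule.subset_span (Set.mem_insert 1 _)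
  have hzV : G.z j ∈ G.V :=
    Submodule.subset_span (Set.mem_insert_of_mem 1 (Or.inr (Set.mem_range_self j)))
  exact (hInt ℂ L n m0 G.y G.V hVfg h1V hG.pos hG.noe).1 _ hzV

/-- Images of integral elements are algebraic over a field containing the images of the `y_i`. -/
theorem alg_map (G : Gen n c L) {Ω : Type} [Field Ω] [Algebra ℂ Ω] (F : IntermediateField ℂ Ω)
    (f : L →ₐ[ℂ] Ω) (hy : ∀ i, f (G.y i) ∈ F) (x : L)
    (hx : IsIntegral (Algebra.adjoin ℂ (Set.range G.y)) x) : IsAlgebraic F (f x) := by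
  have hle : Algebra.adjoin ℂ (Set.range G.y) ≤ F.toSubalgebra.comap f := by
    refine Algebra.adjoin_le ?_
    rintro _ ⟨i, rfl⟩
    exact hy i
  let φ : Algebra.adjoin ℂ (Set.range G.y) →+* F :=
    RingHom.codRestrict ((f : L →+* Ω).comp (Algebra.adjoin ℂ (Set.range G.y)).val.toRingHom) F
      (fun a => hle a.2)
  have h1 : IsIntegral F ((f : L →+* Ω) x) :=
    hx.map_of_comp_eq φ (f : L →+* Ω) (RingHom.ext fun a => rfl)
  exact h1.isAlgebraic

/-- Transcendence degree of `Ω`. -/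
theorem le_trdeg {m0 : ℕ} (G : Gen n c L) (hG : G.Ok m0) :
    ((n + n * c : ℕ) : Cardinal) ≤ Algebra.trdeg ℂ (AlgebraicClosure L) := by
  have h1 : AlgebraicIndependent ℂ (Sum.elim G.t G.y) := by
    refine hG.indy.sumElim_of_tower (S := G.A) ?_ hG.indt
    rintro _ ⟨i, rfl⟩
    exact ⟨⟨G.y i, Algebra.subset_adjoin (Or.inl (Set.mem_range_self i))⟩, rfl⟩
  have h2 : AlgebraicIndependent ℂ
      ((IsScalarTower.toAlgHom ℂ L (AlgebraicClosure L)) ∘ (Sum.elim G.t G.y)) :=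
    h1.map' (FaithfulSMul.algebraMap_injective L (AlgebraicClosure L))
  have h3 := h2.cardinalMk_le_trdeg
  refine le_trans (le_of_eq ?_) h3
  rw [Cardinal.mk_fintype, Fintype.card_sum, Fintype.card_prod, Fintype.card_fin, Fintype.card_fin,
    add_comm]

theorem card_index (j0 : Fin c) :
    Cardinal.mk ((Fin n ⊕ Fin n) ⊕ Gen.Ti n j0) = ((n + n * c : ℕ) : Cardinal) := by
  have h0 : 1 ≤ c := Nat.one_le_iff_ne_zero.mpr (fun h => by subst h; exact j0.elim0)
  have h1 : Fintype.card (Gen.Ti n j0) = n * (c - 1) := by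
    have e : Gen.Ti n j0 ≃ Fin n × {j : Fin c // j ≠ j0} :=
      { toFun := fun p => (p.1.1, ⟨p.1.2, p.2⟩)
        invFun := fun q => ⟨(q.1, q.2.1), q.2.2⟩
        left_inv := fun p => rfl
        right_inv := fun q => rfl }
    rw [Fintype.card_congr e, Fintype.card_prod, Fintype.card_fin, Fintype.card_subtype_compl,
      Fintype.card_fin, Fintype.card_subtype_eq]
  rw [Cardinal.mk_fintype, Fintype.card_sum, Fintype.card_sum, Fintype.card_fin, h1]
  congr 1
  obtain ⟨d, rfl⟩ : ∃ d, c = d + 1 := ⟨c - 1, by omega⟩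
  rw [Nat.add_sub_cancel]
  ring

end SjAux

open SjAux

theorem uSj : S_Int → S_Sj := by
  intro hInt n c m0 L _ _ G hG ψ hψ j0 hj0
  set Ω := AlgebraicClosure L with hΩ
  let ι₀ : L →ₐ[ℂ] Ω := IsScalarTower.toAlgHom ℂ L Ω
  let F : IntermediateField ℂ Ω := IntermediateField.adjoin ℂ (Set.range (fam G ψ j0))
  have hFy : ∀ i, ι₀ (G.y i) ∈ F := fun i =>
    IntermediateField.subset_adjoin ℂ _ ⟨Sum.inl (Sum.inl i), rfl⟩
  have hFψ : ∀ i, ψ (G.y i) ∈ F := fun i =>
    IntermediateField.subset_adjoin ℂ _ ⟨Sum.inl (Sum.inr i), rfl⟩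
  have hFt : ∀ p : Gen.Ti n j0, ι₀ (G.t p.1) ∈ F := fun p =>
    IntermediateField.subset_adjoin ℂ _ ⟨Sum.inr p, rfl⟩
  let E : IntermediateField F Ω := algebraicClosure F Ω
  have hFE : ∀ x ∈ F, x ∈ E := fun x hx => by
    rw [mem_algebraicClosure_iff]
    exact isAlgebraic_algebraMap (⟨x, hx⟩ : F)
  have hEz : ∀ j, ι₀ (G.z j) ∈ E := fun j => by
    rw [mem_algebraicClosure_iff]
    exact alg_map G F ι₀ hFy _ (integral_z hInt G hG j)
  have hEψz : ∀ j, ψ (G.z j) ∈ E := fun j => by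
    rw [mem_algebraicClosure_iff]
    exact alg_map G F ψ hFψ _ (integral_z hInt G hG j)
  have hKt : ∀ p, ψ (G.t p) = ι₀ (G.t p) := fun p =>
    hψ _ (IntermediateField.subset_adjoin ℂ _ ⟨Sum.inl p, rfl⟩)
  have hKl : ∀ i, ψ (G.l i) = ι₀ (G.l i) := fun i =>
    hψ _ (IntermediateField.subset_adjoin ℂ _ ⟨Sum.inr i, rfl⟩)
  have hEt : ∀ p, ι₀ (G.t p) ∈ E := by
    rintro ⟨i, j⟩
    by_cases hj : j = j0
    · subst hj
      have h1 := hKl i
      rw [Gen.l, map_add, map_add, map_sum, map_sum] at h1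
      have h2 : ∀ j, ψ (G.t (i, j) * G.z j) = ι₀ (G.t (i, j)) * ψ (G.z j) := fun j => by
        rw [map_mul, hKt]
      have h3 : ∀ j, ι₀ (G.t (i, j) * G.z j) = ι₀ (G.t (i, j)) * ι₀ (G.z j) := fun j => map_mul _ _ _
      rw [Finset.sum_congr rfl fun j _ => h2 j, Finset.sum_congr rfl fun j _ => h3 j,
        ← Finset.add_sum_erase _ _ (Finset.mem_univ j),
        ← Finset.add_sum_erase (Finset.univ) (fun j => ι₀ (G.t (i, j)) * ι₀ (G.z j))
          (Finset.mem_univ j)] at h1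
      have hne : ι₀ (G.z j) - ψ (G.z j) ≠ 0 := fun h => hj0 (sub_eq_zero.mp h).symm
      have h4 : ι₀ (G.t (i, j)) = (ψ (G.y i) - ι₀ (G.y i)
          + (∑ k ∈ Finset.univ.erase j, ι₀ (G.t (i, k)) * ψ (G.z k)
            - ∑ k ∈ Finset.univ.erase j, ι₀ (G.t (i, k)) * ι₀ (G.z k)))
          / (ι₀ (G.z j) - ψ (G.z j)) := by
        rw [eq_div_iff hne]
        linear_combination (-1 : Ω) * h1
      have hE' : ∀ k ∈ Finset.univ.erase j, ι₀ (G.t (i, k)) ∈ E := fun k hk =>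
        hFE _ (hFt ⟨(i, k), Finset.ne_of_mem_erase hk⟩)
      rw [h4]
      refine E.div_mem (E.add_mem (E.sub_mem (hFE _ (hFψ i)) (hFE _ (hFy i)))
        (E.sub_mem (E.sum_mem fun k hk => E.mul_mem (hE' k hk) (hEψz k))
          (E.sum_mem fun k hk => E.mul_mem (hE' k hk) (hEz k)))) (E.sub_mem (hEz j) (hEψz j))
    · exact hFE _ (hFt ⟨(i, j), hj⟩)
  have hEL : ∀ x : L, ι₀ x ∈ E := by
    have h1 : IntermediateField.adjoin ℂ (Set.range G.y ∪ Set.range G.z ∪ Set.range G.t) ≤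
        (E.restrictScalars ℂ).comap ι₀ := by
      rw [IntermediateField.adjoin_le_iff]
      rintro x ((⟨i, rfl⟩ | ⟨j, rfl⟩) | ⟨p, rfl⟩)
      · exact hFE _ (hFy i)
      · exact hEz j
      · exact hEt p
    intro x
    have h2 : x ∈ IntermediateField.adjoin ℂ (Set.range G.y ∪ Set.range G.z ∪ Set.range G.t) := by
      rw [hG.gen]
      exact IntermediateField.mem_top
    exact h1 h2
  have hΩE : Algebra.IsAlgebraic E Ω := by
    refine ⟨fun x => ?_⟩
    have hx : IsIntegral L x := (Algebra.IsAlgebraic.isAlgebraic x).isIntegral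
    let φ : L →+* E := RingHom.codRestrict (algebraMap L Ω) E hEL
    exact (hx.map_of_comp_eq φ (RingHom.id Ω) (RingHom.ext fun a => rfl)).isAlgebraic
  have hEF : Algebra.IsAlgebraic F E := algebraicClosure.isAlgebraic F Ω
  have hΩF : Algebra.IsAlgebraic F Ω := Algebra.IsAlgebraic.trans F E Ω
  open scoped IntermediateField.algebraAdjoinAdjoin in
  have hΩA : Algebra.IsAlgebraic (Algebra.adjoin ℂ (Set.range (fam G ψ j0))) Ω :=
    (IsFractionRing.comap_isAlgebraic_iff (K := F)).mpr hΩF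
  have hle : Cardinal.mk ((Fin n ⊕ Fin n) ⊕ Gen.Ti n j0) ≤ Algebra.trdeg ℂ Ω := by
    rw [card_index]
    exact le_trdeg G hG
  exact (Algebra.IsAlgebraic.isTranscendenceBasis_of_le_trdeg_of_finite ℂ (fam G ψ j0) hle).1

end Pool.Agent.Lib.MP_776403_ag.SD.UK
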