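import Pool.Agent.Lib.MP_776403_ag.SD.UK.Defs

/-!
# The Castelnuovo bound, part 1: no intermediate fields, linear Cauchy-Davenport, nondegeneracy

Statements with complete proofs in the docstrings.  `S_Xyz` is proved in `SD/UK/Xyz.lean` (theorem
`SD.UK.uXyz`), other statements of this file are taken as hypotheses.  Everything is elementary field theory;
imports: `SD.UK.Spec` only.  Notation: `Ω = AlgebraicClosure L`.
-/

set_option autoImplicit false

open MvPolynomial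

noncomputable section

namespace Pool.Agent.Lib.MP_776403_ag.SD.UK

/-! ## Linear Cauchy-Davenport -/

/-- (CD) LINEAR CAUCHY-DAVENPORT THEOREM.

PROOF.  Induction on `finrank B` (for all `A`).  If `finrank B = 1` then `B = K 1` and `A * B = A`.  Let
`finrank B ≥ 2`.  For `e ∈ A`, `e ≠ 0`, let `B_e = {b ∈ B | e b ∈ A}` (a submodule, `1 ∈ B_e`), `A_e = A ⊔ e B`
(`e B = B.map (LinearMap.mulLeft K e)`).  `A ⊓ e B = e B_e`, so (`Submodule.finrank_sup_add_finrank_inf_eq`, `e ≠ 0`)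
`finrank A_e + finrank B_e = finrank A + finrank B`; and `A_e * B_e ≤ A * B` (`e b b' = b (e b')`, `e b' ∈ A`).
If `B_e ≠ B` for some `e`: `finrank B_e < finrank B`, `A_e ≠ ⊥`: induction and
`Submodule.finrank_mono`.  If `B_e = B` for all `e ∈ A - 0`: `A * B ≤ A`.  Take `b ∈ B`, `b ∉ K 1`
(`finrank B ≥ 2`).  The elements `h` with `h A ≤ A` form a subalgebra of `L` which contains `b`; it is an
intermediate field, because `L / K` is algebraic (`Subalgebra.isField_of_algebraic`, or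
`Algebra.adjoin K {b} = (IntermediateField.adjoin K {b}).toSubalgebra`,
`IntermediateField.adjoin_simple_toSubalgebra_of_integral`).  It is not `⊥`, so it is `⊤`: `A` is an
`L`-subspace `≠ ⊥`, `A = ⊤`, and `A ≤ A * B` (`1 ∈ B`), so `finrank (A * B) = finrank L`. -/
def S_CD : Prop :=
  ∀ (K L : Type) [Field K] [Field L] [Algebra K L], FiniteDimensional K L →
    (∀ M : IntermediateField K L, M = ⊥ ∨ M = ⊤) → ∀ A B : Submodule K L, A ≠ ⊥ → (1 : L) ∈ B →
    min (Module.finrank K L) (Module.finrank K A + Module.finrank K B - 1) ≤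
      Module.finrank K (A * B : Submodule K L)

/-- (CP) PROOF.  Induction on `j`, `S_CD` for `A = V ^ j ≠ ⊥` (`1 ∈ V ^ j`) and `B = V`; `finrank V ≥ 1`. -/
def S_CP : Prop :=
  ∀ (K L : Type) [Field K] [Field L] [Algebra K L], FiniteDimensional K L →
    (∀ M : IntermediateField K L, M = ⊥ ∨ M = ⊤) → ∀ V : Submodule K L, (1 : L) ∈ V → ∀ j : ℕ,
    min (Module.finrank K L) (j * (Module.finrank K V - 1) + 1) ≤
      Module.finrank K (V ^ j : Submodule K L)

/-! ## Tensor products of domains over `ℂ` -/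

/-- (Pt) PROOF.  `A` is of finite type over `ℂ`, so `Localization.Away a` is of finite type and not
trivial; it has a maximal ideal `m`; the quotient is a field of finite type over `ℂ`, so finite
(`finite_of_finite_type_of_isJacobsonRing`, Zariski's lemma), so equal to `ℂ`
(`IsAlgClosed.algebraMap_bijective_of_isIntegral`).  Compose `A → Localization.Away a → quotient ≃ ℂ`; `a` is a unit
in the localization. -/
def S_Pt : Prop :=
  ∀ (A : Type) [CommRing A] [IsDomain A] [Algebra ℂ A] [Algebra.FiniteType ℂ A] (a : A), a ≠ 0 →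
    ∃ φ : A →ₐ[ℂ] ℂ, φ a ≠ 0

/-- (Dom) The product of two irreducible varieties over `ℂ` is irreducible.

PROOF.  `β` a `ℂ`-basis of `B` (`Module.Free.chooseBasis`), `Algebra.TensorProduct.basis A β` the `A`-basis `1 ⊗ β_κ`
of `A ⊗ B`.  For `φ : A →ₐ[ℂ] ℂ` the `ℂ`-algebra homomorphism `Φ : A ⊗ B → B`, `a ⊗ b ↦ φ(a) b`
(`Algebra.TensorProduct.lift` or `productMap ((Algebra.ofId ℂ B).comp φ) (AlgHom.id)`) maps `p` to
`∑ φ(p_κ) β_κ` (`p_κ` the coordinates of `p`; both sides are additive, check on `a • (1 ⊗ β_κ)`), so `Φ p = 0` iff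
`φ(p_κ) = 0` for all `κ`.  Let `p q = 0`, `p, q ≠ 0`: `p_κ ≠ 0`, `q_κ' ≠ 0`.  `S_Pt` for `p_κ q_κ'`: `φ` with `Φ p ≠ 0`,
`Φ q ≠ 0`, `Φ p Φ q = 0`: contradiction (`B` is a domain).  Nontrivial: `1 ⊗ 1 ≠ 0` by any `Φ`
(`S_Pt` with `a = 1`). -/
def S_Dom : Prop :=
  ∀ (A B : Type) [CommRing A] [IsDomain A] [Algebra ℂ A] [Algebra.FiniteType ℂ A]
    [CommRing B] [IsDomain B] [Algebra ℂ B], IsDomain (TensorProduct ℂ A B)

/-! ## Noether normalization for the generic projection -/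

/-- (Int) PROOF.  Let `B = Algebra.adjoin k (range l)`, `M = ∑ B v` over `v ∈ V ^ m0` (`Submodule.span B (V ^ m0)`), a
finitely generated `B`-module (`V` is spanned by a finite set) with `1 ∈ M`.  For `z ∈ V`:
`z V ^ m0 ≤ V ^ (m0 + 1) ≤ (span (insert 1 (range l))) V ^ m0 ≤ M` (multiply the hypothesis by `V`), so `z M ≤ M` and
`z` is integral (`isIntegral_of_smul_mem_submodule`).  Second part: induction on `e`
(`V ^ (m0 + e + 1) = V * V ^ (m0 + e)`). -/
def S_Int : Prop :=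
  ∀ (k L : Type) [Field k] [Field L] [Algebra k L] (n m0 : ℕ) (l : Fin n → L) (V : Submodule k L),
    V.FG → (1 : L) ∈ V → 1 ≤ m0 →
    V ^ m0 ≤ Submodule.span k (insert 1 (Set.range l)) * V ^ (m0 - 1) →
    (∀ z ∈ V, IsIntegral (Algebra.adjoin k (Set.range l)) z) ∧
    ∀ e : ℕ, V ^ (m0 + e) ≤ Submodule.span k (insert 1 (Set.range l)) ^ e * V ^ m0

/-- (Kz) Independence over `ℂ(t)`: a `ℂ`-independent family in `A` is independent over `ℂ[t]` and
over `K0 = ℂ(t)`.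

PROOF.  (1) `∑ f_o(t) x_o = 0`, `f_o ∈ ℂ[T]`, `x_o ∈ A`: the polynomial `∑ map (f_o) C(x_o)` over `A` has the value
`0` at `t`, so it is `0` (`indt`); the coefficient at `m`: `∑ coeff_m(f_o) x_o = 0`, so `coeff_m(f_o) = 0`.
(2) elements of `K0`: `IntermediateField.mem_adjoin_range_iff` (`a = f(t) / g(t)`); common denominator for a finite
family (product of the `g`; `linearIndependent_iff'`); (1). -/
def S_Kz : Prop :=
  ∀ (n c m0 : ℕ) (L : Type) [Field L] [Algebra ℂ L] (G : Gen n c L), G.Ok m0 →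
    ∀ (ι : Type) (x : ι → L), (∀ o, x o ∈ G.A) → LinearIndependent ℂ x →
    (∀ (s : Finset ι) (f : ι → MvPolynomial (Fin n × Fin c) ℂ),
      ∑ o ∈ s, aeval G.t (f o) * x o = 0 → ∀ o ∈ s, f o = 0) ∧ LinearIndependent G.K0 x

/-- (Fk) PROOF.  `V ^ m = span_ℂ (W ^ m)`, `V0 ^ m = span_(K0) (W ^ m)` (`Submodule.span_pow`).  A `ℂ`-basis of `V ^ m`
lies in `A` (`Algebra.adjoin`), is independent over `K0` (`S_Kz`) and spans `V0 ^ m` over `K0` (each element of
`W ^ m` is a `ℂ`-combination of the basis). -/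
def S_Fk : Prop :=
  ∀ (n c m0 : ℕ) (L : Type) [Field L] [Algebra ℂ L] (G : Gen n c L), G.Ok m0 → ∀ m : ℕ,
    Module.finrank G.K0 (G.V0 ^ m : Submodule G.K0 L) = Module.finrank ℂ (G.V ^ m : Submodule ℂ L) ∧
    FiniteDimensional G.K0 (G.V0 ^ m : Submodule G.K0 L)

/-- (Fin) NOETHER NORMALIZATION BY THE GENERIC FORMS.

PROOF.  `b_s` a (finite) `ℂ`-basis of `V ^ m0` (`V` is spanned by the finite set `W`).  By `noe`
`b_s = w_(s,0) + ∑_i y_i w_(s,i)` with `w ∈ V ^ (m0-1)` (`Submodule.span_induction`, or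
`Submodule.mul_induction_on`: the set of the `w_0 + ∑ y_i w_i` is a submodule).  Let
`b'_s = w_(s,0) + ∑ l_i w_(s,i) = b_s + ∑_(i,j) t_ij z_j w_(s,i) ∈ Y0 * V0 ^ (m0-1)`, and
`z_j w_(s,i) ∈ V ^ m0`, `= ∑_u C^(ij)_(s,u) b_u`, `C ∈ ℂ`.  With `M = 1 + ∑ T_ij C^(ij)` (a matrix over
`MvPolynomial (Fin n × Fin c) ℂ`): `b' = M(t) b`.  `det M` has the value `1` at `T = 0`, so `det M ≠ 0` and
`(det M)(t) ≠ 0` (`t` is algebraically independent over `A`, so over `ℂ`; or `S_Kz` with `x = 1`).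
`adjugate (M(t)) b' = (det M)(t) b`, entries in `K0`: `b_s ∈ Y0 * V0 ^ (m0-1)`.  `V0 ^ m0` is the `K0`-span of
`V ^ m0` (see `S_Fk`), so of the `b_s`. -/
def S_Fin : Prop :=
  ∀ (n c m0 : ℕ) (L : Type) [Field L] [Algebra ℂ L] (G : Gen n c L), G.Ok m0 →
    G.V0 ^ m0 ≤ G.Y0 * G.V0 ^ (m0 - 1)

/-- (Alg) `L` is finite over `K`, and `t`, `l` are algebraically independent over `ℂ`.

PROOF.  `K0 ≤ K`, `l_i ∈ K`.  `S_Int` over `K0` (`V0`, `l`, by `S_Fin`; `V0` is finitely generated, `1 ∈ V0`): the `y_i`, `z_j`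
are integral over `Algebra.adjoin K0 (range l)`, so over `K`
(`IsIntegral.tower_top`-like: the ring is contained in `K`).  By `gen` (`t ∈ K`)
`L = IntermediateField.adjoin K (range y ∪ range z)`, so finite over `K`
(`IntermediateField.finiteDimensional_adjoin`).
Independence: `Sum.elim y t` is algebraically independent over `ℂ` (`AlgebraicIndependent.sumElim`: `indy`, and
`indt` restricted from `A` to `Algebra.adjoin ℂ (range y) ≤ A`), so `n + n c ≤ Algebra.trdeg ℂ L`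
(`AlgebraicIndependent.cardinalMk_le_trdeg`).  `L` is algebraic over `K`, the field of fractions of
`Algebra.adjoin ℂ (range (Sum.elim t l))`, so algebraic over this ring
(`IsFractionRing.comap_isAlgebraic_iff` or `IntermediateField` lemmas), and
`Algebra.IsAlgebraic.isTranscendenceBasis_of_le_trdeg_of_finite` for `Sum.elim t l`. -/
def S_Alg : Prop :=
  ∀ (n c m0 : ℕ) (L : Type) [Field L] [Algebra ℂ L] (G : Gen n c L), G.Ok m0 →
    FiniteDimensional G.K L ∧ AlgebraicIndependent ℂ (Sum.elim G.t G.l)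

/-! ## No intermediate fields -/

/-- (Emj) PROOF.  If `ψ(z_j) = z_j` for all `j` then (`ψ` fixes `t`, `l ∈ K`) `ψ(y_i) = y_i`, and `ψ` is the inclusion on
`ℂ(y, z, t) = L` (`gen`; the elements fixed by `ψ` form an intermediate field, e.g.
`AlgHom.equalizer` or `IntermediateField.adjoin_le_iff`). -/
def S_Emj : Prop :=
  ∀ (n c m0 : ℕ) (L : Type) [Field L] [Algebra ℂ L] (G : Gen n c L), G.Ok m0 →
    ∀ ψ : L →ₐ[ℂ] AlgebraicClosure L, G.Emb ψ →
    ∃ j, ψ (G.z j) ≠ algebraMap L (AlgebraicClosure L) (G.z j)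

/-- (Sj) The counting step.

PROOF.  Every `y_i`, `z_j` is integral over `Algebra.adjoin ℂ (range y)` (`S_Int` with `k = ℂ`, `l = y`).  Let
`s = Sum.elim (Sum.elim y (ψ y)) t'` (the family of the statement) and let `E` be the algebraic closure of
`IntermediateField.adjoin ℂ (range s)` in `Ω` (`algebraicClosure`, an intermediate field).  `y_i, ψ(y_i) ∈ E`;
`z_j ∈ E` (algebraic over `ℂ(y)`), `ψ(z_j) ∈ E` (apply `ψ` to the equation); `t_p ∈ E` for `p.2 ≠ j0`.  As `ψ` fixes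
`t` and `l_i`: `t_(i,j0) (z_j0 - ψ z_j0) = - (y_i - ψ y_i) - ∑_(j ≠ j0) t_ij (z_j - ψ z_j)`, so `t_(i,j0) ∈ E`.  By `gen`
`E` contains the image of `L`, and `Ω` is algebraic over `L`, so `Ω` is algebraic over `E` and over
`Algebra.adjoin ℂ (range s)`.  `trdeg ℂ Ω ≥ n + n c` (the images of `y`, `t`, as in `S_Alg`), and the index set has
`n + n + n (c - 1) = n + n c` elements (`c ≥ 1`: `j0`).
`Algebra.IsAlgebraic.isTranscendenceBasis_of_le_trdeg_of_finite`. -/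
def S_Sj : Prop :=
  ∀ (n c m0 : ℕ) (L : Type) [Field L] [Algebra ℂ L] (G : Gen n c L), G.Ok m0 →
    ∀ ψ : L →ₐ[ℂ] AlgebraicClosure L, (∀ x ∈ G.K, ψ x = algebraMap L (AlgebraicClosure L) x) →
    ∀ j0 : Fin c, ψ (G.z j0) ≠ algebraMap L (AlgebraicClosure L) (G.z j0) →
    AlgebraicIndependent ℂ (Sum.elim
      (Sum.elim (fun i => algebraMap L (AlgebraicClosure L) (G.y i)) fun i => ψ (G.y i))
      (fun p : Gen.Ti n j0 => algebraMap L (AlgebraicClosure L) (G.t p.1)))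

/-- (Tj) PROOF.  `Q = MvPolynomial (Ti n j0) (A ⊗ A)` is a domain (`S_Dom`; `A` is of finite type: generated by the
finite set `range y ∪ range z`, `Subalgebra.fg_adjoin_finset` / `Algebra.FiniteType`).
`φ : MvPolynomial ((Fin n ⊕ Fin n) ⊕ Ti n j0) ℂ → Q`, `X_(inl inl i) ↦ C (y_i ⊗ 1)`, `X_(inl inr i) ↦ C (1 ⊗ y_i)`,
`X_(inr p) ↦ X_p` (`aeval`; `y_i ∈ A`).  `φ` is an integral ring homomorphism: `a ∈ A` is integral over
`ℂ[y]` (`S_Int` and `Algebra.adjoin` induction), so `C (a ⊗ 1)`, `C (1 ⊗ b)` are integral over the image (map the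
equation), so `C (a ⊗ b)`, sums, and products with `X_p`.  `tht ψ j0 ∘ φ = aeval` of the family of `S_Sj`, injective.
`Ideal.eq_bot_of_comap_eq_bot` (with `φ.toAlgebra`) for `RingHom.ker (tht ψ j0)`. -/
def S_Tj : Prop :=
  ∀ (n c m0 : ℕ) (L : Type) [Field L] [Algebra ℂ L] (G : Gen n c L), G.Ok m0 →
    ∀ ψ : L →ₐ[ℂ] AlgebraicClosure L, ∀ j0 : Fin c,
    AlgebraicIndependent ℂ (Sum.elim
      (Sum.elim (fun i => algebraMap L (AlgebraicClosure L) (G.y i)) fun i => ψ (G.y i))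
      (fun p : Gen.Ti n j0 => algebraMap L (AlgebraicClosure L) (G.t p.1))) →
    Function.Injective (G.tht ψ j0)

/-- (Tht) PROOF.  `S_Emj`: some `j1` with `ψ(z_j1) ≠ z_j1`; `S_Sj`, `S_Tj`: `tht ψ j1` is injective, so `th ψ` is
(`tht ψ j1 (C u) = th ψ u`).  For every `j0`: `1, z_j0` are independent over `ℂ` (`lin`), so
`z_j0 ⊗ 1 ≠ 1 ⊗ z_j0` in `A ⊗ A` (e.g. apply `f ⊗ id` with a linear form `f` on `A`, `f(z_j0) = 1`, `f(1) = 0`; or
`Algebra.TensorProduct` basis), so `ψ(z_j0) ≠ z_j0`.  `S_Sj`, `S_Tj` for `j0`. -/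
def S_Tht : Prop :=
  ∀ (n c m0 : ℕ) (L : Type) [Field L] [Algebra ℂ L] (G : Gen n c L), G.Ok m0 →
    ∀ ψ : L →ₐ[ℂ] AlgebraicClosure L, G.Emb ψ → ∀ j0 : Fin c,
    ψ (G.z j0) ≠ algebraMap L (AlgebraicClosure L) (G.z j0) ∧ Function.Injective (G.tht ψ j0)

/-- (Tr) TRANSFER: whether `ψ(u) = u` does not depend on `ψ`.

PROOF.  `Q = MvPolynomial (Ti n j0) (A ⊗ A)` is a domain (`tht ψ j0` is injective into a field:
`Function.Injective.isDomain`), `Φ = FractionRing Q`.  In `Φ` let `δ = z_j0 ⊗ 1 - 1 ⊗ z_j0` (nonzero: its image is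
`z_j0 - ψ z_j0`), `N_i = (y_i ⊗ 1 - 1 ⊗ y_i) + ∑_(j ≠ j0) X_ij (z_j ⊗ 1 - 1 ⊗ z_j)`, `τ_p = X_p` for `p.2 ≠ j0`,
`τ_(i,j0) = - N_i / δ`.  Two ring homomorphisms `a1, a2 : MvPolynomial (Fin n × Fin c) A → Φ` (`eval₂Hom`): `T_p ↦ τ_p`,
and `a ↦ a ⊗ 1`, resp. `a ↦ 1 ⊗ a`.  `Θ_ψ : Φ → Ω` the extension of `tht ψ j0` (`IsFractionRing.lift`).  Then
`Θ_ψ (a1 f) = f(t)` and `Θ_ψ (a2 f) = ψ(f(t))` (`MvPolynomial.ringHom_ext`; for `T_(i,j0)` use that `ψ` fixes `t`
and `l_i`, as in `S_Sj`; `f(t) = aeval t f ∈ L`, mapped to `Ω`).  By `gen` every `u ∈ L` is `f(t) / g(t)`,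
`f, g ∈ MvPolynomial (Fin n × Fin c) A` (`IntermediateField.mem_adjoin_iff`-like: the fractions form a subfield
containing `y`, `z`, `t`).  `ψ(u) = u` iff `Θ_ψ (a2 f a1 g - a1 f a2 g) = 0` iff `a2 f a1 g = a1 f a2 g`: the same
condition for `ψ'`. -/
def S_Tr : Prop :=
  ∀ (n c m0 : ℕ) (L : Type) [Field L] [Algebra ℂ L] (G : Gen n c L), G.Ok m0 →
    ∀ (ψ ψ' : L →ₐ[ℂ] AlgebraicClosure L) (j0 : Fin c),
    (∀ x ∈ G.K, ψ x = algebraMap L (AlgebraicClosure L) x) →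
    (∀ x ∈ G.K, ψ' x = algebraMap L (AlgebraicClosure L) x) →
    ψ (G.z j0) ≠ algebraMap L (AlgebraicClosure L) (G.z j0) →
    ψ' (G.z j0) ≠ algebraMap L (AlgebraicClosure L) (G.z j0) →
    Function.Injective (G.tht ψ j0) → Function.Injective (G.tht ψ' j0) →
    ∀ u : L, ψ u = algebraMap L (AlgebraicClosure L) u →
      ψ' u = algebraMap L (AlgebraicClosure L) u

/-- (PE) NO INTERMEDIATE FIELDS.

PROOF.  `L / K` is finite (`S_Alg`) and separable (characteristic 0).  General fact: if `M ≤ L` is an intermediate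
field, `v ∈ L`, and every `M`-embedding `L → Ω` fixes `v` then `v ∈ M`: otherwise `minpoly M v` has degree `≥ 2`, is
separable and splits in `Ω`, so it has a root `r ≠ v`, and there is an `M`-embedding `L → Ω` with `v ↦ r`
(`IntermediateField.exists_algHom_of_splits_of_aeval`, `IsAlgClosed.lift`, or
`IntermediateField.exists_algHom_adjoin_of_splits_of_aeval`).
Let `M ≠ ⊤`: `v ∉ M`, so there is an embedding `ψ` which fixes `M` and not `v`: `G.Emb ψ`.  Let `u ∈ M`.  Every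
`K`-embedding `ψ'` of `L` fixes `u`: clear if `ψ'` is the inclusion; otherwise `G.Emb ψ'`, and (`S_Emj`: `c ≥ 1`, take
`j0` from it) `S_Tht` for `ψ`, `ψ'` and `S_Tr`.  By the general fact for `K` (`M = ⊥`): `u ∈ ⊥`. -/
def S_PE : Prop :=
  ∀ (n c m0 : ℕ) (L : Type) [Field L] [Algebra ℂ L] (G : Gen n c L), G.Ok m0 →
    ∀ M : IntermediateField G.K L, M = ⊥ ∨ M = ⊤

/-! ## The generic fibre spans -/

/-- `1`, `z_j`. -/
def zz {n c : ℕ} {L : Type} [Field L] (G : Gen n c L) : Option (Fin c) → L :=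
  fun o => o.elim 1 G.z

/-- (Ch) DIFFERENTIATION OF A RELATION.

PROOF.  `φ : P n c → MvPolynomial (Fin n × Fin c) A` (`aeval`): `X_(inl p) ↦ X_p`,
`X_(inr i) ↦ C y_i + ∑_j X_ij C z_j` (`y_i, z_j ∈ A`); `aeval t ∘ φ = ev` and `aeval t` is injective (`indt`).
`D = pderiv (i, k)` on `MvPolynomial _ A`: for all `a ∈ P n c`
`D (φ a) = φ (pderiv (inl (i, k)) a) + C z_k * φ (pderiv (inr i) a)`: both sides are `ℂ`-linear and satisfy the
Leibniz rule along `φ` (`MvPolynomial.induction_on`), and agree on the variables.  The relation gives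
`∑_o φ(r o) C(zz o) = 0`; apply `D` (`D (C _) = 0`) and then `aeval t`. -/
def S_Ch : Prop :=
  ∀ (n c m0 : ℕ) (L : Type) [Field L] [Algebra ℂ L] (G : Gen n c L), G.Ok m0 →
    ∀ r : Option (Fin c) → Gen.P n c, ∑ o, G.ev (r o) * zz G o = 0 → ∀ (i : Fin n) (k : Fin c),
    ∑ o, G.ev (pderiv (Sum.inl (i, k)) (r o)) * zz G o +
      G.z k * ∑ o, G.ev (pderiv (Sum.inr i) (r o)) * zz G o = 0

/-- (St) PROOF.  `w = ∑_o ev (∂ r_o) zz_o ∈ KV` and `z_k w ∈ KV` for all `k` (`S_Ch`; `ev _ ∈ K`), so `w KV ≤ KV`.  The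
`h ∈ L` with `h KV ≤ KV` form a `K`-subalgebra which contains `w`; so it contains
`IntermediateField.adjoin K {w}` (`w` is algebraic over `K`), which is `⊥` or `⊤`.  If `⊤`: `KV = ⊤` (`1 ∈ KV`).  So
`w ∈ ⊥`, i.e. `w ∈ K`. -/
def S_St : Prop :=
  ∀ (n c m0 : ℕ) (L : Type) [Field L] [Algebra ℂ L] (G : Gen n c L), G.Ok m0 → G.KV ≠ ⊤ →
    ∀ r : Option (Fin c) → Gen.P n c, ∑ o, G.ev (r o) * zz G o = 0 → ∀ i : Fin n,
    ∑ o, G.ev (pderiv (Sum.inr i) (r o)) * zz G o ∈ G.K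

/-- The weights `0` of `T_ij`, `1` of `U_i`. -/
def uw (n c : ℕ) : (Fin n × Fin c) ⊕ Fin n → ℕ := Sum.elim (fun _ => 0) fun _ => 1

/-- (Du) Polynomials in `T`, `U` without derivatives with respect to `U`, and the degree in `U`.

PROOF.  (1) `w = uw n c`; the support of `pderiv (inr i) b` consists of some `m - single (inr i) 1` with
`m ∈ support b`, `m (inr i) ≥ 1`, of weight one less.  (2) If `m (inr i) ≥ 1` for some `m ∈ support b` then the
coefficient of `pderiv (inr i) b` at `m - single (inr i) 1` is `m (inr i) * coeff m b ≠ 0`.  So all variables of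
`b` are `inl`: `MvPolynomial.exists_rename_eq_of_vars_subset_range`.  (3) Strong induction on the weighted degree of
`q` (`w`).  If some `∂_i q ≠ 0`: put `p'' = ∂_i p`, `q'' = ∂_i q`; `q p'' = p q''`.  For every `j`:
`q'' ∂_j p'' = p'' ∂_j q''` (differentiate `q p'' = p q''`, multiply by `q`, use `q ∂_j p = p ∂_j q`: `q^2 ∂_j p'' =
q p ∂_j q''`, so `q ∂_j p'' = p ∂_j q''`; multiply by `q''` and use `p q'' = q p''`, cancel `q`).  By induction
`γ p'' = β q''`; then `γ p q'' = γ q p'' = β q q''`, cancel `q''`.  If all `∂_i q = 0` then `q ∂_i p = 0`, so all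
`∂_i p = 0`, and by (2) `q = rename γ`, `p = rename β`: `γ p = β q` (commutativity). -/
def S_Du : Prop :=
  ∀ n c : ℕ,
    (∀ (b : Gen.P n c) (i : Fin n), pderiv (Sum.inr i) b ≠ 0 →
      weightedTotalDegree (uw n c) (pderiv (Sum.inr i) b) < weightedTotalDegree (uw n c) b) ∧
    (∀ b : Gen.P n c, (∀ i : Fin n, pderiv (Sum.inr i) b = 0) → ∃ b' : MvPolynomial (Fin n × Fin c) ℂ,
      b = rename Sum.inl b') ∧
    ∀ p q : Gen.P n c, q ≠ 0 → (∀ i : Fin n, q * pderiv (Sum.inr i) p = p * pderiv (Sum.inr i) q) →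
      ∃ β γ : MvPolynomial (Fin n × Fin c) ℂ, γ ≠ 0 ∧ rename Sum.inl γ * p = rename Sum.inl β * q

/-- (Mi) The coefficients of a relation can be taken in `ℂ[t]`.

PROOF.  Elements of `K` are `ev p / ev q` (`IntermediateField.mem_adjoin_range_iff`).  `ev` is injective (`S_Alg`).
Let `BB` be the set of the `(b, a)`, `b ≠ 0`, `b, a_j ∈ P n c`, with
`ev b z_j1 + ∑_(j ∈ J) ev (a_j) z_j ∈ K`.  It is not empty: `z_j1 = κ_0 + ∑ κ_j z_j`, common denominator.  CLAIM: for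
`(b, a) ∈ BB` and `i`: `ev (∂_i b) z_j1 + ∑ ev (∂_i a_j) z_j ∈ K` (`∂_i = pderiv (inr i)`).  Let the given element be
`ω = ev p / ev q`; relation `r`: `none ↦ - p`, `some j1 ↦ q b`, `some j ↦ q a_j` (`j ∈ J`), `0` otherwise.  `S_St`:
`- ev (∂_i p) + ev (∂_i q) ω + ev q (ev (∂_i b) z_j1 + ∑ ev (∂_i a_j) z_j) ∈ K`; `ev q ≠ 0`.  Now take `(b, a) ∈ BB` with
`weightedTotalDegree` of `b` minimal (`S_Du` (1)): `∂_i b = 0` for all `i`.  Then `∑ ev (∂_i a_j) z_j ∈ K`, so by the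
independence of `1, z_j` (`j ∈ J`): `∂_i a_j = 0`.  `S_Du` (2); `ev (rename inl f) = aeval t f`. -/
def S_Mi : Prop :=
  ∀ (n c m0 : ℕ) (L : Type) [Field L] [Algebra ℂ L] (G : Gen n c L), G.Ok m0 → G.KV ≠ ⊤ →
    ∀ (J : Finset (Fin c)) (j1 : Fin c), j1 ∉ J →
    LinearIndependent G.K (fun o : Option J => zz G (o.map Subtype.val)) →
    G.z j1 ∈ Submodule.span G.K (insert 1 (G.z '' J)) →
    ∃ (b : MvPolynomial (Fin n × Fin c) ℂ) (a : Fin c → MvPolynomial (Fin n × Fin c) ℂ), b ≠ 0 ∧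
      aeval G.t b * G.z j1 + ∑ j ∈ J, aeval G.t (a j) * G.z j ∈ G.K

/-- (Ct) PROOF.  `b, a` from `S_Mi`, seen in `P n c` (`rename inl`; `∂_i` of them is `0`, `∂_i = pderiv (inr i)`).
`ω = ev b z_j1 + ∑ ev (a_j) z_j = ev p / ev q`.  Fix `k ∈ J`.  `r` as in `S_Mi`: `none ↦ - p`, `some j1 ↦ q b`,
`some j ↦ q a_j`.  `w_i = ∑_o ev (∂_i r_o) zz_o = - ev (∂_i p) + ev (∂_i q) ω ∈ K`.  `S_Ch` for `(i, k)`, with
`D = pderiv (inl (i, k))`:
`- ev (D p) + ev (D (q b)) z_j1 + ∑ ev (D (q a_j)) z_j + z_k w_i = 0`.  Put in `z_j1 = (ω - ∑ ev (a_j) z_j) / ev b` and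
take the coefficient of `z_k` in the independent family `1, z_j` (`j ∈ J`), times `ev b`:
`ev (b D (q a_k) - a_k D (q b)) + ev b w_i = 0`.  As `b D (q a_k) - a_k D (q b) = q α_i`,
`α_i = b D a_k - a_k D b ∈ ℂ[T]`, and `ev q w_i = ev (p ∂_i q - q ∂_i p)`: in `P n c` (`ev` injective)
`b (q ∂_i p - p ∂_i q) = q^2 α_i` for all `i`.  `λ = ∑ α_i X_(inr i)`, `p' = b p - q λ`:
`q ∂_i p' - p' ∂_i q = q^2 α_i - q^2 ∂_i λ = 0`.  `S_Du` (3): `γ p' = β q`.  So (divide by `ev q`)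
`ev γ ev b ω - ev γ ∑ ev (α_i) l_i = ev β`, i.e. a relation with coefficients in `ℂ[t]` between `1, y, z`
(`l_i = y_i + ∑_j t_ij z_j`): `S_Kz` (1) with `x = (1, y, z)` (`lin`): the coefficient of `y_i`: `γ α_i = 0`, so
`α_i = 0`; the coefficient of `z_j1`: `γ b^2 - ∑ γ α_i T_(i,j1) = γ b^2 = 0`: contradiction.  (`α_i` does not depend on
the choice of `p`, `q`; `k` is fixed, `i` varies.) -/
def S_Ct : Prop :=
  ∀ (n c m0 : ℕ) (L : Type) [Field L] [Algebra ℂ L] (G : Gen n c L), G.Ok m0 → G.KV ≠ ⊤ →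
    ∀ (J : Finset (Fin c)) (j1 : Fin c), j1 ∉ J → J.Nonempty →
    LinearIndependent G.K (fun o : Option J => zz G (o.map Subtype.val)) →
    G.z j1 ∈ Submodule.span G.K (insert 1 (G.z '' J)) → False

/-- (ND) THE GENERIC FIBRE SPANS `ℙ^c`, OR `KV = L`.

PROOF.  Let `KV ≠ ⊤`.  Take `J ⊆ Fin c` maximal such that `1, z_j` (`j ∈ J`) are `K`-independent (`J = ∅` is possible:
`1 ≠ 0`; finite set, `Finset.exists_maximal`).  Every `z_j1`, `j1 ∉ J`, lies in the span of `1, z_j`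
(`LinearIndependent.insert`-type argument, `linearIndependent_option'`).  If `J = ∅`: all `z_j ∈ K`, so `y_i ∈ K`,
`t ∈ K`, `K = ⊤` by `gen` and `KV = ⊤`: contradiction.  So `J = univ` by `S_Ct`, and `finrank KV = c + 1`
(`KV = span (range (zz G))`, `finrank_span_eq_card`). -/
def S_ND : Prop :=
  ∀ (n c m0 : ℕ) (L : Type) [Field L] [Algebra ℂ L] (G : Gen n c L), G.Ok m0 →
    Module.finrank G.K G.KV = c + 1 ∨ G.KV = ⊤

end Pool.Agent.Lib.MP_776403_ag.SD.UK
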